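import Mathlib

/-!
# Inequalities between integers
-/

set_option autoImplicit false

namespace Pool.Agent.T9h57.LS

theorem exe (p q : ℤ) : ∃ e : ℤ, 2 * q + p ≤ 4 * e ∧ 3 * q + p ≤ 6 * e ∧
    (4 * (e - 1) < 2 * q + p ∨ 6 * (e - 1) < 3 * q + p) :=
  ⟨max (-(-(2 * q + p) / 4)) (-(-(3 * q + p) / 6)), by omega⟩

theorem int_gen {m p q r e A C : ℤ} 
    (R1 : q ≤ 3 * m ∨ q ≤ p + m ∨ q ≤ p) (R2 : 3 * m ≤ q ∨ 3 * m ≤ p + m ∨ 3 * m ≤ p)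
    (R3 : p + m ≤ q ∨ p + m ≤ 3 * m ∨ p + m ≤ p) (R4 : p ≤ q ∨ p ≤ 3 * m ∨ p ≤ p + m)
    (Q1 : r ≤ p ∨ r ≤ 0) (Q2 : p ≤ r ∨ p ≤ 0) (Q3 : 0 ≤ r ∨ 0 ≤ p)
    (he : 4 * (e - 1) < 2 * q + p ∨ 6 * (e - 1) < 3 * q + p)
    (hA : (A = 1 ∧ p = 1) ∨ (A = 0 ∧ p ≠ 1)) (hC : (C = 1 ∧ p = -1) ∨ (C = 0 ∧ p ≠ -1)) :
    12 * e - 6 * q - 2 * p - r + 63 * A + 34 * C + 24 * m + 6 * q ≤
      12 * max (6 * m) (max (3 * p) (2 * p)) + 36 * max p 0 + 36 * max (-p) 0 + max (-r) 0 := by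
  omega

theorem int_six {m p q r e σ : ℤ} 
    (R1 : q ≤ 3 * m ∨ q ≤ p + m ∨ q ≤ p) (hσ : 1 ≤ σ)
    (he : 4 * (e - 1) < 2 * q + p ∨ 6 * (e - 1) < 3 * q + p) :
    12 * e - 6 * q - 2 * p - r + 24 * m + 6 * q ≤
      12 * max (6 * m) (max (3 * p) (2 * p)) + 36 * max p 0 + 36 * max (-p) 0 + max (-r) 0
        + 72 * σ := by
  omega
theorem int_zero {p r e A C : ℤ} 
    (Q1 : r ≤ p ∨ r ≤ 0) (Q2 : p ≤ r ∨ p ≤ 0) (Q3 : 0 ≤ r ∨ 0 ≤ p)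
    (he : 4 * (e - 1) < 2 * p + p ∨ 6 * (e - 1) < 3 * p + p)
    (hA : (A = 1 ∧ p = 1) ∨ (A = 0 ∧ p ≠ 1)) (hC : (C = 1 ∧ p = -1) ∨ (C = 0 ∧ p ≠ -1)) :
    12 * e - 6 * p - 2 * p - r + 6 * A + C ≤ 9 * max p 0 + 9 * max (-p) 0 + max (-r) 0 := by
  omega
theorem int_zero6 {p r e σ : ℤ} 
    (he : 4 * (e - 1) < 2 * p + p ∨ 6 * (e - 1) < 3 * p + p) (hσ : 1 ≤ σ) :
    12 * e - 6 * p - 2 * p - r ≤ 9 * max p 0 + 9 * max (-p) 0 + max (-r) 0 + 12 * σ := by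
  omega
theorem int_simple {m p A C : ℤ}
    (hA : (A = 1 ∧ p = 1) ∨ (A = 0)) (hC : (C = 1 ∧ p = -1) ∨ (C = 0)) :
    3 * max m 0 - 2 * max (-m) 0 + 3 * A + 2 * C ≤ max (6 * m) (max (3 * p) (2 * p)) + 2 * max (-p) 0 := by
  omega
theorem low_gen {α β r g A B C : ℤ} (h1 : 4 * g + α ≤ 0) (h2 : 6 * g + β ≤ 0)
   (h : (A = 1 ∧ B = 0 ∧ C = 0 ∧ 3 * α - 2 * β = 1 ∧ r = 1) ∨ (A = 0 ∧ B = 1 ∧ C = 0 ∧ 3 * α - 2 * β = 0 ∧ r = -1) ∨ 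
     (A = 0 ∧ B = 0 ∧ C = 1 ∧ 3 * α - 2 * β = -1 ∧ r = 0)) :
   3 * A + B + 2 * C ≤ -12 * g - 2 * β - r := by omega
theorem low_sq {α β r g A B C : ℤ} (h1 : 4 * g + α ≤ 0) (h2 : 6 * g + 2 * β ≤ 0)
   (h : (A = 1 ∧ B = 0 ∧ C = 0 ∧ 3 * α - 2 * (2 * β) = 1 ∧ r = 1) ∨ (A = 0 ∧ B = 1 ∧ C = 0 ∧ 3 * α - 2 * (2 * β) = 0 ∧ r = -1) ∨ 
     (A = 0 ∧ B = 0 ∧ C = 1 ∧ 3 * α - 2 * (2 * β) = -1 ∧ r = 0)) :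
   3 * A + B + 8 * C ≤ -12 * g - 2 * (2 * β) - r := by omega

end Pool.Agent.T9h57.LS
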