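import Mathlib
import Pool.Agent.Y733.LS.Fin

/-!
# Normalized coordinates `t = a³ / b²` and `X = x a / b`, and comparison of heights
-/

set_option autoImplicit false
set_option linter.unusedSectionVars false

namespace Pool.Agent.T9h57.LS

open NumberField IsDedekindDomain Finset Pool.Agent.H691R3 Pool.Agent.W223.AK Pool.Agent.Y733.UD
open Pool.Agent.TH942 Pool.Agent.TH910.LS Pool.Agent.Y733.LS

section Sc

variable {K : Type} [Field K]

theorem sz_scale (w : AbsoluteValue K ℝ) (c t : K) :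
    sz w (c ^ 2 * t) (c ^ 3 * t) = w c * sz w t t := by
  have h2 : (w c ^ 2) ^ (1 / 2 : ℝ) = w c := by
    rw [← Real.rpow_natCast, ← Real.rpow_mul (w.nonneg _)]
    norm_num
  have h3 : (w c ^ 3) ^ (1 / 3 : ℝ) = w c := by
    rw [← Real.rpow_natCast, ← Real.rpow_mul (w.nonneg _)]
    norm_num
  have p2 : 0 ≤ w c ^ 2 := pow_nonneg (w.nonneg _) _
  have p3 : 0 ≤ w c ^ 3 := pow_nonneg (w.nonneg _) _
  unfold sz
  rw [map_mul, map_mul, map_pow, map_pow, Real.mul_rpow p2 (w.nonneg _),
    Real.mul_rpow p3 (w.nonneg _), h2, h3, mul_max_of_nonneg _ _ (w.nonneg _)]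

/-- the parameter of the curve up to twists -/
def tt (a b : K) : K := a ^ 3 / b ^ 2

theorem a_eq {a b : K} (ha : a ≠ 0) (hb : b ≠ 0) : a = (b / a) ^ 2 * tt a b := by
  unfold tt
  field_simp

theorem b_eq {a b : K} (ha : a ≠ 0) (hb : b ≠ 0) : b = (b / a) ^ 3 * tt a b := by
  unfold tt
  field_simp

theorem tt_ne {a b : K} (ha : a ≠ 0) (hb : b ≠ 0) : tt a b ≠ 0 :=
  div_ne_zero (pow_ne_zero _ ha) (pow_ne_zero _ hb)

theorem rr_eq {a b : K} (hb : b ≠ 0) : 4 * tt a b + 27 = dl a b / b ^ 2 := dl_scale hb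

theorem rr_ne {a b : K} (hb : b ≠ 0) (hD : dl a b ≠ 0) : 4 * tt a b + 27 ≠ 0 := by
  rw [rr_eq hb]
  exact div_ne_zero hD (pow_ne_zero _ hb)

theorem Lam_scale {a b : K} (ha : a ≠ 0) (hb : b ≠ 0) (x : K) (w : AbsoluteValue K ℝ) :
    Lam a b x w = Real.log (w (b / a)) + Lam (tt a b) (tt a b) (x * a / b) w := by
  have hc : 0 < w (b / a) := w.pos (div_ne_zero hb ha)
  have ht : 0 < sz w (tt a b) (tt a b) := sz_pos (tt_ne ha hb)
  have e1 : sz w a b = w (b / a) * sz w (tt a b) (tt a b) := by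
    have h := sz_scale w (b / a) (tt a b)
    rw [← a_eq ha hb, ← b_eq ha hb] at h
    exact h
  have e3 : w x = w (b / a) * w (x * a / b) := by
    rw [← map_mul]
    congr 1
    field_simp
  unfold Lam
  rw [e1, e3, ← mul_max_of_nonneg _ _ hc.le, Real.log_mul hc.ne' (lt_max_of_lt_right ht).ne']

end Sc

section Num

variable {K : Type} [Field K] [NumberField K]

theorem Sa_Lam {a b : K} (ha : a ≠ 0) (hb : b ≠ 0) (x : K) :
    Sa (Lam a b x) = Sa (Lam (tt a b) (tt a b) (x * a / b)) := by
  have hc : b / a ≠ 0 := div_ne_zero hb ha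
  have ht := tt_ne ha hb
  have hs1 : (Function.support fun v : Pr K => Real.log (fv v (b / a))).Finite := Fs_log hc
  have hs2 : (Function.support fun v : Pr K =>
      Lam (tt a b) (tt a b) (x * a / b) (fv v)).Finite := Fs_Lam ht ht _
  have e : Sa (Lam a b x) = Sa (fun w => Real.log (w (b / a))) +
      Sa (Lam (tt a b) (tt a b) (x * a / b)) := by
    unfold Sa
    rw [← Sm_add hs1 hs2]
    congr 1
    · funext w
      exact Lam_scale ha hb x w.1
    · funext v
      exact Lam_scale ha hb x (fv v)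
  rw [e, Sa_log hc, zero_add]

theorem jj_tt {a b : K} (ha : a ≠ 0) (hb : b ≠ 0) : jj (tt a b) (tt a b) = jj a b := by
  rw [jj_eq, jj_eq]
  have e : dl (tt a b) (tt a b) = (a ^ 6 / b ^ 6) * dl a b := by
    unfold dl tt
    field_simp
  have e2 : tt a b ^ 3 = (a ^ 6 / b ^ 6) * a ^ 3 := by
    unfold tt
    field_simp
  have h : a ^ 6 / b ^ 6 ≠ 0 := div_ne_zero (pow_ne_zero _ ha) (pow_ne_zero _ hb)
  rw [e, e2, mul_left_comm, mul_div_mul_left _ _ h]

theorem dl_tt (t : K) : dl t t = t ^ 2 * (4 * t + 27) := by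
  unfold dl
  ring

theorem dl_tt_ne {a b : K} (ha : a ≠ 0) (hb : b ≠ 0) (hD : dl a b ≠ 0) :
    dl (tt a b) (tt a b) ≠ 0 := by
  rw [dl_tt]
  exact mul_ne_zero (pow_ne_zero _ (tt_ne ha hb)) (rr_ne hb hD)

/-- comparison of two sums, up to constants -/
theorem Sm_le_of {f f' : InfinitePlace K → ℝ} {g g' : Pr K → ℝ}
    (h : (Function.support g).Finite) (h' : (Function.support g').Finite) (c : ℝ) {N : ℕ}
    (hN : N ≠ 0) (hf : ∀ w, f w ≤ f' w + c) (hg : ∀ v, g v ≤ g' v - Real.log (fv v (N : K))) :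
    Sm f g ≤ Sm f' g' + Module.finrank ℚ K * (c + Real.log N) := by
  have hN' : (N : K) ≠ 0 := Nat.cast_ne_zero.2 hN
  have hs4 : (Function.support fun v : Pr K => Real.log (fv v (N : K))).Finite := Fs_log hN'
  have h1 : Sm f g ≤ Sm (fun w => f' w + c) (fun v => g' v + -1 * Real.log (fv v (N : K))) := by
    apply Sm_mono h (supp_add h' (supp_mul (-1) hs4)) hf
    intro v
    have := hg v
    linarith
  refine h1.trans (le_of_eq ?_)
  rw [Sm_add h' (supp_mul (-1) hs4)]
  have e4 : Sm (fun _ : InfinitePlace K => c) (fun v : Pr K => -1 * Real.log (fv v (N : K))) =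
      Module.finrank ℚ K * (c + Real.log (N : ℝ)) := by
    unfold Sm
    have h6 : ∑ᶠ v : Pr K, -1 * Real.log (fv v (N : K)) =
        -1 * ∑ᶠ v : Pr K, Real.log (fv v (N : K)) := by
      rw [← smul_eq_mul, smul_finsum]
      rfl
    rw [h6, fin_nat hN, ← Finset.sum_mul, sum_mult]
    ring
  rw [e4]

theorem fv_nat_log (v : Pr K) (N : ℕ) : Real.log (fv v (N : K)) ≤ 0 :=
  Real.log_nonpos ((fv v).nonneg _) ((fv_Na v).nat N)

theorem ht_inv {z : K} (hz : z ≠ 0) : ht z⁻¹ = ht z := by
  have hs1 : (Function.support fun v : Pr K => Real.log (max (fv v z) 1)).Finite := Fs_ht z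
  have hs2 : (Function.support fun v : Pr K => Real.log (fv v z)).Finite := Fs_log hz
  have key : ∀ w : AbsoluteValue K ℝ, Real.log (max (w z⁻¹) 1) =
      Real.log (max (w z) 1) - Real.log (w z) := by
    intro w
    have h0 := w.pos hz
    have h1 : 0 < max (w z) 1 := lt_max_of_lt_right one_pos
    rw [← Real.log_div h1.ne' h0.ne']
    congr 1
    rw [map_inv₀]
    rcases le_total (w z) 1 with h | h
    · rw [max_eq_right h, max_eq_left (one_le_inv_iff₀.2 ⟨h0, h⟩), one_div]
    · rw [max_eq_left h, max_eq_right (inv_le_one_of_one_le₀ h), div_self h0.ne']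
  have e : Sa (fun w : AbsoluteValue K ℝ => Real.log (max (w z⁻¹) 1)) =
      Sa (fun w : AbsoluteValue K ℝ => Real.log (max (w z) 1)) -
      Sa (fun w : AbsoluteValue K ℝ => Real.log (w z)) := by
    unfold Sa
    rw [← Sm_sub hs1 hs2]
    congr 1
    · funext w
      exact key w.1
    · funext v
      exact key (fv v)
  rw [ht_eq_Sa, ht_eq_Sa, e, Sa_log hz, sub_zero]

/-- the sum of the sizes is a sixth of the height of `t` -/
theorem six_sz {t : K} (ht0 : t ≠ 0) : 6 * Sa (fun w : AbsoluteValue K ℝ => Real.log (sz w t t)) =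
    ht t := by
  have hs1 := Fs_sz (K := K) ht0 ht0
  have hs2 : (Function.support fun v : Pr K => Real.log (max (fv v t) 1)).Finite := Fs_ht t
  have hs3 : (Function.support fun v : Pr K => Real.log (fv v t)).Finite := Fs_log ht0
  have key : ∀ w : AbsoluteValue K ℝ, 6 * Real.log (sz w t t) =
      Real.log (max (w t) 1) + 2 * Real.log (w t) := by
    intro w
    have h0 := w.pos ht0
    have h1 : 0 < max (w t) 1 := lt_max_of_lt_right one_pos
    have h2 := sz_six w t t
    have e1 : 6 * Real.log (sz w t t) = Real.log (sz w t t ^ 6) := by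
      rw [Real.log_pow]
      push_cast
      ring
    have e2 : max (w t ^ 3) (w t ^ 2) = max (w t) 1 * w t ^ 2 := by
      rw [max_mul_of_nonneg _ _ (by positivity)]
      congr 1
      · ring
      · ring
    rw [e1, h2, e2, Real.log_mul h1.ne' (by positivity), Real.log_pow]
    push_cast
    ring
  have e : 6 * Sa (fun w : AbsoluteValue K ℝ => Real.log (sz w t t)) =
      Sa (fun w : AbsoluteValue K ℝ => Real.log (max (w t) 1)) +
      2 * Sa (fun w : AbsoluteValue K ℝ => Real.log (w t)) := by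
    unfold Sa
    rw [← Sm_mul, ← Sm_mul, ← Sm_add hs2 (supp_mul 2 hs3)]
    congr 1
    · funext w
      exact key w.1
    · funext v
      exact key (fv v)
  rw [e, Sa_log ht0, ← ht_eq_Sa]
  ring

theorem ofn_inf (w : InfinitePlace K) (n : ℕ) [n.AtLeastTwo] :
    w.1 (OfNat.ofNat n : K) = (OfNat.ofNat n : ℝ) := inf_nat w n

/-- `4 t + 27` -/
theorem ht_rr {t : K} (h : 4 * t + 27 ≠ 0) :
    ht (4 * t + 27)⁻¹ ≤ ht t + Module.finrank ℚ K * Real.log 31 := by
  rw [ht_inv h, ht_eq_Sa, ht_eq_Sa]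
  have := Sm_le_of (K := K) (f := fun w => Real.log (max (w.1 (4 * t + 27)) 1))
    (f' := fun w => Real.log (max (w.1 t) 1))
    (g := fun v => Real.log (max (fv v (4 * t + 27)) 1))
    (g' := fun v => Real.log (max (fv v t) 1)) (Fs_ht _) (Fs_ht _) (Real.log 31) (N := 1)
    one_ne_zero ?_ ?_
  · simpa [Sa] using this
  · intro w
    have h1 : 0 < max (w.1 t) 1 := lt_max_of_lt_right one_pos
    rw [← Real.log_mul h1.ne' (by norm_num)]
    apply Real.log_le_log (lt_max_of_lt_right one_pos)
    have h2 := w.1.add_le (4 * t) 27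
    rw [map_mul, ofn_inf, ofn_inf] at h2
    have h3 := le_max_left (w.1 t) 1
    have h4 := le_max_right (w.1 t) 1
    apply max_le <;> linarith
  · intro v
    rw [Nat.cast_one, map_one, Real.log_one, sub_zero]
    apply Real.log_le_log (lt_max_of_lt_right one_pos)
    have hn := fv_Na v
    apply max_le _ (le_max_right _ _)
    apply hn.le_add
    · rw [map_mul]
      refine le_trans ?_ (le_max_left _ _)
      have h1 : fv v (4 : K) ≤ 1 := hn.ofNat 4
      have := (fv v).nonneg t
      nlinarith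
    · exact (hn.ofNat 27).trans (le_max_right _ _)

/-- the height of `j` -/
theorem ht_j_le {a b : K} (ha : a ≠ 0) (hb : b ≠ 0) (hD : dl a b ≠ 0) :
    ht (jj a b) ≤ ht (tt a b) + Module.finrank ℚ K * Real.log 6912 := by
  have h1 := sz_sum (tt_ne ha hb) (tt_ne ha hb) (dl_tt_ne ha hb hD)
  rw [jj_tt ha hb, six_sz (tt_ne ha hb)] at h1
  linarith

/-- the inverse map -/
theorem tt_j {a b : K} (ha : a ≠ 0) (hb : b ≠ 0) (hD : dl a b ≠ 0) :
    tt a b = 27 * jj a b / (4 * (1728 - jj a b)) ∧ 1728 - jj a b ≠ 0 := by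
  have h1 : 1728 - jj a b = 46656 * b ^ 2 / dl a b := by
    have := jj_sub a b hD
    linear_combination -this
  have h2 : 1728 - jj a b ≠ 0 := by
    rw [h1]
    exact div_ne_zero (mul_ne_zero (by norm_num) (pow_ne_zero _ hb)) hD
  refine ⟨?_, h2⟩
  rw [eq_div_iff (mul_ne_zero (by norm_num) h2), h1, jj_eq]
  unfold tt
  field_simp
  ring

theorem ht_t_le {j : K} (h1 : 1728 - j ≠ 0) :
    ht (27 * j / (4 * (1728 - j))) ≤ ht j + Module.finrank ℚ K * Real.log 6916 := by
  set z : K := 4 * (1728 - j) with hz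
  have hz0 : z ≠ 0 := mul_ne_zero (by norm_num) h1
  have hs1 : (Function.support fun v : Pr K =>
      Real.log (max (fv v (27 * j / z)) 1)).Finite := Fs_ht _
  have hs2 : (Function.support fun v : Pr K => Real.log (fv v z)).Finite := Fs_log hz0
  have e : Sa (fun w : AbsoluteValue K ℝ => Real.log (max (w (27 * j / z)) 1)) =
      Sa (fun w : AbsoluteValue K ℝ => Real.log (max (w (27 * j)) (w z))) := by
    have : Sa (fun w : AbsoluteValue K ℝ => Real.log (max (w (27 * j / z)) 1)) +
        Sa (fun w : AbsoluteValue K ℝ => Real.log (w z)) =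
      Sa (fun w : AbsoluteValue K ℝ => Real.log (max (w (27 * j)) (w z))) := by
      have key : ∀ w : AbsoluteValue K ℝ, Real.log (max (w (27 * j / z)) 1) + Real.log (w z) =
          Real.log (max (w (27 * j)) (w z)) := by
        intro w
        have h0 := w.pos hz0
        rw [← Real.log_mul (lt_max_of_lt_right one_pos).ne' h0.ne',
          max_mul_of_nonneg _ _ h0.le, one_mul, map_div₀, div_mul_cancel₀ _ h0.ne']
      unfold Sa
      rw [← Sm_add hs1 hs2]
      congr 1
      · funext w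
        exact key w.1
      · funext v
        exact key (fv v)
    rw [← this, Sa_log hz0, add_zero]
  have hs3 : (Function.support fun v : Pr K => Real.log (max (fv v (27 * j)) (fv v z))).Finite := by
    refine (supp_add hs1 hs2).subset ?_
    intro v hv
    rw [Function.mem_support] at hv ⊢
    intro h0
    apply hv
    rw [← h0]
    have h0 := (fv v).pos hz0
    rw [← Real.log_mul (lt_max_of_lt_right one_pos).ne' h0.ne',
      max_mul_of_nonneg _ _ h0.le, one_mul, map_div₀, div_mul_cancel₀ _ h0.ne']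
  rw [ht_eq_Sa, e, ht_eq_Sa]
  have := Sm_le_of (K := K) (f := fun w => Real.log (max (w.1 (27 * j)) (w.1 z)))
    (f' := fun w => Real.log (max (w.1 j) 1))
    (g := fun v => Real.log (max (fv v (27 * j)) (fv v z)))
    (g' := fun v => Real.log (max (fv v j) 1)) hs3 (Fs_ht _) (Real.log 6916) (N := 1)
    one_ne_zero ?_ ?_
  · simpa [Sa] using this
  · intro w
    have h1 : 0 < max (w.1 j) 1 := lt_max_of_lt_right one_pos
    rw [← Real.log_mul h1.ne' (by norm_num)]
    apply Real.log_le_log (lt_max_of_lt_right (w.1.pos hz0))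
    have h2 := w.1.sub_le 1728 0 j
    simp only [sub_zero, zero_sub, map_neg_eq_map] at h2
    rw [ofn_inf] at h2
    have h3 := le_max_left (w.1 j) 1
    have h4 := le_max_right (w.1 j) 1
    rw [hz, map_mul, map_mul, ofn_inf, ofn_inf]
    apply max_le <;> linarith
  · intro v
    rw [Nat.cast_one, map_one, Real.log_one, sub_zero]
    apply Real.log_le_log (lt_max_of_lt_right ((fv v).pos hz0))
    have hn := fv_Na v
    have hj0 := (fv v).nonneg j
    rw [hz, map_mul, map_mul]
    have h27 : fv v (27 : K) ≤ 1 := hn.ofNat 27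
    have h4 : fv v (4 : K) ≤ 1 := hn.ofNat 4
    have h4' := (fv v).nonneg (4 : K)
    have hm : fv v (1728 - j) ≤ max (fv v j) 1 :=
      hn.le_sub ((hn.ofNat 1728).trans (le_max_right _ _)) (le_max_left _ _)
    have hm0 := (fv v).nonneg (1728 - j)
    apply max_le
    · refine le_trans ?_ (le_max_left _ _)
      nlinarith
    · refine le_trans ?_ hm
      nlinarith

end Num

end Pool.Agent.T9h57.LS
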