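import Mathlib
import Pool.Agent.T9h57.LS.Sc

/-!
# The canonical height in terms of the first point, from below and from above
-/

set_option autoImplicit false
set_option linter.unusedSectionVars false

namespace Pool.Agent.T9h57.LS

open NumberField IsDedekindDomain Finset Pool.Agent.H691R3 Pool.Agent.W223.AK Pool.Agent.Y733.UD
open Pool.Agent.TH942 Pool.Agent.TH910.LS Pool.Agent.Y733.LS WeierstrassCurve Filter Topology

section Loc

variable {K : Type} [Field K] {w : AbsoluteValue K ℝ}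

/-- at a singular point all is small -/
theorem bad_small [CharZero K] (h : Na w) (h2 : w 2 = 1) {t X : K} {q : ℝ}
    (hq0 : 0 < q) (hq1 : q < 1) (hd : ∀ z : K, w z < 1 → w z ≤ q)
    (hr : w (4 * t + 27) = q) (hX : w (2 * X + 3) < 1) :
    w X ≤ 1 ∧ w (pF t t X) ≤ q ∧ w (pG t t X) ≤ q := by
  have h16 : w (16 : K) = 1 := by
    have : (16 : K) = 2 ^ 4 := by norm_num
    rw [this, pw2 h2]
  set Y := 2 * X + 3 with hY
  set r := 4 * t + 27 with hr'
  have hYq : w Y ≤ q := hd _ hX
  have hX1 : w X ≤ 1 := by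
    by_contra hcon
    push Not at hcon
    rw [hY, lin_big h h2 hcon] at hX
    linarith
  have hX3 : w (X - 3) ≤ 1 := h.le_sub hX1 (h.ofNat 3)
  have hXp : w (X + 1) ≤ 1 := h.le_add hX1 (by rw [map_one])
  have hqq : q * q ≤ q := by nlinarith
  have hnn : ∀ (n : ℕ) [n.AtLeastTwo] (z : K), w z ≤ q → w (OfNat.ofNat n * z) ≤ q := by
    intro n _ z hz
    rw [map_mul]
    have h1 := h.ofNat (w := w) n
    have h2 := w.nonneg (OfNat.ofNat n : K)
    have h3 := w.nonneg z
    nlinarith
  have eG : pG t t X = Y * (Y * (X - 3)) + r * (X + 1) := by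
    rw [hY, hr']
    unfold pG
    ring
  have hGq : w (pG t t X) ≤ q := by
    rw [eG]
    apply h.le_add
    · have e1 : w (Y * (X - 3)) ≤ 1 := by
        refine (Na.le_mul_of hYq hX3).trans ?_
        linarith
      refine (Na.le_mul_of hYq e1).trans ?_
      linarith
    · refine (Na.le_mul_of hr.le hXp).trans ?_
      linarith
  have hr1 : w r ≤ 1 := by linarith [hr.le]
  have hk : w (16 * pF t t X + 24 * pG t t X) ≤ q := by
    have e2 : 16 * pF t t X + 24 * pG t t X =
        Y * Y ^ 3 + r * (r - 30 - 8 * (X ^ 2 + X)) := by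
      rw [key1, hY, hr']
      ring
    rw [e2]
    apply h.le_add
    · have e1 : w (Y ^ 3) ≤ 1 := by
        rw [map_pow]
        exact pow_le_one₀ (w.nonneg _) (by linarith)
      refine (Na.le_mul_of hYq e1).trans ?_
      linarith
    · have e4 : w (r - 30 - 8 * (X ^ 2 + X)) ≤ 1 := by
        apply h.le_sub
        · exact h.le_sub hr1 (h.ofNat 30)
        · have := Na.le_mul_of (w := w) (z := (8 : K)) (z' := X ^ 2 + X) (h.ofNat 8)
            (h.le_add (x := X ^ 2) (y := X) (r := 1) (by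
              rw [map_pow]; exact pow_le_one₀ (w.nonneg _) hX1) hX1)
          simpa using this
      refine (Na.le_mul_of hr.le e4).trans ?_
      linarith
  refine ⟨hX1, ?_, hGq⟩
  have e5 : w (16 * pF t t X) ≤ q := by
    have e6 : 16 * pF t t X = (16 * pF t t X + 24 * pG t t X) - 24 * pG t t X := by ring
    rw [e6]
    exact h.le_sub hk (hnn 24 _ hGq)
  rwa [map_mul, h16, one_mul] at e5

theorem bad_up [CharZero K] (h : Na w) (h2 : w 2 = 1) {a b x : K} (ha : a ≠ 0) (hb : b ≠ 0)
    (hab : w a ^ 3 = w b ^ 2) {q : ℝ} (hq0 : 0 < q) (hq1 : q < 1)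
    (hd : ∀ z : K, w z < 1 → w z ≤ q) (hr : w (dl a b) = q * w b ^ 2)
    (hx : ¬ Good w a b x) :
    max (w (pF a b x)) (sz w a b * w (pG a b x)) ≤ q * max (w x) (sz w a b) ^ 4 := by
  rw [good_iff hb, not_le] at hx
  have hr' : w (4 * (a ^ 3 / b ^ 2) + 27) = q := by
    rw [dl_scale hb, map_div₀, map_pow, hr, mul_div_cancel_right₀ _ (pow_pos (w.pos hb) _).ne']
  obtain ⟨h3, h4, h5⟩ := bad_small h h2 hq0 hq1 hd hr' hx
  obtain ⟨e1, e2⟩ := sz_eq_of hab
  set s := sz w a b with hs
  have hs0 : 0 < s := sz_pos ha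
  have hc : w (b / a) = s := by
    rw [map_div₀, e1, e2]
    field_simp
  rw [pF_scale ha hb, pG_scale ha hb, map_mul, map_mul, map_pow, map_pow, hc]
  have hM : s ^ 4 ≤ max (w x) s ^ 4 := pow_le_pow_left₀ hs0.le (le_max_right _ _) _
  have hq : q * s ^ 4 ≤ q * max (w x) s ^ 4 := mul_le_mul_of_nonneg_left hM hq0.le
  refine le_trans ?_ hq
  apply max_le
  · calc s ^ 4 * w (pF (a ^ 3 / b ^ 2) (a ^ 3 / b ^ 2) (x * a / b)) ≤ s ^ 4 * q := by gcongr
      _ = q * s ^ 4 := by ring
  · calc s * (s ^ 3 * w (pG (a ^ 3 / b ^ 2) (a ^ 3 / b ^ 2) (x * a / b)))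
        ≤ s * (s ^ 3 * q) := by gcongr
      _ = q * s ^ 4 := by ring

/-- the trivial upper bound, ultrametric case -/
theorem up_na (h : Na w) {a b x : K} {s : ℝ} (hs : 0 < s) (ha : w a ≤ s ^ 2) (hb : w b ≤ s ^ 3) :
    max (w (pF a b x)) (s * w (pG a b x)) ≤ max (w x) s ^ 4 := by
  set M := max (w x) s with hM
  have hsM : s ≤ M := le_max_right _ _
  have hxM : w x ≤ M := le_max_left _ _
  have hM0 : 0 < M := lt_of_lt_of_le hs hsM
  have hn : ∀ (n : ℕ) [n.AtLeastTwo] (z : K) (r : ℝ), w z ≤ r → w (OfNat.ofNat n * z) ≤ r := by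
    intro n _ z r hz
    rw [map_mul]
    have h1 := h.ofNat (w := w) n
    have h2 := w.nonneg (OfNat.ofNat n : K)
    have h3 := w.nonneg z
    nlinarith
  have wp : ∀ (z : K) (n : ℕ) (r : ℝ), w z ≤ r → w (z ^ n) ≤ r ^ n := by
    intro z n r hz
    rw [map_pow]
    exact pow_le_pow_left₀ (w.nonneg _) hz n
  have ha' : w a ≤ M ^ 2 := ha.trans (by gcongr)
  have hb' : w b ≤ M ^ 3 := hb.trans (by gcongr)
  have wm : ∀ (z z' : K) (r r' : ℝ), w z ≤ r → w z' ≤ r' → w (z * z') ≤ r * r' := by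
    intro z z' r r' hz hz'
    exact Na.le_mul_of hz hz'
  apply max_le
  · unfold pF
    apply h.le_add
    · apply h.le_sub
      · apply h.le_sub
        · exact wp x 4 _ hxM
        · rw [mul_assoc]
          exact hn 2 _ _ ((wm _ _ _ _ ha' (wp x 2 _ hxM)).trans (le_of_eq (by ring)))
      · rw [mul_assoc]
        exact hn 8 _ _ ((wm _ _ _ _ hb' hxM).trans (le_of_eq (by ring)))
    · exact (wp a 2 _ ha').trans (le_of_eq (by ring))
  · have hG : w (pG a b x) ≤ M ^ 3 := by
      unfold pG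
      apply hn 4
      apply h.le_add
      · apply h.le_add
        · exact wp x 3 _ hxM
        · exact (wm _ _ _ _ ha' hxM).trans (le_of_eq (by ring))
      · exact hb'
    calc s * w (pG a b x) ≤ M * M ^ 3 := by gcongr
      _ = M ^ 4 := by ring

/-- the trivial upper bound, archimedean case -/
theorem up_arch (hn : ∀ n : ℕ, w (n : K) ≤ n) {a b x : K} {s : ℝ} (hs : 0 < s)
    (ha : w a ≤ s ^ 2) (hb : w b ≤ s ^ 3) :
    max (w (pF a b x)) (s * w (pG a b x)) ≤ 12 * max (w x) s ^ 4 := by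
  set M := max (w x) s with hM
  have hsM : s ≤ M := le_max_right _ _
  have hxM : w x ≤ M := le_max_left _ _
  have hM0 : 0 < M := lt_of_lt_of_le hs hsM
  have wa : ∀ (z z' : K) (r r' : ℝ), w z ≤ r → w z' ≤ r' → w (z + z') ≤ r + r' := by
    intro z z' r r' hz hz'
    exact (w.add_le z z').trans (add_le_add hz hz')
  have ws : ∀ (z z' : K) (r r' : ℝ), w z ≤ r → w z' ≤ r' → w (z - z') ≤ r + r' := by
    intro z z' r r' hz hz'
    rw [sub_eq_add_neg]
    exact wa _ _ _ _ hz (by rw [map_neg_eq_map]; exact hz')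
  have wp : ∀ (z : K) (n : ℕ) (r : ℝ), w z ≤ r → w (z ^ n) ≤ r ^ n := by
    intro z n r hz
    rw [map_pow]
    exact pow_le_pow_left₀ (w.nonneg _) hz n
  have wm : ∀ (z z' : K) (r r' : ℝ), w z ≤ r → w z' ≤ r' → w (z * z') ≤ r * r' := by
    intro z z' r r' hz hz'
    rw [map_mul]
    exact mul_le_mul hz hz' (w.nonneg _) ((w.nonneg _).trans hz)
  have wn : ∀ (n : ℕ) (z : K) (r : ℝ), w z ≤ r → w ((n : K) * z) ≤ n * r := by
    intro n z r hz
    exact wm _ _ _ _ (hn n) hz
  have ha' : w a ≤ M ^ 2 := ha.trans (by gcongr)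
  have hb' : w b ≤ M ^ 3 := hb.trans (by gcongr)
  apply max_le
  · have e : pF a b x = x ^ 4 - ((2 : ℕ) : K) * (a * x ^ 2) - ((8 : ℕ) : K) * (b * x) + a ^ 2 := by
      unfold pF
      push_cast
      ring
    rw [e]
    refine (wa _ _ _ _ (ws _ _ _ _ (ws _ _ _ _ (wp x 4 _ hxM)
      (wn 2 _ _ (wm _ _ _ _ ha' (wp x 2 _ hxM)))) (wn 8 _ _ (wm _ _ _ _ hb' hxM)))
      (wp a 2 _ ha')).trans (le_of_eq ?_)
    push_cast
    ring
  · have hG : w (pG a b x) ≤ 12 * M ^ 3 := by
      have e : pG a b x = ((4 : ℕ) : K) * (x ^ 3 + a * x + b) := by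
        unfold pG
        push_cast
        ring
      rw [e]
      refine (wn 4 _ _ (wa _ _ _ _ (wa _ _ _ _ (wp x 3 _ hxM) (wm _ _ _ _ ha' hxM))
        hb')).trans (le_of_eq ?_)
      push_cast
      ring
    calc s * w (pG a b x) ≤ M * (12 * M ^ 3) := by gcongr
      _ = 12 * M ^ 4 := by ring

end Loc

section Num

variable {K : Type} [Field K] [NumberField K]

open Classical in
/-- the simple poles of `j` at which the point is singular -/
noncomputable def btf (a b x : K) (v : Pr K) : ℝ :=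
  if Sp (jj a b) v ∧ ¬ Good (fv v) a b x then Real.log (Nv v) else 0

/-- their contribution -/
noncomputable def bt (a b x : K) : ℝ := ∑ᶠ v : Pr K, btf a b x v

theorem btf_nonneg (a b x : K) (v : Pr K) : 0 ≤ btf a b x v := by
  unfold btf
  split_ifs
  · exact (log_Nv_pos v).le
  · exact le_rfl

open Classical in
theorem btf_le (a b x : K) (v : Pr K) :
    btf a b x v ≤ if Sp (jj a b) v then Real.log (Nv v) else 0 := by
  unfold btf
  have := (log_Nv_pos v).le
  split_ifs with h1 h2 h2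
  · exact le_rfl
  · exact absurd h1.1 h2
  · exact this
  · exact le_rfl

theorem Fs_bt (a b x : K) : (Function.support (btf a b x)).Finite := by
  classical
  refine (Fs_sp (jj a b)).subset ?_
  intro v hv
  rw [Function.mem_support] at hv ⊢
  intro h0
  apply hv
  have h1 := btf_le a b x v
  rw [h0] at h1
  exact le_antisymm h1 (btf_nonneg a b x v)

theorem bt_nonneg (a b x : K) : 0 ≤ bt a b x := finsum_nonneg (btf_nonneg a b x)

theorem bt_le_sp (a b x : K) : bt a b x ≤ sp (jj a b) := by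
  classical
  exact finsum_le_finsum' (Fs_bt a b x) (Fs_sp (jj a b)) (btf_le a b x)

theorem Sm_bt (a b x : K) : Sm (fun _ => 0) (btf a b x) = bt a b x := by
  unfold Sm bt
  simp

/-- the first duplication -/
theorem first_step {a b x : K} (ha : a ≠ 0) (hb : b ≠ 0) (hD : dl a b ≠ 0) (hG : pG a b x ≠ 0) :
    4 * Sa (Lam a b x) - Sm (lossi a b) (lossf a b) - bt a b x ≤
      Sa (Lam a b (pF a b x / pG a b x)) := by
  have e1 : Sa (Lam a b (pF a b x / pG a b x)) =
      Sa (Lam a b (pF a b x / pG a b x)) + Sa (fun w => Real.log (w (pG a b x))) := by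
    rw [Sa_log hG, add_zero]
  have hs1 : (Function.support fun v : Pr K => Lam a b (pF a b x / pG a b x) (fv v)).Finite :=
    Fs_Lam ha hb (pF a b x / pG a b x)
  have hs2 : (Function.support fun v : Pr K => Real.log (fv v (pG a b x))).Finite := Fs_log hG
  have hs3 : (Function.support fun v : Pr K => Lam a b x (fv v)).Finite := Fs_Lam ha hb x
  have hs4 := Fs_loss ha hb hD
  have hs5 := Fs_bt a b x
  have h4D : (4 : K) * dl a b ≠ 0 := mul_ne_zero (by norm_num) hD
  have e2 : Sa (Lam a b (pF a b x / pG a b x)) + Sa (fun w => Real.log (w (pG a b x))) =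
      Sm (fun w => Lam a b (pF a b x / pG a b x) w.1 + Real.log (w.1 (pG a b x)))
        (fun v => Lam a b (pF a b x / pG a b x) (fv v) + Real.log (fv v (pG a b x))) := by
    rw [Sm_add hs1 hs2]
    rfl
  have e3 : 4 * Sa (Lam a b x) - Sm (lossi a b) (lossf a b) - bt a b x =
      Sm (fun w => 4 * Lam a b x w.1 - lossi a b w - 0)
        (fun v => 4 * Lam a b x (fv v) - lossf a b v - btf a b x v) := by
    rw [Sm_sub (supp_sub (supp_mul 4 hs3) hs4) hs5, Sm_sub (supp_mul 4 hs3) hs4, Sm_mul, Sm_bt]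
    rfl
  rw [e1, e2, e3]
  have hM : ∀ w : AbsoluteValue K ℝ, 0 < max (w x) (sz w a b) := fun w =>
    lt_max_of_lt_right (sz_pos ha)
  have hR : ∀ w : AbsoluteValue K ℝ, 0 < max (w (pF a b x)) (sz w a b * w (pG a b x)) := fun w =>
    lt_max_of_lt_right (mul_pos (sz_pos ha) (w.pos hG))
  apply Sm_mono (supp_sub (supp_sub (supp_mul 4 hs3) hs4) hs5) (supp_add hs1 hs2)
  · intro w
    show 4 * Real.log (max (w.1 x) (sz w.1 a b)) - lossi a b w - 0 ≤
      Real.log (max (w.1 (pF a b x / pG a b x)) (sz w.1 a b)) + Real.log (w.1 (pG a b x))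
    rw [ptw ha hG]
    have h1 := res_arch (w := w.1) (fun n => (inf_nat w n).le) (x := x) (sz_pos (b := b) ha)
      (le_sz_sq w.1 a b) (le_sz_cube w.1 a b)
    have h2 : 0 < w.1 (4 * dl a b) := w.1.pos h4D
    have h3 : 0 < sz w.1 a b := sz_pos ha
    have h4 := Real.log_le_log (by have := hM w.1; positivity) h1
    rw [Real.log_mul h2.ne' (pow_pos (hM w.1) 4).ne', Real.log_pow,
      Real.log_mul (by positivity) (hR w.1).ne'] at h4
    unfold lossi
    rw [Real.log_div (by positivity) h2.ne']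
    push_cast at h4
    linarith
  · intro v
    show 4 * Real.log (max (fv v x) (sz (fv v) a b)) - lossf a b v - btf a b x v ≤
      Real.log (max (fv v (pF a b x / pG a b x)) (sz (fv v) a b)) + Real.log (fv v (pG a b x))
    rw [ptw ha hG]
    have h2 : 0 < fv v (4 * dl a b) := (fv v).pos h4D
    have h3 : 0 < sz (fv v) a b := sz_pos ha
    have hres : Real.log (fv v (4 * dl a b)) + 4 * Real.log (max (fv v x) (sz (fv v) a b)) ≤
        6 * Real.log (sz (fv v) a b) +
        Real.log (max (fv v (pF a b x)) (sz (fv v) a b * fv v (pG a b x))) := by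
      have h1 := res_na (w := fv v) (fv_Na v) (x := x) (sz_pos (b := b) ha)
        (le_sz_sq (fv v) a b) (le_sz_cube (fv v) a b)
      have h4 := Real.log_le_log (by have := hM (fv v); positivity) h1
      rw [Real.log_mul h2.ne' (pow_pos (hM (fv v)) 4).ne', Real.log_pow,
        Real.log_mul (by positivity) (hR (fv v)).ne', Real.log_pow] at h4
      push_cast at h4
      linarith
    have hb0 := btf_nonneg a b x v
    unfold lossf
    split_ifs with hsp
    · obtain ⟨f1, f2⟩ := sp_facts hD hsp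
      by_cases hgood : Good (fv v) a b x
      · have hlt : fv v (dl a b) < fv v b ^ 2 := by
          rw [f2]
          have h5 : 0 < fv v b ^ 2 := pow_pos ((fv v).pos hb) 2
          have h6 : (Nv v)⁻¹ < 1 := inv_lt_one_of_one_lt₀ (Nv_one_lt v)
          nlinarith
        have h1 := (good_step (fv_Na v) hsp.1 ha hb f1 hlt hgood).1
        have h4 := Real.log_le_log (by have := hM (fv v); positivity) h1
        rw [Real.log_pow] at h4
        push_cast at h4
        linarith
      · have e5 : btf a b x v = Real.log (Nv v) := by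
          unfold btf
          exact if_pos ⟨hsp, hgood⟩
        rw [e5]
        have h4 : fv v (4 : K) = 1 := by
          have : (4 : K) = 2 ^ 2 := by norm_num
          rw [this, map_pow, hsp.1]
          norm_num
        have hNp := Nv_pos v
        have e6 : Real.log (fv v (4 * dl a b)) = -Real.log (Nv v) +
            6 * Real.log (sz (fv v) a b) := by
          rw [map_mul, h4, one_mul, f2, Real.log_mul (inv_pos.2 hNp).ne'
            (pow_pos ((fv v).pos hb) 2).ne', Real.log_inv]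
          congr 1
          have e7 := sz_six (fv v) a b
          rw [f1, max_self] at e7
          rw [← e7, Real.log_pow]
          push_cast
          ring
        rw [e6] at hres
        linarith
    · rw [Real.log_div (by positivity) h2.ne', Real.log_pow]
      push_cast
      linarith

theorem disc_le (v : Pr K) {z : K} (hz : fv v z < 1) : fv v z ≤ (Nv v)⁻¹ := by
  have hN := Nv_one_lt v
  have hN0 := Nv_pos v
  rcases eq_or_ne z 0 with rfl | hz0
  · rw [map_zero]
    positivity
  · obtain ⟨m, hm⟩ := fv_zpow v hz0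
    rw [hm] at hz ⊢
    have h1 : m < 0 := by
      by_contra hcon
      push Not at hcon
      have := one_le_zpow₀ hN.le hcon
      linarith
    rw [← zpow_neg_one]
    exact zpow_le_zpow_right₀ hN.le (by omega)

/-- a step, from above -/
theorem up_step {a b x : K} (ha : a ≠ 0) (hb : b ≠ 0) (hD : dl a b ≠ 0) (hG : pG a b x ≠ 0) :
    Sa (Lam a b (pF a b x / pG a b x)) ≤
      4 * Sa (Lam a b x) - bt a b x + Module.finrank ℚ K * Real.log 12 := by
  have e1 : Sa (Lam a b (pF a b x / pG a b x)) =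
      Sa (Lam a b (pF a b x / pG a b x)) + Sa (fun w => Real.log (w (pG a b x))) := by
    rw [Sa_log hG, add_zero]
  have hs1 : (Function.support fun v : Pr K => Lam a b (pF a b x / pG a b x) (fv v)).Finite :=
    Fs_Lam ha hb (pF a b x / pG a b x)
  have hs2 : (Function.support fun v : Pr K => Real.log (fv v (pG a b x))).Finite := Fs_log hG
  have hs3 : (Function.support fun v : Pr K => Lam a b x (fv v)).Finite := Fs_Lam ha hb x
  have hs5 := Fs_bt a b x
  have e2 : Sa (Lam a b (pF a b x / pG a b x)) + Sa (fun w => Real.log (w (pG a b x))) =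
      Sm (fun w => Lam a b (pF a b x / pG a b x) w.1 + Real.log (w.1 (pG a b x)))
        (fun v => Lam a b (pF a b x / pG a b x) (fv v) + Real.log (fv v (pG a b x))) := by
    rw [Sm_add hs1 hs2]
    rfl
  have e3 : 4 * Sa (Lam a b x) - bt a b x =
      Sm (fun w => 4 * Lam a b x w.1 - 0)
        (fun v => 4 * Lam a b x (fv v) - btf a b x v) := by
    rw [Sm_sub (supp_mul 4 hs3) hs5, Sm_mul, Sm_bt]
    rfl
  have hM : ∀ w : AbsoluteValue K ℝ, 0 < max (w x) (sz w a b) := fun w =>
    lt_max_of_lt_right (sz_pos ha)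
  have hR : ∀ w : AbsoluteValue K ℝ, 0 < max (w (pF a b x)) (sz w a b * w (pG a b x)) := fun w =>
    lt_max_of_lt_right (mul_pos (sz_pos ha) (w.pos hG))
  have main := Sm_le_of (supp_add hs1 hs2) (supp_sub (supp_mul 4 hs3) hs5) (Real.log 12) (N := 1)
    (f := fun w => Lam a b (pF a b x / pG a b x) w.1 + Real.log (w.1 (pG a b x)))
    (f' := fun w => 4 * Lam a b x w.1 - 0) one_ne_zero ?_ ?_
  · rw [e1, e2, e3]
    simpa using main
  · intro w
    show Real.log (max (w.1 (pF a b x / pG a b x)) (sz w.1 a b)) + Real.log (w.1 (pG a b x)) ≤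
      4 * Real.log (max (w.1 x) (sz w.1 a b)) - 0 + Real.log 12
    rw [ptw ha hG]
    have h1 := up_arch (w := w.1) (fun n => (inf_nat w n).le) (x := x) (sz_pos (b := b) ha)
      (le_sz_sq w.1 a b) (le_sz_cube w.1 a b)
    have h4 := Real.log_le_log (hR w.1) h1
    rw [Real.log_mul (by norm_num) (pow_pos (hM w.1) 4).ne', Real.log_pow] at h4
    push_cast at h4
    linarith
  · intro v
    show Real.log (max (fv v (pF a b x / pG a b x)) (sz (fv v) a b)) +
      Real.log (fv v (pG a b x)) ≤ 4 * Real.log (max (fv v x) (sz (fv v) a b)) -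
      btf a b x v - Real.log (fv v ((1 : ℕ) : K))
    rw [ptw ha hG, Nat.cast_one, map_one, Real.log_one, sub_zero]
    by_cases hc : Sp (jj a b) v ∧ ¬ Good (fv v) a b x
    · have e5 : btf a b x v = Real.log (Nv v) := by
        unfold btf
        exact if_pos hc
      obtain ⟨hsp, hgood⟩ := hc
      obtain ⟨f1, f2⟩ := sp_facts hD hsp
      have hN0 := Nv_pos v
      have h1 := bad_up (fv_Na v) hsp.1 ha hb f1 (inv_pos.2 hN0)
        (inv_lt_one_of_one_lt₀ (Nv_one_lt v)) (fun z hz => disc_le v hz) f2 hgood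
      have h4 := Real.log_le_log (hR (fv v)) h1
      rw [Real.log_mul (inv_pos.2 hN0).ne' (pow_pos (hM (fv v)) 4).ne', Real.log_pow,
        Real.log_inv] at h4
      push_cast at h4
      rw [e5]
      linarith
    · have e5 : btf a b x v = 0 := by
        unfold btf
        exact if_neg hc
      have h1 := up_na (w := fv v) (fv_Na v) (x := x) (sz_pos (b := b) ha)
        (le_sz_sq (fv v) a b) (le_sz_cube (fv v) a b)
      have h4 := Real.log_le_log (hR (fv v)) h1
      rw [Real.log_pow] at h4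
      push_cast at h4
      rw [e5]
      linarith

end Num

section Pts

variable {K : Type} [Field K] [NumberField K] [DecidableEq K]

theorem sht_le {a b x y : K} (ha : a ≠ 0) (hb : b ≠ 0)
    (h : (sw a b).toAffine.Nonsingular x y) :
    sht (Affine.Point.some x y h : SPt a b) ≤
      Sa (Lam a b x) + Sa (fun w => Real.log (max (sz w a b)⁻¹ 1)) := by
  rw [Pool.Agent.Y733.LS.sht_some h]
  have hs1 : (Function.support fun v : Pr K => Lam a b x (fv v)).Finite := Fs_Lam ha hb x
  have hs2 : (Function.support fun v : Pr K =>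
      Real.log (max (sz (fv v) a b)⁻¹ 1)).Finite := by
    refine (ne_sets ha hb 0).subset ?_
    intro v hv
    rw [Function.mem_support] at hv
    by_contra hcon
    simp only [Set.mem_ofPred_eq, not_or, not_not, not_lt] at hcon
    obtain ⟨h1, h2, h3⟩ := hcon
    apply hv
    rw [sz_one h1 h2, inv_one, max_self, Real.log_one]
  have hs3 : (Function.support fun v : Pr K => Real.log (max (fv v x) 1)).Finite := Fs_ht x
  unfold Sa
  rw [← Sm_add hs1 hs2]
  have key : ∀ w : AbsoluteValue K ℝ, Real.log (max (w x) 1) ≤ Lam a b x w +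
      Real.log (max (sz w a b)⁻¹ 1) := by
    intro w
    have hs : 0 < sz w a b := sz_pos ha
    have h0 : 0 < max (w x) (sz w a b) := lt_max_of_lt_right hs
    have h1 : 0 < max (w x) 1 := lt_max_of_lt_right one_pos
    have h2 : 0 < max (sz w a b)⁻¹ 1 := lt_max_of_lt_right one_pos
    have h3 : max (w x) 1 ≤ max (w x) (sz w a b) * max (sz w a b)⁻¹ 1 := by
      apply max_le
      · calc w x ≤ max (w x) (sz w a b) := le_max_left _ _
          _ = max (w x) (sz w a b) * 1 := (mul_one _).symm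
          _ ≤ _ := mul_le_mul_of_nonneg_left (le_max_right _ _) h0.le
      · calc 1 = sz w a b * (sz w a b)⁻¹ := (mul_inv_cancel₀ hs.ne').symm
          _ ≤ _ := mul_le_mul (le_max_right _ _) (le_max_left _ _) (inv_pos.2 hs).le h0.le
    have h4 := Real.log_le_log h1 h3
    rw [Real.log_mul h0.ne' h2.ne'] at h4
    exact h4
  exact Sm_mono hs3 (supp_add hs1 hs2) (fun w => key w.1) (fun v => key (fv v))

theorem seq_spec {a b : K} {P : SPt a b} (hP : ∀ k : ℕ, (2 ^ k : ℕ) • P ≠ 0) :
    ∃ (x y : ℕ → K) (h : ∀ k, (sw a b).toAffine.Nonsingular (x k) (y k)),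
      (∀ k, (2 ^ k : ℕ) • P = Affine.Point.some (x k) (y k) (h k)) ∧ (∀ k, pG a b (x k) ≠ 0) ∧
      (∀ k, x (k + 1) = pF a b (x k) / pG a b (x k)) := by
  have hex : ∀ k : ℕ, ∃ (x y : K) (h : (sw a b).toAffine.Nonsingular x y),
      (2 ^ k : ℕ) • P = Affine.Point.some x y h := fun k => exists_coord _ (hP k)
  choose x y h hxy using hex
  have hy : ∀ k, y k ≠ 0 := by
    intro k h0
    apply hP (k + 1)
    rw [pow_succ, mul_comm, mul_smul, hxy k]
    exact dup_zero (h k) h0
  have hG : ∀ k, pG a b (x k) ≠ 0 := fun k => (dup_some (h k) (hy k)).1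
  refine ⟨x, y, h, hxy, hG, ?_⟩
  intro k
  obtain ⟨_, y', h', e⟩ := dup_some (h k) (hy k)
  have e1 : (2 ^ (k + 1) : ℕ) • P = Affine.Point.some _ y' h' := by
    rw [pow_succ, mul_comm, mul_smul, hxy k, e]
  rw [hxy (k + 1)] at e1
  injection e1

/-- **the canonical height from below** -/
theorem chat_low {a b : K} (ha : a ≠ 0) (hb : b ≠ 0) (hD : dl a b ≠ 0) {x y : K}
    (h : (sw a b).toAffine.Nonsingular x y)
    (hP : ∀ k : ℕ, (2 ^ k : ℕ) • (Affine.Point.some x y h : SPt a b) ≠ 0) :
    Sa (Lam a b x) - Sm (lossi a b) (lossf a b) / 3 - bt a b x / 4 ≤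
      chat (Affine.Point.some x y h : SPt a b) := by
  obtain ⟨xs, ys, hs, hxy, hG, hx⟩ := seq_spec hP
  have hx0 : xs 0 = x := by
    have := hxy 0
    rw [pow_zero, one_smul] at this
    injection this with h1 h2
    exact h1.symm
  set P : SPt a b := Affine.Point.some x y h with hPd
  set L := Sm (lossi a b) (lossf a b) with hL
  set D := Sa (fun w : AbsoluteValue K ℝ => Real.log (max (sz w a b) 1)) with hDD
  set A := Sa (Lam a b (xs 1)) - L / 3 with hA
  have hlow : ∀ k : ℕ, A / 4 + (L / 3 - D) / 4 ^ (k + 1) ≤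
      sht ((2 ^ (k + 1) : ℕ) • P) / 4 ^ (k + 1) := by
    intro k
    have h1 := tele ha hb hD hG hx k
    have h2 := sht_ge ha hb (hs (k + 1))
    rw [← hxy (k + 1), ← hDD] at h2
    rw [← hL, ← hA] at h1
    have h4 : (0 : ℝ) < 4 ^ (k + 1) := by positivity
    rw [← sub_nonneg]
    have e : sht ((2 ^ (k + 1) : ℕ) • P) / 4 ^ (k + 1) - (A / 4 + (L / 3 - D) / 4 ^ (k + 1)) =
        (sht ((2 ^ (k + 1) : ℕ) • P) - 4 ^ k * A - L / 3 + D) / 4 ^ (k + 1) := by
      rw [pow_succ]
      field_simp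
      ring
    rw [e]
    apply div_nonneg _ h4.le
    linarith
  have hlim := ((tendsto_add_atTop_iff_nat 1).2 ((chat_spec hD).1 P))
  have hlim2 : Tendsto (fun k : ℕ => A / 4 + (L / 3 - D) / 4 ^ (k + 1)) atTop (𝓝 (A / 4 + 0)) := by
    apply Tendsto.add tendsto_const_nhds
    have h5 : Tendsto (fun k : ℕ => (4 : ℝ) ^ (k + 1)) atTop atTop :=
      (tendsto_add_atTop_iff_nat 1).2 (tendsto_pow_atTop_atTop_of_one_lt (by norm_num))
    exact h5.const_div_atTop _
  have hfin : A / 4 + 0 ≤ chat P := le_of_tendsto_of_tendsto' hlim2 hlim hlow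
  have h6 := first_step ha hb hD (hG 0)
  rw [← hx 0, hx0, ← hL, zero_add] at h6
  rw [hA] at hfin
  linarith

/-- **the canonical height from above** -/
theorem chat_up {a b : K} (ha : a ≠ 0) (hb : b ≠ 0) (hD : dl a b ≠ 0) {x y : K}
    (h : (sw a b).toAffine.Nonsingular x y)
    (hP : ∀ k : ℕ, (2 ^ k : ℕ) • (Affine.Point.some x y h : SPt a b) ≠ 0) :
    chat (Affine.Point.some x y h : SPt a b) ≤
      Sa (Lam a b x) - bt a b x / 4 + Module.finrank ℚ K * Real.log 12 := by
  obtain ⟨xs, ys, hs, hxy, hG, hx⟩ := seq_spec hP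
  have hx0 : xs 0 = x := by
    have := hxy 0
    rw [pow_zero, one_smul] at this
    injection this with h1 h2
    exact h1.symm
  set P : SPt a b := Affine.Point.some x y h with hPd
  set κ : ℝ := Module.finrank ℚ K * Real.log 12 with hκ
  have hκ0 : 0 ≤ κ := mul_nonneg (Nat.cast_nonneg _) (Real.log_nonneg (by norm_num))
  set D := Sa (fun w : AbsoluteValue K ℝ => Real.log (max (sz w a b)⁻¹ 1)) with hDD
  set A := Sa (Lam a b (xs 1)) + κ / 3 with hA
  have hstep : ∀ k : ℕ, Sa (Lam a b (xs (k + 1))) + κ / 3 ≤ (4 : ℝ) ^ k * A := by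
    intro k
    induction k with
    | zero => simp [hA]
    | succ k ih =>
      have h1 := up_step ha hb hD (hG (k + 1))
      have h2 := bt_nonneg a b (xs (k + 1))
      rw [← hx (k + 1), ← hκ] at h1
      rw [pow_succ]
      linarith
  have hup : ∀ k : ℕ, sht ((2 ^ (k + 1) : ℕ) • P) / 4 ^ (k + 1) ≤
      A / 4 + (D - κ / 3) / 4 ^ (k + 1) := by
    intro k
    have h1 := hstep k
    have h2 := sht_le ha hb (hs (k + 1))
    rw [← hxy (k + 1), ← hDD] at h2
    have h4 : (0 : ℝ) < 4 ^ (k + 1) := by positivity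
    rw [← sub_nonneg]
    have e : A / 4 + (D - κ / 3) / 4 ^ (k + 1) - sht ((2 ^ (k + 1) : ℕ) • P) / 4 ^ (k + 1) =
        (4 ^ k * A + D - κ / 3 - sht ((2 ^ (k + 1) : ℕ) • P)) / 4 ^ (k + 1) := by
      rw [pow_succ]
      field_simp
      ring
    rw [e]
    apply div_nonneg _ h4.le
    linarith
  have hlim := ((tendsto_add_atTop_iff_nat 1).2 ((chat_spec hD).1 P))
  have hlim2 : Tendsto (fun k : ℕ => A / 4 + (D - κ / 3) / 4 ^ (k + 1)) atTop (𝓝 (A / 4 + 0)) := by
    apply Tendsto.add tendsto_const_nhds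
    have h5 : Tendsto (fun k : ℕ => (4 : ℝ) ^ (k + 1)) atTop atTop :=
      (tendsto_add_atTop_iff_nat 1).2 (tendsto_pow_atTop_atTop_of_one_lt (by norm_num))
    exact h5.const_div_atTop _
  have hfin : chat P ≤ A / 4 + 0 := le_of_tendsto_of_tendsto' hlim hlim2 hup
  have h6 := up_step ha hb hD (hG 0)
  rw [← hx 0, hx0, ← hκ, zero_add] at h6
  rw [hA] at hfin
  linarith

theorem chat_tors {a b : K} (hD : dl a b ≠ 0) {P : SPt a b}
    (hP : ¬ ∀ k : ℕ, (2 ^ k : ℕ) • P ≠ 0) : chat P = 0 := by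
  push Not at hP
  obtain ⟨k, hk⟩ := hP
  apply tors_zero (a := a) (b := b) hD
  rw [isOfFinAddOrder_iff_nsmul_eq_zero]
  exact ⟨2 ^ k, by positivity, hk⟩

end Pts

end Pool.Agent.T9h57.LS
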