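import Mathlib
import Pool.Agent.T9h57.LS.Up

/-!
# The minimal discriminant
-/

set_option autoImplicit false
set_option linter.unusedSectionVars false

namespace Pool.Agent.T9h57.LS

open NumberField IsDedekindDomain Finset Pool.Agent.H691R3 Pool.Agent.W223.AK Pool.Agent.Y733.UD
open Pool.Agent.TH942 Pool.Agent.TH910.LS Pool.Agent.Y733.LS

variable {K : Type} [Field K] [NumberField K]

/-- the local minimal discriminant of `y² = x³ + a x + b`, in logarithmic form -/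
noncomputable def mdv (a b : K) (v : Pr K) : ℝ :=
  sInf {r | ∃ u : K, u ≠ 0 ∧ fv v (u ^ 4 * a) ≤ 1 ∧ fv v (u ^ 6 * b) ≤ 1 ∧
    r = -Real.log (fv v (u ^ 12 * dl a b))}

/-- the sum over all primes -/
noncomputable def md (a b : K) : ℝ := ∑ᶠ v : Pr K, mdv a b v

theorem dl_int {a b : K} (v : Pr K) {u : K} (h1 : fv v (u ^ 4 * a) ≤ 1)
    (h2 : fv v (u ^ 6 * b) ≤ 1) : fv v (u ^ 12 * dl a b) ≤ 1 := by
  have hn := fv_Na v
  have e : u ^ 12 * dl a b = 4 * (u ^ 4 * a) ^ 3 + 27 * (u ^ 6 * b) ^ 2 := by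
    unfold dl
    ring
  rw [e]
  have p1 : fv v ((u ^ 4 * a) ^ 3) ≤ 1 := by
    rw [map_pow]
    exact pow_le_one₀ ((fv v).nonneg _) h1
  have p2 : fv v ((u ^ 6 * b) ^ 2) ≤ 1 := by
    rw [map_pow]
    exact pow_le_one₀ ((fv v).nonneg _) h2
  apply hn.le_add
  · have := Na.le_mul_of (w := fv v) (z := (4 : K)) (hn.ofNat 4) p1
    simpa using this
  · have := Na.le_mul_of (w := fv v) (z := (27 : K)) (hn.ofNat 27) p2
    simpa using this

theorem mem_nonneg {a b : K} (v : Pr K) {u : K} (h1 : fv v (u ^ 4 * a) ≤ 1)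
    (h2 : fv v (u ^ 6 * b) ≤ 1) : 0 ≤ -Real.log (fv v (u ^ 12 * dl a b)) := by
  have := Real.log_nonpos ((fv v).nonneg _) (dl_int v h1 h2)
  linarith

theorem mdv_le {a b : K} (v : Pr K) {u : K} (hu : u ≠ 0) (h1 : fv v (u ^ 4 * a) ≤ 1)
    (h2 : fv v (u ^ 6 * b) ≤ 1) : mdv a b v ≤ -Real.log (fv v (u ^ 12 * dl a b)) := by
  apply csInf_le
  · refine ⟨0, ?_⟩
    rintro r ⟨u', _, h1', h2', rfl⟩
    exact mem_nonneg v h1' h2'
  · exact ⟨u, hu, h1, h2, rfl⟩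

theorem Nv_zpow_le (v : Pr K) {i j : ℤ} : (Nv v) ^ i ≤ (Nv v) ^ j ↔ i ≤ j :=
  zpow_le_zpow_iff_right₀ (Nv_one_lt v)

theorem Nv_zpow_le_one (v : Pr K) {i : ℤ} : (Nv v) ^ i ≤ 1 ↔ i ≤ 0 := by
  rw [← Nv_zpow_le v, zpow_zero]

theorem mem_ex {a b : K} (ha : a ≠ 0) (hb : b ≠ 0) (v : Pr K) :
    ∃ u : K, u ≠ 0 ∧ fv v (u ^ 4 * a) ≤ 1 ∧ fv v (u ^ 6 * b) ≤ 1 := by
  obtain ⟨α, hα⟩ := fv_zpow v ha
  obtain ⟨β, hβ⟩ := fv_zpow v hb
  obtain ⟨u, hu⟩ := exists_fv (K := K) v (-(|α| + |β|))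
  have hN := Nv_pos v
  refine ⟨u, ?_, ?_, ?_⟩
  · rintro rfl
    rw [map_zero] at hu
    exact (zpow_pos hN _).ne hu
  · rw [map_mul, map_pow, hu, hα, ← zpow_natCast, ← zpow_mul, ← zpow_add₀ hN.ne',
      Nv_zpow_le_one]
    have h1 := le_abs_self α
    have h2 := abs_nonneg β
    have h3 := abs_nonneg α
    push_cast
    linarith
  · rw [map_mul, map_pow, hu, hβ, ← zpow_natCast, ← zpow_mul, ← zpow_add₀ hN.ne',
      Nv_zpow_le_one]
    have h1 := le_abs_self β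
    have h2 := abs_nonneg β
    have h3 := abs_nonneg α
    push_cast
    linarith

theorem le_mdv {a b : K} (ha : a ≠ 0) (hb : b ≠ 0) (v : Pr K) {r : ℝ}
    (h : ∀ u : K, u ≠ 0 → fv v (u ^ 4 * a) ≤ 1 → fv v (u ^ 6 * b) ≤ 1 →
      r ≤ -Real.log (fv v (u ^ 12 * dl a b))) : r ≤ mdv a b v := by
  obtain ⟨u, h1, h2, h3⟩ := mem_ex ha hb v
  unfold mdv
  refine le_csInf ⟨-Real.log (fv v (u ^ 12 * dl a b)), u, h1, h2, h3, rfl⟩ ?_
  rintro r' ⟨u', h1', h2', h3', rfl⟩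
  exact h u' h1' h2' h3'

theorem mdv_nonneg {a b : K} (ha : a ≠ 0) (hb : b ≠ 0) (v : Pr K) : 0 ≤ mdv a b v :=
  le_mdv ha hb v fun _ _ h2 h3 => mem_nonneg v h2 h3

theorem Fs_md {a b : K} (ha : a ≠ 0) (hb : b ≠ 0) (hD : dl a b ≠ 0) :
    (Function.support (mdv a b)).Finite := by
  refine ((ne_sets ha hb 0).union (fv_support_finite hD)).subset ?_
  intro v hv
  rw [Function.mem_support] at hv
  by_contra hcon
  simp only [Set.mem_union, Set.mem_ofPred_eq, not_or, not_not, not_lt] at hcon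
  obtain ⟨⟨h1, h2, _⟩, h3⟩ := hcon
  apply hv
  apply le_antisymm _ (mdv_nonneg ha hb v)
  refine (mdv_le v (u := 1) one_ne_zero (by simp [h1]) (by simp [h2])).trans (le_of_eq ?_)
  simp [h3]

theorem md_nonneg {a b : K} (ha : a ≠ 0) (hb : b ≠ 0) : 0 ≤ md a b :=
  finsum_nonneg (mdv_nonneg ha hb)

/-- upper bound: all exponents -/
theorem mdv_up {a b f z : K} (ha : a ≠ 0) (hb : b ≠ 0) (hz : z ≠ 0)
    (hc : b / a = f * z ^ 2) (v : Pr K) {p q r e : ℤ} (hp : fv v (tt a b) = (Nv v) ^ p)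
    (hq : fv v f = (Nv v) ^ q) (hr : fv v (4 * tt a b + 27) = (Nv v) ^ r)
    (h4 : 2 * q + p ≤ 4 * e) (h6 : 3 * q + p ≤ 6 * e) :
    mdv a b v ≤ ((12 * e - 6 * q - 2 * p - r : ℤ) : ℝ) * Real.log (Nv v) := by
  have hN := Nv_pos v
  obtain ⟨s, hs⟩ := fv_zpow v hz
  obtain ⟨u, hu⟩ := exists_fv (K := K) v (-(e + s))
  have hu0 : u ≠ 0 := by
    rintro rfl
    rw [map_zero] at hu
    exact (zpow_pos hN _).ne hu
  have hcv : fv v (b / a) = (Nv v) ^ (q + 2 * s) := by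
    rw [hc, map_mul, map_pow, hq, hs, ← zpow_natCast, ← zpow_mul, ← zpow_add₀ hN.ne']
    congr 1
    push_cast
    ring
  have ea : fv v a = (Nv v) ^ (2 * (q + 2 * s) + p) := by
    rw [a_eq ha hb, map_mul, map_pow, hp, hcv, ← zpow_natCast, ← zpow_mul, ← zpow_add₀ hN.ne']
    congr 1
    push_cast
    ring
  have eb : fv v b = (Nv v) ^ (3 * (q + 2 * s) + p) := by
    rw [b_eq ha hb, map_mul, map_pow, hp, hcv, ← zpow_natCast, ← zpow_mul, ← zpow_add₀ hN.ne']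
    congr 1
    push_cast
    ring
  have ed : fv v (dl a b) = (Nv v) ^ (6 * (q + 2 * s) + 2 * p + r) := by
    have h1 : dl a b = b ^ 2 * (4 * tt a b + 27) := by
      rw [rr_eq hb]
      field_simp
    rw [h1, map_mul, map_pow, eb, hr, ← zpow_natCast, ← zpow_mul, ← zpow_add₀ hN.ne']
    congr 1
    push_cast
    ring
  refine (mdv_le v hu0 ?_ ?_).trans (le_of_eq ?_)
  · rw [map_mul, map_pow, hu, ea, ← zpow_natCast, ← zpow_mul, ← zpow_add₀ hN.ne',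
      Nv_zpow_le_one]
    push_cast
    linarith
  · rw [map_mul, map_pow, hu, eb, ← zpow_natCast, ← zpow_mul, ← zpow_add₀ hN.ne',
      Nv_zpow_le_one]
    push_cast
    linarith
  · rw [map_mul, map_pow, hu, ed, ← zpow_natCast, ← zpow_mul, ← zpow_add₀ hN.ne',
      Real.log_zpow]
    push_cast
    ring

/-- lower bound: all exponents -/
theorem mdv_low {a b : K} (ha : a ≠ 0) (hb : b ≠ 0) (v : Pr K) {α β r M : ℤ}
    (hα : fv v a = (Nv v) ^ α) (hβ : fv v b = (Nv v) ^ β)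
    (hr : fv v (4 * tt a b + 27) = (Nv v) ^ r)
    (h : ∀ g : ℤ, 4 * g + α ≤ 0 → 6 * g + β ≤ 0 → M ≤ -12 * g - 2 * β - r) :
    (M : ℝ) * Real.log (Nv v) ≤ mdv a b v := by
  have hN := Nv_pos v
  have hl := log_Nv_pos v
  apply le_mdv ha hb
  intro u hu h1 h2
  obtain ⟨g, hg⟩ := fv_zpow v hu
  have ed : fv v (dl a b) = (Nv v) ^ (2 * β + r) := by
    have h1 : dl a b = b ^ 2 * (4 * tt a b + 27) := by
      rw [rr_eq hb]
      field_simp
    rw [h1, map_mul, map_pow, hβ, hr, ← zpow_natCast, ← zpow_mul, ← zpow_add₀ hN.ne']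
    congr 1
    push_cast
    ring
  rw [map_mul, map_pow, hg, hα, ← zpow_natCast, ← zpow_mul, ← zpow_add₀ hN.ne',
      Nv_zpow_le_one] at h1
  rw [map_mul, map_pow, hg, hβ, ← zpow_natCast, ← zpow_mul, ← zpow_add₀ hN.ne',
      Nv_zpow_le_one] at h2
  have h3 := h g (by push_cast at h1; linarith) (by push_cast at h2; linarith)
  rw [map_mul, map_pow, hg, ed, ← zpow_natCast, ← zpow_mul, ← zpow_add₀ hN.ne', Real.log_zpow]
  have h4 : (M : ℝ) ≤ ((-12 * g - 2 * β - r : ℤ) : ℝ) := by exact_mod_cast h3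
  push_cast at h4 ⊢
  nlinarith

end Pool.Agent.T9h57.LS
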