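import Mathlib
import Pool.Agent.T9h57.LS.In
import Pool.Agent.T9h57.LS.Md

/-!
# The local inequalities
-/

set_option autoImplicit false
set_option linter.unusedSectionVars false

namespace Pool.Agent.T9h57.LS

open NumberField IsDedekindDomain Finset Pool.Agent.H691R3 Pool.Agent.W223.AK Pool.Agent.Y733.UD
open Pool.Agent.TH942 Pool.Agent.TH910.LS Pool.Agent.Y733.LS

variable {K : Type} [Field K] [NumberField K]

theorem Nv_inj (v : Pr K) {i j : ℤ} (h : (Nv v) ^ i = (Nv v) ^ j) : i = j :=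
  zpow_right_injective₀ (Nv_pos v) (Nv_one_lt v).ne' h

theorem rel4 (v : Pr K) {A B C D : K} {i j k l : ℤ} (hA : fv v A = (Nv v) ^ i)
    (hB : fv v B = (Nv v) ^ j) (hC : fv v C = (Nv v) ^ k) (hD : fv v D = (Nv v) ^ l)
    (h : A = B + C + D) : i ≤ j ∨ i ≤ k ∨ i ≤ l := by
  by_contra hcon
  push Not at hcon
  obtain ⟨h1, h2, h3⟩ := hcon
  have hN := Nv_one_lt v
  have key : fv v A < (Nv v) ^ i := by
    rw [h]
    apply (fv_Na v).lt_add
    · apply (fv_Na v).lt_add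
      · rw [hB]
        exact zpow_lt_zpow_right₀ hN h1
      · rw [hC]
        exact zpow_lt_zpow_right₀ hN h2
    · rw [hD]
      exact zpow_lt_zpow_right₀ hN h3
  rw [hA] at key
  exact lt_irrefl _ key

theorem rel3 (v : Pr K) {A B C : K} {i j k : ℤ} (hA : fv v A = (Nv v) ^ i)
    (hB : fv v B = (Nv v) ^ j) (hC : fv v C = (Nv v) ^ k)
    (h : A = B + C) : i ≤ j ∨ i ≤ k := by
  by_contra hcon
  push Not at hcon
  obtain ⟨h1, h2⟩ := hcon
  have hN := Nv_one_lt v
  have key : fv v A < (Nv v) ^ i := by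
    rw [h]
    apply (fv_Na v).lt_add
    · rw [hB]
      exact zpow_lt_zpow_right₀ hN h1
    · rw [hC]
      exact zpow_lt_zpow_right₀ hN h2
  rw [hA] at key
  exact lt_irrefl _ key

theorem zmax (v : Pr K) (i j : ℤ) : max ((Nv v) ^ i) ((Nv v) ^ j) = (Nv v) ^ (max i j) := by
  rcases le_total i j with h | h
  · rw [max_eq_right h, max_eq_right ((Nv_zpow_le v).2 h)]
  · rw [max_eq_left h, max_eq_left ((Nv_zpow_le v).2 h)]

theorem plog_int (v : Pr K) {z : K} {i : ℤ} (h : fv v z = (Nv v) ^ i) :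
    Real.log (max (fv v z) 1) = ((max i 0 : ℤ) : ℝ) * Real.log (Nv v) := by
  rw [h, ← zpow_zero (Nv v), zmax, Real.log_zpow]

theorem inv_int (v : Pr K) {z : K} {i : ℤ} (h : fv v z = (Nv v) ^ i) :
    fv v z⁻¹ = (Nv v) ^ (-i) := by
  rw [map_inv₀, h, zpow_neg]

theorem six_Lam (v : Pr K) {t X : K} (ht : t ≠ 0) {m p : ℤ} (hm : fv v X = (Nv v) ^ m)
    (hp : fv v t = (Nv v) ^ p) :
    6 * Lam t t X (fv v) = ((max (6 * m) (max (3 * p) (2 * p)) : ℤ) : ℝ) * Real.log (Nv v) := by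
  have hN := Nv_pos v
  have hs : 0 < sz (fv v) t t := sz_pos ht
  have hM : 0 < max (fv v X) (sz (fv v) t t) := lt_max_of_lt_right hs
  have e1 : 6 * Lam t t X (fv v) = Real.log (max (fv v X) (sz (fv v) t t) ^ 6) := by
    unfold Lam
    rw [Real.log_pow]
    push_cast
    ring
  have e2 : max (fv v X) (sz (fv v) t t) ^ 6 = max (fv v X ^ 6) (sz (fv v) t t ^ 6) := by
    rcases le_total (fv v X) (sz (fv v) t t) with h | h
    · rw [max_eq_right h, max_eq_right (pow_le_pow_left₀ ((fv v).nonneg _) h _)]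
    · rw [max_eq_left h, max_eq_left (pow_le_pow_left₀ hs.le h _)]
  have e3 : ∀ (i : ℤ) (k : ℕ), ((Nv v) ^ i) ^ k = (Nv v) ^ ((k : ℤ) * i) := by
    intro i k
    rw [← zpow_natCast, ← zpow_mul]
    congr 1
    ring
  rw [e1, e2, sz_six, hm, hp, e3, e3, e3]
  push_cast
  rw [zmax, zmax, Real.log_zpow]
  push_cast
  rfl

theorem fv_two_three (v : Pr K) (h2 : fv v 2 = 1) (h3 : fv v 3 = 1) :
    fv v (4 : K) = 1 ∧ fv v (27 : K) = 1 ∧ fv v (8 : K) = 1 := by
  refine ⟨?_, ?_, ?_⟩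
  · have : (4 : K) = 2 ^ 2 := by norm_num
    rw [this, map_pow, h2]
    norm_num
  · have : (27 : K) = 3 ^ 3 := by norm_num
    rw [this, map_pow, h3]
    norm_num
  · have : (8 : K) = 2 ^ 3 := by norm_num
    rw [this, map_pow, h2]
    norm_num

/-- at the divisors of `6` -/
theorem six_int (v : Pr K) (h : ¬ (fv v (2 : K) = 1 ∧ fv v (3 : K) = 1)) :
    ∃ σ : ℤ, 1 ≤ σ ∧ -Real.log (fv v ((6 : ℕ) : K)) = (σ : ℝ) * Real.log (Nv v) := by
  have hn := fv_Na v
  have h6 : (6 : K) ≠ 0 := by norm_num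
  obtain ⟨s, hs⟩ := fv_zpow v h6
  have hlt : fv v (6 : K) < 1 := by
    have e : (6 : K) = 2 * 3 := by norm_num
    have h2 : fv v (2 : K) ≤ 1 := hn.ofNat 2
    have h3 : fv v (3 : K) ≤ 1 := hn.ofNat 3
    have h2' := (fv v).nonneg (2 : K)
    have h3' := (fv v).nonneg (3 : K)
    rw [e, map_mul]
    rcases h2.lt_or_eq with h4 | h4
    · nlinarith
    · rcases h3.lt_or_eq with h5 | h5
      · nlinarith
      · exact absurd ⟨h4, h5⟩ h
  refine ⟨-s, ?_, ?_⟩
  · rw [hs, ← zpow_zero (Nv v)] at hlt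
    have := (zpow_lt_zpow_iff_right₀ (Nv_one_lt v)).1 hlt
    omega
  · rw [Nat.cast_ofNat, hs, Real.log_zpow]
    push_cast
    ring

theorem log6_nonneg (v : Pr K) : 0 ≤ -Real.log (fv v ((6 : ℕ) : K)) := by
  have := fv_nat_log (K := K) v 6
  linarith

/-- `f` -/
def ff (t X : K) : K := X ^ 3 + t * X + t

open Classical in
/-- simple poles -/
noncomputable def spf (z : K) (v : Pr K) : ℝ := if Sp z v then Real.log (Nv v) else 0

theorem spf_int (z : K) (v : Pr K) (i : ℤ) (hi : fv v z = (Nv v) ^ i) :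
    ∃ A : ℤ, ((A = 1 ∧ i = 1 ∧ fv v (2 : K) = 1 ∧ fv v (3 : K) = 1) ∨
      (A = 0 ∧ (fv v (2 : K) = 1 → fv v (3 : K) = 1 → i ≠ 1))) ∧
      spf z v = (A : ℝ) * Real.log (Nv v) := by
  classical
  by_cases h : Sp z v
  · refine ⟨1, Or.inl ⟨rfl, ?_, h.1, h.2.1⟩, ?_⟩
    · have h1 := h.2.2
      rw [hi] at h1
      apply Nv_inj v
      rw [h1, zpow_one]
    · unfold spf
      rw [if_pos h]
      push_cast
      ring
  · refine ⟨0, Or.inr ⟨rfl, ?_⟩, ?_⟩
    · intro h2 h3 h4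
      apply h
      refine ⟨h2, h3, ?_⟩
      rw [hi, h4, zpow_one]
    · unfold spf
      rw [if_neg h]
      push_cast
      ring

/-- **the main local inequality** -/
theorem fin_main {a b z X : K} (ha : a ≠ 0) (hb : b ≠ 0) (hD : dl a b ≠ 0) (hX : X ≠ 0)
    (hf : ff (tt a b) X ≠ 0) (hz : z ≠ 0) (hc : b / a = ff (tt a b) X * z ^ 2) (v : Pr K) :
    1 / 72 * mdv a b v + 7 / 8 * spf (tt a b) v + 17 / 36 * spf (tt a b)⁻¹ v +
      (1 / 3 * Real.log (fv v X) + 1 / 12 * Real.log (fv v (ff (tt a b) X))) ≤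
    Lam (tt a b) (tt a b) X (fv v) + 1 / 2 * Real.log (max (fv v (tt a b)) 1) +
      1 / 2 * Real.log (max (fv v (tt a b)⁻¹) 1) +
      1 / 72 * Real.log (max (fv v (4 * tt a b + 27)⁻¹) 1) -
      Real.log (fv v ((6 : ℕ) : K)) := by
  have ht := tt_ne ha hb
  have hrr := rr_ne hb hD
  set t := tt a b with htd
  set f := ff t X with hfd
  obtain ⟨m, hm⟩ := fv_zpow v hX
  obtain ⟨p, hp⟩ := fv_zpow v ht
  obtain ⟨q, hq⟩ := fv_zpow v hf
  obtain ⟨r, hr⟩ := fv_zpow v hrr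
  obtain ⟨e, he4, he6, he⟩ := exe p q
  have hN := Nv_pos v
  have hl := log_Nv_pos v
  have hmd := mdv_up ha hb hz hc v hp hq hr he4 he6
  have hLam := six_Lam v ht hm hp
  obtain ⟨A, hA, hA'⟩ := spf_int t v p hp
  obtain ⟨C, hC, hC'⟩ := spf_int t⁻¹ v (-p) (inv_int v hp)
  have e1 := plog_int v hp
  have e2 := plog_int v (inv_int v hp)
  have e3 := plog_int v (inv_int v hr)
  rw [hA', hC', e1, e2, e3, hm, hq, Real.log_zpow, Real.log_zpow]
  have h3m : fv v (X ^ 3) = (Nv v) ^ (3 * m) := by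
    rw [map_pow, hm, ← zpow_natCast, ← zpow_mul]
    congr 1
    push_cast
    ring
  have htX : fv v (t * X) = (Nv v) ^ (p + m) := by
    rw [map_mul, hm, hp, ← zpow_add₀ hN.ne']
  have hneg : ∀ {w : K} {i : ℤ}, fv v w = (Nv v) ^ i → fv v (-w) = (Nv v) ^ i := by
    intro w i h
    rw [map_neg_eq_map, h]
  have R1 := rel4 v hq h3m htX hp (by rw [hfd]; rfl)
  have hlogs : ∀ {x y : ℤ}, x ≤ y → (x : ℝ) * Real.log (Nv v) ≤ (y : ℝ) * Real.log (Nv v) := by
    intro x y h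
    exact mul_le_mul_of_nonneg_right (by exact_mod_cast h) hl.le
  by_cases h6 : fv v (2 : K) = 1 ∧ fv v (3 : K) = 1
  · obtain ⟨h2, h3⟩ := h6
    obtain ⟨f4, f27, _⟩ := fv_two_three v h2 h3
    have R2 := rel4 v h3m hq (hneg htX) (hneg hp) (by rw [hfd]; unfold ff; ring)
    have R3 := rel4 v htX hq (hneg h3m) (hneg hp) (by rw [hfd]; unfold ff; ring)
    have R4 := rel4 v hp hq (hneg h3m) (hneg htX) (by rw [hfd]; unfold ff; ring)
    have h4t : fv v (4 * t) = (Nv v) ^ p := by rw [map_mul, f4, one_mul, hp]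
    have h27 : fv v (27 : K) = (Nv v) ^ (0 : ℤ) := by rw [f27, zpow_zero]
    have Q1 := rel3 v hr h4t h27 rfl
    have Q2 := rel3 v h4t hr (hneg h27) (by ring)
    have Q3 := rel3 v h27 hr (hneg h4t) (by ring)
    have hA2 : (A = 1 ∧ p = 1) ∨ (A = 0 ∧ p ≠ 1) := by
      rcases hA with h | h
      · exact Or.inl ⟨h.1, h.2.1⟩
      · exact Or.inr ⟨h.1, h.2 h2 h3⟩
    have hC2 : (C = 1 ∧ p = -1) ∨ (C = 0 ∧ p ≠ -1) := by
      rcases hC with h | h
      · exact Or.inl ⟨h.1, by have := h.2.1; omega⟩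
      · exact Or.inr ⟨h.1, by have := h.2 h2 h3; omega⟩
    have key := int_gen R1 R2 R3 R4 Q1 Q2 Q3 he hA2 hC2
    have key2 := hlogs key
    have hs := log6_nonneg v
    clear_value t f
    clear key R1 R2 R3 R4 Q1 Q2 Q3 hlogs
    generalize max (6 * m) (max (3 * p) (2 * p)) = T at hLam key2
    generalize max p 0 = P1 at *
    generalize max (-p) 0 = P2 at *
    generalize max (-r) 0 = P3 at *
    push_cast at key2 hmd hLam ⊢
    generalize Real.log (fv v ((6 : ℕ) : K)) = l6 at *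
    generalize Real.log (Nv v) = l at *
    linarith
  · obtain ⟨σ, hσ, hσ'⟩ := six_int v h6
    have hA2 : A = 0 := by
      rcases hA with h | h
      · exact absurd ⟨h.2.2.1, h.2.2.2⟩ h6
      · exact h.1
    have hC2 : C = 0 := by
      rcases hC with h | h
      · exact absurd ⟨h.2.2.1, h.2.2.2⟩ h6
      · exact h.1
    subst hA2 hC2
    have key := int_six (r := r) R1 hσ he
    have key2 := hlogs key
    clear_value t f
    clear key R1 hlogs
    generalize max (6 * m) (max (3 * p) (2 * p)) = T at hLam key2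
    generalize max p 0 = P1 at *
    generalize max (-p) 0 = P2 at *
    generalize max (-r) 0 = P3 at *
    push_cast at key2 hmd hLam hσ' ⊢
    generalize Real.log (fv v (6 : K)) = l6 at *
    generalize Real.log (Nv v) = l at *
    linarith

/-- the discriminant of the curves with a point with `x = 0` -/
theorem fin_zero {a b z : K} (ha : a ≠ 0) (hb : b ≠ 0) (hD : dl a b ≠ 0)
    (hz : z ≠ 0) (hc : b / a = tt a b * z ^ 2) (v : Pr K) :
    mdv a b v + 6 * spf (tt a b) v + spf (tt a b)⁻¹ v ≤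
      9 * Real.log (max (fv v (tt a b)) 1) + 9 * Real.log (max (fv v (tt a b)⁻¹) 1) +
      Real.log (max (fv v (4 * tt a b + 27)⁻¹) 1) - 12 * Real.log (fv v ((6 : ℕ) : K)) := by
  have ht := tt_ne ha hb
  have hrr := rr_ne hb hD
  set t := tt a b with htd
  obtain ⟨p, hp⟩ := fv_zpow v ht
  obtain ⟨r, hr⟩ := fv_zpow v hrr
  obtain ⟨e, he4, he6, he⟩ := exe p p
  have hN := Nv_pos v
  have hl := log_Nv_pos v
  have hmd := mdv_up ha hb hz hc v hp hp hr he4 he6
  obtain ⟨A, hA, hA'⟩ := spf_int t v p hp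
  obtain ⟨C, hC, hC'⟩ := spf_int t⁻¹ v (-p) (inv_int v hp)
  have e1 := plog_int v hp
  have e2 := plog_int v (inv_int v hp)
  have e3 := plog_int v (inv_int v hr)
  rw [hA', hC', e1, e2, e3]
  have hneg : ∀ {w : K} {i : ℤ}, fv v w = (Nv v) ^ i → fv v (-w) = (Nv v) ^ i := by
    intro w i h
    rw [map_neg_eq_map, h]
  have hlogs : ∀ {x y : ℤ}, x ≤ y → (x : ℝ) * Real.log (Nv v) ≤ (y : ℝ) * Real.log (Nv v) := by
    intro x y h
    exact mul_le_mul_of_nonneg_right (by exact_mod_cast h) hl.le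
  by_cases h6 : fv v (2 : K) = 1 ∧ fv v (3 : K) = 1
  · obtain ⟨h2, h3⟩ := h6
    obtain ⟨f4, f27, _⟩ := fv_two_three v h2 h3
    have h4t : fv v (4 * t) = (Nv v) ^ p := by rw [map_mul, f4, one_mul, hp]
    have h27 : fv v (27 : K) = (Nv v) ^ (0 : ℤ) := by rw [f27, zpow_zero]
    have Q1 := rel3 v hr h4t h27 rfl
    have Q2 := rel3 v h4t hr (hneg h27) (by ring)
    have Q3 := rel3 v h27 hr (hneg h4t) (by ring)
    have hA2 : (A = 1 ∧ p = 1) ∨ (A = 0 ∧ p ≠ 1) := by
      rcases hA with h | h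
      · exact Or.inl ⟨h.1, h.2.1⟩
      · exact Or.inr ⟨h.1, h.2 h2 h3⟩
    have hC2 : (C = 1 ∧ p = -1) ∨ (C = 0 ∧ p ≠ -1) := by
      rcases hC with h | h
      · exact Or.inl ⟨h.1, by have := h.2.1; omega⟩
      · exact Or.inr ⟨h.1, by have := h.2 h2 h3; omega⟩
    have key := int_zero Q1 Q2 Q3 he hA2 hC2
    have key2 := hlogs key
    have hs := log6_nonneg v
    clear_value t
    clear key Q1 Q2 Q3 hlogs
    generalize max p 0 = P1 at *
    generalize max (-p) 0 = P2 at *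
    generalize max (-r) 0 = P3 at *
    push_cast at key2 hmd ⊢
    generalize Real.log (fv v ((6 : ℕ) : K)) = l6 at *
    generalize Real.log (Nv v) = l at *
    linarith
  · obtain ⟨σ, hσ, hσ'⟩ := six_int v h6
    have hA2 : A = 0 := by
      rcases hA with h | h
      · exact absurd ⟨h.2.2.1, h.2.2.2⟩ h6
      · exact h.1
    have hC2 : C = 0 := by
      rcases hC with h | h
      · exact absurd ⟨h.2.2.1, h.2.2.2⟩ h6
      · exact h.1
    subst hA2 hC2
    have key := int_zero6 (r := r) he hσ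
    have key2 := hlogs key
    clear_value t
    clear key hlogs
    generalize max p 0 = P1 at *
    generalize max (-p) 0 = P2 at *
    generalize max (-r) 0 = P3 at *
    push_cast at key2 hmd hσ' ⊢
    generalize Real.log (fv v (6 : K)) = l6 at *
    generalize Real.log (Nv v) = l at *
    linarith

/-- the simple local inequality -/
theorem fin_simple {t X : K} (ht : t ≠ 0) (hX : X ≠ 0) (v : Pr K) :
    1 / 2 * Real.log (max (fv v X) 1) + 1 / 2 * spf t v + 1 / 3 * spf t⁻¹ v ≤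
      Lam t t X (fv v) + 1 / 3 * Real.log (max (fv v t⁻¹) 1) +
      1 / 3 * Real.log (max (fv v X⁻¹) 1) := by
  obtain ⟨m, hm⟩ := fv_zpow v hX
  obtain ⟨p, hp⟩ := fv_zpow v ht
  have hN := Nv_pos v
  have hl := log_Nv_pos v
  have hLam := six_Lam v ht hm hp
  obtain ⟨A, hA, hA'⟩ := spf_int t v p hp
  obtain ⟨C, hC, hC'⟩ := spf_int t⁻¹ v (-p) (inv_int v hp)
  have e1 := plog_int v hm
  have e2 := plog_int v (inv_int v hp)
  have e3 := plog_int v (inv_int v hm)
  rw [hA', hC', e1, e2, e3]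
  have hA2 : (A = 1 ∧ p = 1) ∨ A = 0 := by
    rcases hA with h | h
    · exact Or.inl ⟨h.1, h.2.1⟩
    · exact Or.inr h.1
  have hC2 : (C = 1 ∧ p = -1) ∨ C = 0 := by
    rcases hC with h | h
    · exact Or.inl ⟨h.1, by have := h.2.1; omega⟩
    · exact Or.inr h.1
  have key := int_simple (m := m) hA2 hC2
  have key2 : (((3 * max m 0 - 2 * max (-m) 0 + 3 * A + 2 * C : ℤ) : ℝ)) * Real.log (Nv v) ≤
      ((max (6 * m) (max (3 * p) (2 * p)) + 2 * max (-p) 0 : ℤ) : ℝ) * Real.log (Nv v) :=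
    mul_le_mul_of_nonneg_right (by exact_mod_cast key) hl.le
  clear key
  generalize max (6 * m) (max (3 * p) (2 * p)) = T at hLam key2
  generalize max m 0 = P1 at *
  generalize max (-p) 0 = P2 at *
  generalize max (-m) 0 = P3 at *
  push_cast at key2 hLam ⊢
  generalize Real.log (Nv v) = l at *
  linarith

end Pool.Agent.T9h57.LS
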