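import Mathlib
import Pool.Agent.T9h57.LS.Pw

/-!
# The sums of the local inequalities
-/

set_option autoImplicit false
set_option linter.unusedSectionVars false

namespace Pool.Agent.T9h57.LS

open NumberField IsDedekindDomain Finset Pool.Agent.H691R3 Pool.Agent.W223.AK Pool.Agent.Y733.UD
open Pool.Agent.TH942 Pool.Agent.TH910.LS Pool.Agent.Y733.LS

section Any

variable {K : Type} [Field K]

/-- `log⁺` -/
noncomputable def lp (w : AbsoluteValue K ℝ) (z : K) : ℝ := Real.log (max (w z) 1)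

theorem lp_nonneg (w : AbsoluteValue K ℝ) (z : K) : 0 ≤ lp w z :=
  Real.log_nonneg (le_max_right _ _)

theorem le_lp (w : AbsoluteValue K ℝ) {z : K} (hz : z ≠ 0) : Real.log (w z) ≤ lp w z :=
  Real.log_le_log (w.pos hz) (le_max_left _ _)

theorem lp_inv (w : AbsoluteValue K ℝ) {z : K} (hz : z ≠ 0) :
    lp w z⁻¹ = lp w z - Real.log (w z) := by
  have h0 := w.pos hz
  have h1 : 0 < max (w z) 1 := lt_max_of_lt_right one_pos
  unfold lp
  rw [← Real.log_div h1.ne' h0.ne']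
  congr 1
  rw [map_inv₀]
  rcases le_total (w z) 1 with h | h
  · rw [max_eq_right h, max_eq_left (one_le_inv_iff₀.2 ⟨h0, h⟩), one_div]
  · rw [max_eq_left h, max_eq_right (inv_le_one_of_one_le₀ h), div_self h0.ne']

theorem lp_or (w : AbsoluteValue K ℝ) {z : K} (hz : z ≠ 0) :
    lp w z = Real.log (w z) ∨ (lp w z = 0 ∧ Real.log (w z) ≤ 0) := by
  unfold lp
  rcases le_total (w z) 1 with h | h
  · right
    rw [max_eq_right h, Real.log_one]
    exact ⟨rfl, Real.log_nonpos (w.nonneg _) h⟩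
  · left
    rw [max_eq_left h]

theorem six_log_sz (w : AbsoluteValue K ℝ) {t : K} (ht0 : t ≠ 0) :
    6 * Real.log (sz w t t) = lp w t + 2 * Real.log (w t) := by
  have h0 := w.pos ht0
  have h1 : 0 < max (w t) 1 := lt_max_of_lt_right one_pos
  have h2 := sz_six w t t
  have e1 : 6 * Real.log (sz w t t) = Real.log (sz w t t ^ 6) := by
    rw [Real.log_pow]
    push_cast
    ring
  have e2 : max (w t ^ 3) (w t ^ 2) = max (w t) 1 * w t ^ 2 := by
    rw [max_mul_of_nonneg _ _ (by positivity)]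
    congr 1
    · ring
    · ring
  rw [e1, h2, e2, Real.log_mul h1.ne' (by positivity), Real.log_pow]
  unfold lp
  push_cast
  ring

theorem sz_le_Lam (w : AbsoluteValue K ℝ) {t : K} (X : K) (ht0 : t ≠ 0) :
    Real.log (sz w t t) ≤ Lam t t X w :=
  Real.log_le_log (sz_pos ht0) (le_max_right _ _)

theorem x_le_Lam (w : AbsoluteValue K ℝ) {t X : K} (hX : X ≠ 0) :
    Real.log (w X) ≤ Lam t t X w :=
  Real.log_le_log (w.pos hX) (le_max_left _ _)

theorem Lam_le (w : AbsoluteValue K ℝ) {t X : K} (hX : X ≠ 0) {B : ℝ}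
    (h1 : Real.log (w X) ≤ B) (h2 : Real.log (sz w t t) ≤ B) : Lam t t X w ≤ B := by
  unfold Lam
  rcases max_choice (w X) (sz w t t) with h | h
  · rw [h]; exact h1
  · rw [h]; exact h2

theorem Lam_zero (w : AbsoluteValue K ℝ) {t : K} (ht0 : t ≠ 0) :
    Lam t t 0 w = Real.log (sz w t t) := by
  unfold Lam
  rw [map_zero, max_eq_right (sz_pos ht0).le]

theorem any_simple (w : AbsoluteValue K ℝ) {t X : K} (ht0 : t ≠ 0) (hX : X ≠ 0) :
    1 / 2 * lp w X ≤ Lam t t X w + 1 / 3 * lp w t⁻¹ + 1 / 3 * lp w X⁻¹ := by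
  have h1 := six_log_sz w ht0
  have h2 := sz_le_Lam w X ht0
  have h3 := x_le_Lam (t := t) w hX
  have h4 := lp_inv w ht0
  have h5 := lp_inv w hX
  have h6 := lp_nonneg w t
  have h7 := lp_nonneg w t⁻¹
  have h8 := lp_nonneg w X⁻¹
  rcases lp_or w hX with h | h
  · rcases lp_or w ht0 with h' | h'
    · linarith
    · linarith
  · linarith

/-- the archimedean main inequality -/
theorem arch_main (w : AbsoluteValue K ℝ) {t X : K} (ht0 : t ≠ 0)
    (hX : X ≠ 0) (hf : ff t X ≠ 0) :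
    1 / 3 * Real.log (w X) + 1 / 12 * Real.log (w (ff t X)) ≤
      Lam t t X w + 1 / 2 * lp w t⁻¹ + Real.log 3 := by
  have h1 := six_log_sz w ht0
  have h2 := sz_le_Lam w X ht0
  have h3 := x_le_Lam (t := t) w hX
  have h4 := lp_inv w ht0
  have h6 := lp_nonneg w t
  have h7 := lp_nonneg w t⁻¹
  have hl3 : 0 ≤ Real.log 3 := Real.log_nonneg (by norm_num)
  have hx := w.pos hX
  have htp := w.pos ht0
  have hf3 : w (ff t X) ≤ 3 * max (w X ^ 3) (max (w t * w X) (w t)) := by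
    have i1 : w (ff t X) ≤ w (X ^ 3) + w (t * X) + w t := by
      unfold ff
      exact (w.add_le _ _).trans (add_le_add_left (w.add_le _ _) _)
    rw [map_pow, map_mul] at i1
    have i2 := le_max_left (w X ^ 3) (max (w t * w X) (w t))
    have i3 := le_max_right (w X ^ 3) (max (w t * w X) (w t))
    have i4 := le_max_left (w t * w X) (w t)
    have i5 := le_max_right (w t * w X) (w t)
    linarith
  have hlog : Real.log (w (ff t X)) ≤ Real.log 3 +
      Real.log (max (w X ^ 3) (max (w t * w X) (w t))) := by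
    rw [← Real.log_mul (by norm_num) (lt_max_of_lt_left (by positivity)).ne']
    exact Real.log_le_log (w.pos hf) hf3
  have hcases : Real.log (max (w X ^ 3) (max (w t * w X) (w t))) = 3 * Real.log (w X) ∨
      Real.log (max (w X ^ 3) (max (w t * w X) (w t))) = Real.log (w t) + Real.log (w X) ∨
      Real.log (max (w X ^ 3) (max (w t * w X) (w t))) = Real.log (w t) := by
    rcases max_choice (w X ^ 3) (max (w t * w X) (w t)) with h | h
    · left
      rw [h, Real.log_pow]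
      push_cast
      ring
    · right
      rw [h]
      rcases max_choice (w t * w X) (w t) with h' | h'
      · left
        rw [h', Real.log_mul htp.ne' hx.ne']
      · right
        rw [h']
  rcases hcases with h | h | h <;> rw [h] at hlog <;> linarith

end Any

section Num

variable {K : Type} [Field K] [NumberField K]

theorem Fs_lp (z : K) : (Function.support fun v : Pr K => lp (fv v) z).Finite := Fs_ht z

theorem ht_lp (z : K) : ht z = Sm (fun w => lp w.1 z) (fun v => lp (fv v) z) := ht_eq_Sa z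

theorem Fs_spf (z : K) : (Function.support (spf z)).Finite := by
  classical
  exact Fs_sp z

theorem sp_spf (z : K) : sp z = Sm (fun _ => 0) (spf z) := by
  unfold Sm
  simp only [mul_zero, Finset.sum_const_zero, zero_add]
  rfl

theorem md_Sm (a b : K) : md a b = Sm (fun _ => 0) (mdv a b) := by
  unfold Sm
  simp only [mul_zero, Finset.sum_const_zero, zero_add]
  rfl

theorem Fs_LamX {t : K} (ht0 : t ≠ 0) (X : K) :
    (Function.support fun v : Pr K => Lam t t X (fv v)).Finite := Fs_Lam ht0 ht0 X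

/-- **the main inequality** -/
theorem main_sum {a b z X : K} (ha : a ≠ 0) (hb : b ≠ 0) (hD : dl a b ≠ 0) (hX : X ≠ 0)
    (hf : ff (tt a b) X ≠ 0) (hz : z ≠ 0) (hc : b / a = ff (tt a b) X * z ^ 2) :
    1 / 72 * md a b + 7 / 8 * sp (tt a b) + 17 / 36 * sp (tt a b)⁻¹ ≤
      Sa (Lam (tt a b) (tt a b) X) + 1 / 2 * ht (tt a b) + 1 / 2 * ht (tt a b)⁻¹ +
      1 / 72 * ht (4 * tt a b + 27)⁻¹ +
      Module.finrank ℚ K * (Real.log 3 + Real.log ((6 : ℕ) : ℝ)) := by
  have ht0 := tt_ne ha hb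
  set t := tt a b with htd
  have s1 := Fs_md ha hb hD
  have s2 := Fs_spf t
  have s3 := Fs_spf t⁻¹
  have s4 : (Function.support fun v : Pr K => Real.log (fv v X)).Finite := Fs_log hX
  have s5 : (Function.support fun v : Pr K => Real.log (fv v (ff t X))).Finite := Fs_log hf
  have r1 := Fs_LamX ht0 X
  have r2 := Fs_lp t
  have r3 := Fs_lp t⁻¹
  have r4 := Fs_lp (4 * t + 27)⁻¹
  have main := Sm_le_of (K := K)
    (f := fun w => ((1 / 72 * (0 : ℝ) + 7 / 8 * (0 : ℝ)) + 17 / 36 * (0 : ℝ)) +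
      (1 / 3 * Real.log (w.1 X) + 1 / 12 * Real.log (w.1 (ff t X))))
    (g := fun v => ((1 / 72 * mdv a b v + 7 / 8 * spf t v) + 17 / 36 * spf t⁻¹ v) +
      (1 / 3 * Real.log (fv v X) + 1 / 12 * Real.log (fv v (ff t X))))
    (f' := fun w => ((Lam t t X w.1 + 1 / 2 * lp w.1 t) + 1 / 2 * lp w.1 t⁻¹) +
      1 / 72 * lp w.1 (4 * t + 27)⁻¹)
    (g' := fun v => ((Lam t t X (fv v) + 1 / 2 * lp (fv v) t) + 1 / 2 * lp (fv v) t⁻¹) +
      1 / 72 * lp (fv v) (4 * t + 27)⁻¹)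
    (supp_add (supp_add (supp_add (supp_mul _ s1) (supp_mul _ s2)) (supp_mul _ s3))
      (supp_add (supp_mul _ s4) (supp_mul _ s5)))
    (supp_add (supp_add (supp_add r1 (supp_mul _ r2)) (supp_mul _ r3)) (supp_mul _ r4))
    (Real.log 3) (N := 6) (by norm_num) ?_ ?_
  · rw [Sm_add (supp_add (supp_add (supp_mul _ s1) (supp_mul _ s2)) (supp_mul _ s3))
      (supp_add (supp_mul _ s4) (supp_mul _ s5)),
      Sm_add (supp_add (supp_mul _ s1) (supp_mul _ s2)) (supp_mul _ s3),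
      Sm_add (supp_mul _ s1) (supp_mul _ s2), Sm_add (supp_mul _ s4) (supp_mul _ s5),
      Sm_mul, Sm_mul, Sm_mul, Sm_mul, Sm_mul, ← md_Sm, ← sp_spf, ← sp_spf,
      Sm_add (supp_add (supp_add r1 (supp_mul _ r2)) (supp_mul _ r3)) (supp_mul _ r4),
      Sm_add (supp_add r1 (supp_mul _ r2)) (supp_mul _ r3), Sm_add r1 (supp_mul _ r2),
      Sm_mul, Sm_mul, Sm_mul, ← ht_lp, ← ht_lp, ← ht_lp] at main
    have e1 : Sm (fun w : InfinitePlace K => Real.log (w.1 X)) (fun v => Real.log (fv v X)) = 0 :=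
      Sa_log hX
    have e2 : Sm (fun w : InfinitePlace K => Real.log (w.1 (ff t X)))
        (fun v => Real.log (fv v (ff t X))) = 0 := Sa_log hf
    rw [e1, e2] at main
    unfold Sa
    linarith
  · intro w
    have h1 := arch_main w.1 ht0 hX hf
    have h2 := lp_nonneg w.1 t
    have h3 := lp_nonneg w.1 (4 * t + 27)⁻¹
    linarith
  · intro v
    exact fin_main ha hb hD hX hf hz hc v

theorem zero_sum {a b z : K} (ha : a ≠ 0) (hb : b ≠ 0) (hD : dl a b ≠ 0)
    (hz : z ≠ 0) (hc : b / a = tt a b * z ^ 2) :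
    md a b + 6 * sp (tt a b) + sp (tt a b)⁻¹ ≤
      9 * ht (tt a b) + 9 * ht (tt a b)⁻¹ + ht (4 * tt a b + 27)⁻¹ +
      Module.finrank ℚ K * (0 + Real.log ((6 ^ 12 : ℕ) : ℝ)) := by
  have ht0 := tt_ne ha hb
  set t := tt a b with htd
  have s1 := Fs_md ha hb hD
  have s2 := Fs_spf t
  have s3 := Fs_spf t⁻¹
  have r2 := Fs_lp t
  have r3 := Fs_lp t⁻¹
  have r4 := Fs_lp (4 * t + 27)⁻¹
  have main := Sm_le_of (K := K)
    (f := fun w => ((0 : ℝ) + 6 * (0 : ℝ)) + (0 : ℝ))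
    (g := fun v => (mdv a b v + 6 * spf t v) + spf t⁻¹ v)
    (f' := fun w => (9 * lp w.1 t + 9 * lp w.1 t⁻¹) + lp w.1 (4 * t + 27)⁻¹)
    (g' := fun v => (9 * lp (fv v) t + 9 * lp (fv v) t⁻¹) + lp (fv v) (4 * t + 27)⁻¹)
    (supp_add (supp_add s1 (supp_mul _ s2)) s3)
    (supp_add (supp_add (supp_mul _ r2) (supp_mul _ r3)) r4)
    0 (N := 6 ^ 12) (by norm_num) ?_ ?_
  · rw [Sm_add (supp_add s1 (supp_mul _ s2)) s3, Sm_add s1 (supp_mul _ s2),
      Sm_mul, ← md_Sm, ← sp_spf, ← sp_spf,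
      Sm_add (supp_add (supp_mul _ r2) (supp_mul _ r3)) r4,
      Sm_add (supp_mul _ r2) (supp_mul _ r3),
      Sm_mul, Sm_mul, ← ht_lp, ← ht_lp, ← ht_lp] at main
    exact main
  · intro w
    have h2 := lp_nonneg w.1 t
    have h3 := lp_nonneg w.1 (4 * t + 27)⁻¹
    have h4 := lp_nonneg w.1 t⁻¹
    linarith
  · intro v
    have h := fin_zero ha hb hD hz hc v
    have e : Real.log (fv v ((6 ^ 12 : ℕ) : K)) = 12 * Real.log (fv v ((6 : ℕ) : K)) := by
      rw [Nat.cast_pow, map_pow, Real.log_pow]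
      push_cast
      ring
    rw [e]
    exact h

theorem simple_sum {t X : K} (ht0 : t ≠ 0) (hX : X ≠ 0) :
    1 / 2 * ht X + 1 / 2 * sp t + 1 / 3 * sp t⁻¹ ≤
      Sa (Lam t t X) + 1 / 3 * ht t⁻¹ + 1 / 3 * ht X⁻¹ := by
  have s1 := Fs_lp X
  have s2 := Fs_spf t
  have s3 := Fs_spf t⁻¹
  have r1 := Fs_LamX ht0 X
  have r2 := Fs_lp t⁻¹
  have r3 := Fs_lp X⁻¹
  have main := Sm_mono (K := K)
    (f := fun w => (1 / 2 * lp w.1 X + 1 / 2 * (0 : ℝ)) + 1 / 3 * (0 : ℝ))
    (g := fun v => (1 / 2 * lp (fv v) X + 1 / 2 * spf t v) + 1 / 3 * spf t⁻¹ v)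
    (f' := fun w => (Lam t t X w.1 + 1 / 3 * lp w.1 t⁻¹) + 1 / 3 * lp w.1 X⁻¹)
    (g' := fun v => (Lam t t X (fv v) + 1 / 3 * lp (fv v) t⁻¹) + 1 / 3 * lp (fv v) X⁻¹)
    (supp_add (supp_add (supp_mul _ s1) (supp_mul _ s2)) (supp_mul _ s3))
    (supp_add (supp_add r1 (supp_mul _ r2)) (supp_mul _ r3)) ?_ ?_
  · rw [Sm_add (supp_add (supp_mul _ s1) (supp_mul _ s2)) (supp_mul _ s3),
      Sm_add (supp_mul _ s1) (supp_mul _ s2), Sm_mul, Sm_mul, Sm_mul, ← sp_spf, ← sp_spf,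
      Sm_add (supp_add r1 (supp_mul _ r2)) (supp_mul _ r3), Sm_add r1 (supp_mul _ r2),
      Sm_mul, Sm_mul, ← ht_lp, ← ht_lp, ← ht_lp] at main
    exact main
  · intro w
    have h1 := any_simple w.1 ht0 hX
    linarith
  · intro v
    exact fin_simple ht0 hX v

end Num

end Pool.Agent.T9h57.LS
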