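import Mathlib
import Pool.Agent.T9h57.LS.Pw2

/-!
# The bounds for the points of one curve
-/

set_option autoImplicit false
set_option linter.unusedSectionVars false

namespace Pool.Agent.T9h57.LS

open NumberField IsDedekindDomain Finset Pool.Agent.H691R3 Pool.Agent.W223.AK Pool.Agent.Y733.UD
open Pool.Agent.TH942 Pool.Agent.TH910.LS Pool.Agent.Y733.LS WeierstrassCurve

section Num

variable {K : Type} [Field K] [NumberField K]

theorem spf_nonneg (z : K) (v : Pr K) : 0 ≤ spf z v := by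
  classical
  unfold spf
  have := (log_Nv_pos v).le
  split_ifs
  · exact this
  · exact le_rfl

theorem spf_le_lp (z : K) (v : Pr K) : spf z v ≤ lp (fv v) z := by
  classical
  unfold spf
  split_ifs with h
  · unfold lp
    rw [h.2.2, max_eq_left (Nv_one_lt v).le]
  · exact lp_nonneg _ _

theorem sp_nonneg (z : K) : 0 ≤ sp z := by
  rw [sp_spf]
  exact Sm_nonneg (fun _ => le_rfl) (spf_nonneg z)

theorem sp_le_ht (z : K) : sp z ≤ ht z := by
  rw [sp_spf, ht_lp]
  exact Sm_mono (Fs_spf z) (Fs_lp z) (fun w => lp_nonneg _ _) (spf_le_lp z)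

theorem bt_zero {a b : K} (hb : b ≠ 0) : bt a b 0 = 0 := by
  unfold bt
  rw [show (fun v : Pr K => btf a b 0 v) = fun _ => 0 from ?_]
  · simp
  · funext v
    unfold btf
    rw [if_neg]
    rintro ⟨h1, h2⟩
    apply h2
    unfold Good
    rw [mul_zero, zero_add, map_mul, h1.2.1, one_mul]

theorem bt_all {a b x : K} (hb : b ≠ 0)
    (h : ∀ v : Pr K, Sp (jj a b) v → fv v (2 * (x * a / b) + 3) < 1) :
    bt a b x = sp (jj a b) := by
  classical
  unfold bt sp
  refine finsum_congr fun v => ?_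
  unfold btf
  by_cases h1 : Sp (jj a b) v
  · rw [if_pos h1, if_pos]
    refine ⟨h1, ?_⟩
    rw [good_iff hb, not_le]
    exact h v h1
  · rw [if_neg h1, if_neg]
    exact fun h2 => h1 h2.1

theorem ht_lin {X : K} : ht (2 * X + 3) ≤ ht X + Module.finrank ℚ K * Real.log 5 := by
  rw [ht_eq_Sa, ht_eq_Sa]
  have := Sm_le_of (K := K) (f := fun w => Real.log (max (w.1 (2 * X + 3)) 1))
    (f' := fun w => Real.log (max (w.1 X) 1))
    (g := fun v => Real.log (max (fv v (2 * X + 3)) 1))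
    (g' := fun v => Real.log (max (fv v X) 1)) (Fs_ht _) (Fs_ht _) (Real.log 5) (N := 1)
    one_ne_zero ?_ ?_
  · simpa [Sa] using this
  · intro w
    have h1 : 0 < max (w.1 X) 1 := lt_max_of_lt_right one_pos
    rw [← Real.log_mul h1.ne' (by norm_num)]
    apply Real.log_le_log (lt_max_of_lt_right one_pos)
    have h2 := w.1.add_le (2 * X) 3
    rw [map_mul, ofn_inf, ofn_inf] at h2
    have h3 := le_max_left (w.1 X) 1
    have h4 := le_max_right (w.1 X) 1
    apply max_le <;> linarith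
  · intro v
    rw [Nat.cast_one, map_one, Real.log_one, sub_zero]
    apply Real.log_le_log (lt_max_of_lt_right one_pos)
    have hn := fv_Na v
    apply max_le _ (le_max_right _ _)
    apply hn.le_add
    · rw [map_mul]
      refine le_trans ?_ (le_max_left _ _)
      have h1 : fv v (2 : K) ≤ 1 := hn.ofNat 2
      have := (fv v).nonneg X
      nlinarith
    · exact (hn.ofNat 3).trans (le_max_right _ _)

theorem bt_le_ht {a b x : K} (hb : b ≠ 0) (h : 2 * (x * a / b) + 3 ≠ 0) :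
    bt a b x ≤ ht (x * a / b) + Module.finrank ℚ K * Real.log 5 := by
  refine le_trans ?_ (ht_lin (X := x * a / b))
  rw [← ht_inv h, ht_lp, ← Sm_bt]
  refine Sm_mono (Fs_bt a b x) (Fs_lp _) (fun w => lp_nonneg _ _) ?_
  intro v
  unfold btf
  split_ifs with h1
  · obtain ⟨h2, h3⟩ := h1
    rw [good_iff hb, not_le] at h3
    have h4 := disc_le v h3
    have hN := Nv_pos v
    unfold lp
    apply Real.log_le_log hN
    refine le_trans ?_ (le_max_left _ _)
    rw [map_inv₀, le_inv_comm₀ hN ((fv v).pos h)]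
    exact h4
  · exact lp_nonneg _ _

/-- the height of a fixed fraction -/
theorem ht_frac {p q : ℕ} (hp : p ≠ 0) (hq : q ≠ 0) :
    ht ((p : K) / (q : K)) ≤ Module.finrank ℚ K * (Real.log p + Real.log q) := by
  have hq' : (q : K) ≠ 0 := Nat.cast_ne_zero.2 hq
  rw [ht_lp]
  have := Sm_le_of (K := K) (f := fun w => lp w.1 ((p : K) / (q : K)))
    (f' := fun _ => (0 : ℝ))
    (g := fun v => lp (fv v) ((p : K) / (q : K)))
    (g' := fun _ => (0 : ℝ)) (Fs_lp _) (by simp) (Real.log p) (N := q) hq ?_ ?_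
  · have e : Sm (fun _ : InfinitePlace K => (0 : ℝ)) (fun _ : Pr K => (0 : ℝ)) = 0 := by
      unfold Sm
      simp
    rw [e, zero_add] at this
    exact this
  · intro w
    rw [zero_add]
    unfold lp
    have hp1 : (1 : ℝ) ≤ p := by exact_mod_cast Nat.one_le_iff_ne_zero.2 hp
    have hq1 : (1 : ℝ) ≤ q := by exact_mod_cast Nat.one_le_iff_ne_zero.2 hq
    apply Real.log_le_log (lt_max_of_lt_right one_pos)
    apply max_le _ hp1
    rw [map_div₀, inf_nat, inf_nat]
    exact div_le_self (by linarith) hq1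
  · intro v
    rw [zero_sub]
    unfold lp
    have hqv := (fv v).pos hq'
    rw [← Real.log_inv]
    apply Real.log_le_log (lt_max_of_lt_right one_pos)
    have h1 := (fv_Na v).nat p
    have h2 := (fv_Na v).nat q
    apply max_le
    · rw [map_div₀, div_eq_mul_inv]
      have : 0 < (fv v (q : K))⁻¹ := inv_pos.2 hqv
      nlinarith
    · exact one_le_inv_iff₀.2 ⟨hqv, h2⟩

theorem Sa_Lam_zero {t : K} (ht0 : t ≠ 0) : 6 * Sa (Lam t t 0) = ht t := by
  rw [← six_sz ht0]
  congr 2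
  funext w
  exact Lam_zero w ht0

theorem Sa_Lam_two {t : K} (ht0 : t ≠ 0) :
    Sa (Lam t t (-(3 / 2))) ≤ 1 / 2 * ht t + Module.finrank ℚ K * (Real.log 3 + Real.log 2) := by
  have hX : (-(3 / 2) : K) ≠ 0 := by norm_num
  have h32 : (3 / 2 : K) ≠ 0 := by norm_num
  have h1 := ht_frac (K := K) (p := 3) (q := 2) (by norm_num) (by norm_num)
  push_cast at h1
  have s1 := Fs_lp t
  have s2 := Fs_lp (3 / 2 : K)
  have key : ∀ w : AbsoluteValue K ℝ, Lam t t (-(3 / 2)) w ≤ 1 / 2 * lp w t + lp w (3 / 2) := by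
    intro w
    have i1 := six_log_sz w ht0
    have i2 := le_lp w ht0
    have i3 := lp_nonneg w t
    have i4 := lp_nonneg w (3 / 2)
    have i5 := le_lp w h32
    apply Lam_le w hX
    · rw [map_neg_eq_map]
      linarith
    · linarith
  have main := Sm_mono (K := K) (f := fun w => Lam t t (-(3 / 2)) w.1)
    (g := fun v => Lam t t (-(3 / 2)) (fv v))
    (f' := fun w => 1 / 2 * lp w.1 t + lp w.1 (3 / 2))
    (g' := fun v => 1 / 2 * lp (fv v) t + lp (fv v) (3 / 2))
    (Fs_LamX ht0 _) (supp_add (supp_mul _ s1) s2) (fun w => key w.1) (fun v => key (fv v))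
  rw [Sm_add (supp_mul _ s1) s2, Sm_mul, ← ht_lp, ← ht_lp] at main
  unfold Sa
  linarith

theorem Sa_Lam_three {t : K} (ht0 : t ≠ 0) :
    Sa (Lam t t (2 / 9 * t)) ≤ ht t - 1 / 3 * ht t⁻¹ +
      Module.finrank ℚ K * (Real.log 2 + Real.log 9) := by
  have h29 : (2 / 9 : K) ≠ 0 := by norm_num
  have hX : (2 / 9 * t : K) ≠ 0 := mul_ne_zero h29 ht0
  have h1 := ht_frac (K := K) (p := 2) (q := 9) (by norm_num) (by norm_num)
  push_cast at h1
  have s1 := Fs_lp t
  have s2 := Fs_lp (2 / 9 : K)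
  have s3 := Fs_lp t⁻¹
  have key : ∀ w : AbsoluteValue K ℝ, Lam t t (2 / 9 * t) w ≤
      (lp w t - 1 / 3 * lp w t⁻¹) + lp w (2 / 9) := by
    intro w
    have i1 := six_log_sz w ht0
    have i2 := le_lp w ht0
    have i3 := lp_nonneg w t
    have i4 := lp_nonneg w (2 / 9)
    have i5 := le_lp w h29
    have i6 := lp_inv w ht0
    have i7 := lp_nonneg w t⁻¹
    apply Lam_le w hX
    · rw [map_mul, Real.log_mul (w.pos h29).ne' (w.pos ht0).ne']
      linarith
    · linarith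
  have main := Sm_mono (K := K) (f := fun w => Lam t t (2 / 9 * t) w.1)
    (g := fun v => Lam t t (2 / 9 * t) (fv v))
    (f' := fun w => (lp w.1 t - 1 / 3 * lp w.1 t⁻¹) + lp w.1 (2 / 9))
    (g' := fun v => (lp (fv v) t - 1 / 3 * lp (fv v) t⁻¹) + lp (fv v) (2 / 9))
    (Fs_LamX ht0 _) (supp_add (supp_sub s1 (supp_mul _ s3)) s2)
    (fun w => key w.1) (fun v => key (fv v))
  rw [Sm_add (supp_sub s1 (supp_mul _ s3)) s2, Sm_sub s1 (supp_mul _ s3), Sm_mul, ← ht_lp,
    ← ht_lp, ← ht_lp] at main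
  unfold Sa
  linarith

/-- the three kinds of places -/
theorem kinds {a b : K} (ha : a ≠ 0) (hb : b ≠ 0) (hD : dl a b ≠ 0) (v : Pr K) {α β r : ℤ}
    (hα : fv v a = (Nv v) ^ α) (hβ : fv v b = (Nv v) ^ β)
    (hr : fv v (4 * tt a b + 27) = (Nv v) ^ r) :
    (spf (tt a b) v = 0 ∧ spf (jj a b) v = 0 ∧ spf (tt a b)⁻¹ v = 0) ∨
    ∃ A B C : ℤ, spf (tt a b) v = A * Real.log (Nv v) ∧ spf (jj a b) v = B * Real.log (Nv v) ∧
      spf (tt a b)⁻¹ v = C * Real.log (Nv v) ∧
      ((A = 1 ∧ B = 0 ∧ C = 0 ∧ 3 * α - 2 * β = 1 ∧ r = 1) ∨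
      (A = 0 ∧ B = 1 ∧ C = 0 ∧ 3 * α - 2 * β = 0 ∧ r = -1) ∨
      (A = 0 ∧ B = 0 ∧ C = 1 ∧ 3 * α - 2 * β = -1 ∧ r = 0)) := by
  classical
  have hN := Nv_pos v
  have ht0 := tt_ne ha hb
  have hp : fv v (tt a b) = (Nv v) ^ (3 * α - 2 * β) := by
    unfold tt
    rw [map_div₀, map_pow, map_pow, hα, hβ, ← zpow_natCast, ← zpow_natCast, ← zpow_mul,
      ← zpow_mul, ← zpow_sub₀ hN.ne']
    congr 1
    push_cast
    ring
  have hB : ∀ B : Prop, ∀ [Decidable B], (B → Sp (jj a b) v) → (Sp (jj a b) v → B) →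
      spf (jj a b) v = if B then Real.log (Nv v) else 0 := by
    intro B _ h1 h2
    unfold spf
    by_cases h : B
    · rw [if_pos h, if_pos (h1 h)]
    · rw [if_neg h, if_neg (fun h3 => h (h2 h3))]
  have hval : Sp (jj a b) v → 3 * α - 2 * β = 0 ∧ r = -1 := by
    intro h
    obtain ⟨f1, f2⟩ := sp_facts hD h
    constructor
    · rw [hα, hβ, ← zpow_natCast, ← zpow_natCast, ← zpow_mul, ← zpow_mul] at f1
      have := Nv_inj v f1
      push_cast at this
      linarith
    · apply Nv_inj v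
      rw [← hr, rr_eq hb, map_div₀, map_pow, f2, mul_div_cancel_right₀ _
        (pow_pos ((fv v).pos hb) 2).ne', zpow_neg_one]
  have hneg : ∀ {w : K} {i : ℤ}, fv v w = (Nv v) ^ i → fv v (-w) = (Nv v) ^ i := by
    intro w i h
    rw [map_neg_eq_map, h]
  have hQ : fv v (2 : K) = 1 → fv v (3 : K) = 1 →
      (r ≤ (3 * α - 2 * β) ∨ r ≤ 0) ∧ ((3 * α - 2 * β) ≤ r ∨ (3 * α - 2 * β) ≤ 0) ∧
      (0 ≤ r ∨ 0 ≤ (3 * α - 2 * β)) := by
    intro h2 h3
    obtain ⟨f4, f27, _⟩ := fv_two_three v h2 h3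
    have h4t : fv v (4 * tt a b) = (Nv v) ^ (3 * α - 2 * β) := by rw [map_mul, f4, one_mul, hp]
    have h27 : fv v (27 : K) = (Nv v) ^ (0 : ℤ) := by rw [f27, zpow_zero]
    exact ⟨rel3 v hr h4t h27 rfl, rel3 v h4t hr (hneg h27) (by ring),
      rel3 v h27 hr (hneg h4t) (by ring)⟩
  obtain ⟨A, hA, hA'⟩ := spf_int (tt a b) v _ hp
  obtain ⟨C, hC, hC'⟩ := spf_int (tt a b)⁻¹ v _ (inv_int v hp)
  by_cases hj : Sp (jj a b) v
  · right
    obtain ⟨k1, k2⟩ := hval hj
    have hA0 : A = 0 := by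
      rcases hA with h | h
      · have := h.2.1
        omega
      · exact h.1
    have hC0 : C = 0 := by
      rcases hC with h | h
      · have := h.2.1
        omega
      · exact h.1
    refine ⟨0, 1, 0, ?_, ?_, ?_, Or.inr (Or.inl ⟨rfl, rfl, rfl, k1, k2⟩)⟩
    · rw [hA', hA0]
    · unfold spf
      rw [if_pos hj]
      push_cast
      ring
    · rw [hC', hC0]
  · have hj0 : spf (jj a b) v = 0 := by
      unfold spf
      rw [if_neg hj]
    rcases hA with h | h
    · right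
      obtain ⟨Q1, Q2, Q3⟩ := hQ h.2.2.1 h.2.2.2
      have k1 := h.2.1
      have hC0 : C = 0 := by
        rcases hC with h' | h'
        · have := h'.2.1
          omega
        · exact h'.1
      refine ⟨1, 0, 0, ?_, ?_, ?_, Or.inl ⟨rfl, rfl, rfl, k1, by omega⟩⟩
      · rw [hA', h.1]
      · rw [hj0]
        push_cast
        ring
      · rw [hC', hC0]
    · rcases hC with h' | h'
      · right
        obtain ⟨Q1, Q2, Q3⟩ := hQ h'.2.2.1 h'.2.2.2
        have k1 := h'.2.1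
        refine ⟨0, 0, 1, ?_, ?_, ?_, Or.inr (Or.inr ⟨rfl, rfl, rfl, by omega, by omega⟩)⟩
        · rw [hA', h.1]
        · rw [hj0]
          push_cast
          ring
        · rw [hC', h'.1]
      · left
        refine ⟨?_, hj0, ?_⟩
        · rw [hA', h.1]
          push_cast
          ring
        · rw [hC', h'.1]
          push_cast
          ring

/-- the discriminant from below -/
theorem md_low {a b : K} (ha : a ≠ 0) (hb : b ≠ 0) (hD : dl a b ≠ 0) :
    3 * sp (tt a b) + sp (jj a b) + 2 * sp (tt a b)⁻¹ ≤ md a b := by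
  have s1 := Fs_spf (tt a b)
  have s2 := Fs_spf (jj a b)
  have s3 := Fs_spf (tt a b)⁻¹
  have main := Sm_mono (K := K) (f := fun _ => (3 * (0 : ℝ) + (0 : ℝ)) + 2 * (0 : ℝ))
    (g := fun v => (3 * spf (tt a b) v + spf (jj a b) v) + 2 * spf (tt a b)⁻¹ v)
    (f' := fun _ => (0 : ℝ)) (g' := fun v => mdv a b v)
    (supp_add (supp_add (supp_mul _ s1) s2) (supp_mul _ s3)) (Fs_md ha hb hD) ?_ ?_
  · rw [Sm_add (supp_add (supp_mul _ s1) s2) (supp_mul _ s3), Sm_add (supp_mul _ s1) s2,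
      Sm_mul, Sm_mul, ← sp_spf, ← sp_spf, ← sp_spf] at main
    rw [md_Sm]
    exact main
  · intro w
    norm_num
  · intro v
    obtain ⟨α, hα⟩ := fv_zpow v ha
    obtain ⟨β, hβ⟩ := fv_zpow v hb
    obtain ⟨r, hr⟩ := fv_zpow v (rr_ne hb hD)
    rcases kinds ha hb hD v hα hβ hr with ⟨h1, h2, h3⟩ | ⟨A, B, C, h1, h2, h3, h4⟩
    · rw [h1, h2, h3]
      have := mdv_nonneg ha hb v
      linarith
    · rw [h1, h2, h3]
      have := mdv_low ha hb v (M := 3 * A + B + 2 * C) hα hβ hr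
        (fun g g1 g2 => low_gen g1 g2 h4)
      push_cast at this
      linarith

/-- the discriminant from below, if `b` is a square -/
theorem md_low_sq {a b y : K} (ha : a ≠ 0) (hb : b ≠ 0) (hD : dl a b ≠ 0) (hy : y ^ 2 = b) :
    3 * sp (tt a b) + sp (jj a b) + 8 * sp (tt a b)⁻¹ ≤ md a b := by
  have s1 := Fs_spf (tt a b)
  have s2 := Fs_spf (jj a b)
  have s3 := Fs_spf (tt a b)⁻¹
  have hy0 : y ≠ 0 := by
    rintro rfl
    apply hb
    rw [← hy]
    norm_num
  have main := Sm_mono (K := K) (f := fun _ => (3 * (0 : ℝ) + (0 : ℝ)) + 8 * (0 : ℝ))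
    (g := fun v => (3 * spf (tt a b) v + spf (jj a b) v) + 8 * spf (tt a b)⁻¹ v)
    (f' := fun _ => (0 : ℝ)) (g' := fun v => mdv a b v)
    (supp_add (supp_add (supp_mul _ s1) s2) (supp_mul _ s3)) (Fs_md ha hb hD) ?_ ?_
  · rw [Sm_add (supp_add (supp_mul _ s1) s2) (supp_mul _ s3), Sm_add (supp_mul _ s1) s2,
      Sm_mul, Sm_mul, ← sp_spf, ← sp_spf, ← sp_spf] at main
    rw [md_Sm]
    exact main
  · intro w
    norm_num
  · intro v
    obtain ⟨α, hα⟩ := fv_zpow v ha
    obtain ⟨γ, hγ⟩ := fv_zpow v hy0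
    have hβ : fv v b = (Nv v) ^ (2 * γ) := by
      rw [← hy, map_pow, hγ, ← zpow_natCast, ← zpow_mul]
      congr 1
      push_cast
      ring
    obtain ⟨r, hr⟩ := fv_zpow v (rr_ne hb hD)
    rcases kinds ha hb hD v hα hβ hr with ⟨h1, h2, h3⟩ | ⟨A, B, C, h1, h2, h3, h4⟩
    · rw [h1, h2, h3]
      have := mdv_nonneg ha hb v
      linarith
    · rw [h1, h2, h3]
      have := mdv_low ha hb v (M := 3 * A + B + 8 * C) hα hβ hr
        (fun g g1 g2 => low_sq g1 g2 h4)
      push_cast at this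
      linarith

end Num

end Pool.Agent.T9h57.LS
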