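import Mathlib
import Pool.Agent.T9h57.LS.Cu

/-!
# The theorem for one curve
-/

set_option autoImplicit false
set_option linter.unusedSectionVars false

namespace Pool.Agent.T9h57.LS

open NumberField IsDedekindDomain Finset Pool.Agent.H691R3 Pool.Agent.W223.AK Pool.Agent.Y733.UD
open Pool.Agent.TH942 Pool.Agent.TH910.LS Pool.Agent.Y733.LS WeierstrassCurve

/-- the constant of the comparison -/
noncomputable def cc : ℝ :=
  Real.log 6912 + Real.log 6916 + (Real.log 250 + Real.log ((4 * 6912 * 46656 : ℕ) : ℝ)) +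
    Real.log 31 + Real.log 12 + Real.log 5 + Real.log 3 + Real.log ((6 : ℕ) : ℝ) +
    Real.log ((6 ^ 12 : ℕ) : ℝ) + Real.log 2 + Real.log 9

/-- a multiple of it -/
noncomputable def C5 : ℝ := 40 * cc

theorem C5_nonneg : 0 ≤ C5 := by
  have h1 : 0 ≤ Real.log 6912 := Real.log_nonneg (by norm_num)
  have h2 : 0 ≤ Real.log 6916 := Real.log_nonneg (by norm_num)
  have h3 : 0 ≤ Real.log 250 := Real.log_nonneg (by norm_num)
  have h4 : 0 ≤ Real.log ((4 * 6912 * 46656 : ℕ) : ℝ) := Real.log_natCast_nonneg _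
  have h5 : 0 ≤ Real.log 31 := Real.log_nonneg (by norm_num)
  have h6 : 0 ≤ Real.log 12 := Real.log_nonneg (by norm_num)
  have h7 : 0 ≤ Real.log 5 := Real.log_nonneg (by norm_num)
  have h8 : 0 ≤ Real.log 3 := Real.log_nonneg (by norm_num)
  have h9 : 0 ≤ Real.log ((6 : ℕ) : ℝ) := Real.log_natCast_nonneg _
  have h10 : 0 ≤ Real.log ((6 ^ 12 : ℕ) : ℝ) := Real.log_natCast_nonneg _
  have h11 : 0 ≤ Real.log 2 := Real.log_nonneg (by norm_num)
  have h12 : 0 ≤ Real.log 9 := Real.log_nonneg (by norm_num)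
  unfold C5 cc
  positivity

section Num

variable {K : Type} [Field K] [NumberField K]

/-- the constants, multiplied by the degree -/
theorem consts : ∃ u1 u2 u3 u4 u5 u6 u7 u8 u9 u10 u11 : ℝ,
    u1 = Module.finrank ℚ K * Real.log 6912 ∧ u2 = Module.finrank ℚ K * Real.log 6916 ∧
    u3 = Module.finrank ℚ K * (Real.log 250 + Real.log ((4 * 6912 * 46656 : ℕ) : ℝ)) ∧
    u4 = Module.finrank ℚ K * Real.log 31 ∧ u5 = Module.finrank ℚ K * Real.log 12 ∧
    u6 = Module.finrank ℚ K * Real.log 5 ∧ u7 = Module.finrank ℚ K * Real.log 3 ∧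
    u8 = Module.finrank ℚ K * Real.log ((6 : ℕ) : ℝ) ∧
    u9 = Module.finrank ℚ K * Real.log ((6 ^ 12 : ℕ) : ℝ) ∧
    u10 = Module.finrank ℚ K * Real.log 2 ∧ u11 = Module.finrank ℚ K * Real.log 9 ∧
    0 ≤ u1 ∧ 0 ≤ u2 ∧ 0 ≤ u3 ∧ 0 ≤ u4 ∧ 0 ≤ u5 ∧ 0 ≤ u6 ∧ 0 ≤ u7 ∧ 0 ≤ u8 ∧ 0 ≤ u9 ∧
    0 ≤ u10 ∧ 0 ≤ u11 ∧
    Module.finrank ℚ K * C5 = 40 * (u1 + u2 + u3 + u4 + u5 + u6 + u7 + u8 + u9 + u10 + u11) := by
  have h1 : 0 ≤ Real.log 6912 := Real.log_nonneg (by norm_num)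
  have h2 : 0 ≤ Real.log 6916 := Real.log_nonneg (by norm_num)
  have h3 : 0 ≤ Real.log 250 := Real.log_nonneg (by norm_num)
  have h4 : 0 ≤ Real.log ((4 * 6912 * 46656 : ℕ) : ℝ) := Real.log_natCast_nonneg _
  have h5 : 0 ≤ Real.log 31 := Real.log_nonneg (by norm_num)
  have h6 : 0 ≤ Real.log 12 := Real.log_nonneg (by norm_num)
  have h7 : 0 ≤ Real.log 5 := Real.log_nonneg (by norm_num)
  have h8 : 0 ≤ Real.log 3 := Real.log_nonneg (by norm_num)
  have h9 : 0 ≤ Real.log ((6 : ℕ) : ℝ) := Real.log_natCast_nonneg _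
  have h10 : 0 ≤ Real.log ((6 ^ 12 : ℕ) : ℝ) := Real.log_natCast_nonneg _
  have h11 : 0 ≤ Real.log 2 := Real.log_nonneg (by norm_num)
  have h12 : 0 ≤ Real.log 9 := Real.log_nonneg (by norm_num)
  refine ⟨_, _, _, _, _, _, _, _, _, _, _, rfl, rfl, rfl, rfl, rfl, rfl, rfl, rfl, rfl, rfl, rfl,
    by positivity, by positivity, by positivity, by positivity, by positivity, by positivity,
    by positivity, by positivity, by positivity, by positivity, by positivity, ?_⟩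
  unfold C5 cc
  ring

theorem ff_eq {a b x y : K} (ha : a ≠ 0) (hb : b ≠ 0) (hy : y ≠ 0)
    (he : y ^ 2 = x ^ 3 + a * x + b) :
    ff (tt a b) (x * a / b) ≠ 0 ∧ ∃ z : K, z ≠ 0 ∧
      b / a = ff (tt a b) (x * a / b) * z ^ 2 := by
  have e : (b / a) ^ 3 * ff (tt a b) (x * a / b) = y ^ 2 := by
    rw [he]
    unfold ff tt
    field_simp
  have hc : b / a ≠ 0 := div_ne_zero hb ha
  have hf : ff (tt a b) (x * a / b) ≠ 0 := by
    intro h0
    rw [h0, mul_zero] at e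
    exact hy (pow_eq_zero_iff (two_ne_zero)|>.1 e.symm)
  refine ⟨hf, y / (b / a * ff (tt a b) (x * a / b)), div_ne_zero hy (mul_ne_zero hc hf), ?_⟩
  rw [div_pow, ← e, mul_pow]
  generalize b / a = c at *
  generalize ff (tt a b) (x * a / b) = f at *
  field_simp

end Num

section Pts

variable {K : Type} [Field K] [NumberField K] [DecidableEq K]

/-- **the theorem for one point** -/
theorem point_bounds {a b : K} (ha : a ≠ 0) (hb : b ≠ 0) (hD : dl a b ≠ 0) {η : ℝ} (hη : 0 ≤ η)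
    (hη1 : η ≤ 1) (hs1 : (1 - η) * ht (tt a b) ≤ sp (tt a b))
    (hs2 : (1 - η) * ht (tt a b)⁻¹ ≤ sp (tt a b)⁻¹) (hs3 : (1 - η) * ht (jj a b) ≤ sp (jj a b))
    {x y : K} (h : (sw a b).toAffine.Nonsingular x y)
    (hP : ∀ k : ℕ, (2 ^ k : ℕ) • (Affine.Point.some x y h : SPt a b) ≠ 0) :
    (x = 0 →
      (1 / 6 - η) * ht (jj a b) - Module.finrank ℚ K * C5 ≤
        chat (Affine.Point.some x y h : SPt a b) ∧
      1 / 72 * md a b - η * ht (jj a b) - Module.finrank ℚ K * C5 ≤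
        chat (Affine.Point.some x y h : SPt a b) ∧
      chat (Affine.Point.some x y h : SPt a b) ≤
        1 / 6 * ht (jj a b) + Module.finrank ℚ K * C5 ∧
      12 * (1 - η) * ht (jj a b) - Module.finrank ℚ K * C5 ≤ md a b) ∧
    (x ≠ 0 →
      (1 / 4 - 7 / 4 * η) * ht (jj a b) - Module.finrank ℚ K * C5 ≤
        chat (Affine.Point.some x y h : SPt a b) ∧
      1 / 72 * md a b + (1 / 12 - 7 / 4 * η) * ht (jj a b) - Module.finrank ℚ K * C5 ≤
        chat (Affine.Point.some x y h : SPt a b)) ∧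
    (x ≠ 0 → 2 * a * x + 3 * b ≠ 0 →
      (5 / 12 - 7 / 4 * η) * ht (jj a b) - Module.finrank ℚ K * C5 ≤
        chat (Affine.Point.some x y h : SPt a b)) := by
  have he : y ^ 2 = x ^ 3 + a * x + b := sw_eqn.1 h.1
  have hy : y ≠ 0 := by
    intro h0
    have h1 := hP 1
    rw [pow_one] at h1
    exact h1 (dup_zero h h0)
  have ht0 := tt_ne ha hb
  have hrr := rr_ne hb hD
  obtain ⟨u1, u2, u3, u4, u5, u6, u7, u8, u9, u10, u11, e1, e2, e3, e4, e5, e6, e7, e8, e9, e10,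
    e11, p1, p2, p3, p4, p5, p6, p7, p8, p9, p10, p11, hC⟩ := consts (K := K)
  have c1 := ht_j_le ha hb hD
  have c2 : ht (tt a b) ≤ ht (jj a b) + Module.finrank ℚ K * Real.log 6916 := by
    obtain ⟨k1, k2⟩ := tt_j ha hb hD
    rw [k1]
    exact ht_t_le k2
  have c3 := loss_sum ha hb hD
  have c4 := ht_rr hrr
  have c5 := chat_low ha hb hD h hP
  have c6 := chat_up ha hb hD h hP
  have c7 := bt_nonneg a b x
  have c8 := bt_le_sp a b x
  have c9 := sp_le_ht (jj a b)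
  have c10 := Sa_Lam ha hb x
  have c11 := ht_nonneg (tt a b)
  have c12 := ht_nonneg (jj a b)
  have c13 := ht_inv ht0
  rw [c13] at hs2
  rw [← e1] at c1
  rw [← e2] at c2
  rw [← e3] at c3
  rw [← e4] at c4
  rw [← e5] at c6
  rw [hC]
  rw [c10] at c5 c6
  have q1 : η * ht (tt a b) ≤ η * ht (jj a b) + u2 := by
    have : η * ht (tt a b) ≤ η * (ht (jj a b) + u2) := mul_le_mul_of_nonneg_left c2 hη
    nlinarith
  have q2 : 0 ≤ η * ht (jj a b) := mul_nonneg hη c12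
  refine ⟨?_, ?_, ?_⟩
  · intro hx
    subst hx
    have d1 : Sa (Lam (tt a b) (tt a b) (0 * a / b)) = Sa (Lam (tt a b) (tt a b) 0) := by
      rw [zero_mul, zero_div]
    have d2 := Sa_Lam_zero (K := K) ht0
    have d3 := bt_zero (a := a) hb
    rw [d1, d3] at c5 c6
    have d4 : y ^ 2 = b := by
      rw [he]
      ring
    have d5 := md_low_sq ha hb hD d4
    obtain ⟨f1, z, f2, f3⟩ := ff_eq ha hb hy he
    have f4 : ff (tt a b) (0 * a / b) = tt a b := by
      unfold ff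
      ring
    rw [f4] at f3
    have d6 := zero_sum ha hb hD f2 f3
    rw [c13, zero_add, ← e9] at d6
    refine ⟨by linarith, by linarith, by linarith, by linarith⟩
  · intro hx
    have hX : x * a / b ≠ 0 := div_ne_zero (mul_ne_zero hx ha) hb
    obtain ⟨f1, z, f2, f3⟩ := ff_eq ha hb hy he
    have d1 := main_sum ha hb hD hX f1 f2 f3
    have d2 := simple_sum ht0 hX
    have d3 := ht_nonneg (x * a / b)
    rw [ht_inv hX] at d2
    rw [c13] at d1 d2
    rw [mul_add, ← e7, ← e8] at d1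
    refine ⟨by linarith, by linarith⟩
  · intro hx h2
    have hX : x * a / b ≠ 0 := div_ne_zero (mul_ne_zero hx ha) hb
    have d2 := simple_sum ht0 hX
    rw [ht_inv hX, c13] at d2
    have h3 : 2 * (x * a / b) + 3 ≠ 0 := by
      intro h4
      apply h2
      have e : 2 * a * x + 3 * b = b * (2 * (x * a / b) + 3) := by
        field_simp
      rw [e, h4, mul_zero]
    have d3 := bt_le_ht hb h3
    rw [← e6] at d3
    linarith

/-- the points with a root of the cubic -/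
theorem two_of_root {a b e : K} (ha : a ≠ 0) (hb : b ≠ 0) (hD : dl a b ≠ 0)
    (he : e ^ 3 + a * e + b = 0) : Two (jj a b) := by
  obtain ⟨f1, f2, f3⟩ := jt_eq hb hD he
  refine ⟨a / e ^ 2, div_ne_zero ha (pow_ne_zero _ f1), ?_, f2, f3⟩
  intro h1
  apply hb
  have h3 : a = -e ^ 2 := by
    have : a / e ^ 2 = -1 := by linear_combination h1
    rw [div_eq_iff (pow_ne_zero _ f1)] at this
    linear_combination this
  rw [h3] at he
  linear_combination he

/-- the twist which has a point with a given `X` -/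
theorem exists_twist {t X : K} (ht0 : t ≠ 0) (hrr : 4 * t + 27 ≠ 0) (hf : ff t X ≠ 0) :
    ∃ (a b x y : K) (_ : (sw a b).toAffine.Nonsingular x y), a ≠ 0 ∧ b ≠ 0 ∧ dl a b ≠ 0 ∧
      tt a b = t ∧ x * a / b = X ∧ x = ff t X * X := by
  set f := ff t X with hfd
  have ha : f ^ 2 * t ≠ 0 := mul_ne_zero (pow_ne_zero _ hf) ht0
  have hb : f ^ 3 * t ≠ 0 := mul_ne_zero (pow_ne_zero _ hf) ht0
  have hD : dl (f ^ 2 * t) (f ^ 3 * t) ≠ 0 := by
    have e : dl (f ^ 2 * t) (f ^ 3 * t) = f ^ 6 * t ^ 2 * (4 * t + 27) := by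
      unfold dl
      ring
    rw [e]
    exact mul_ne_zero (mul_ne_zero (pow_ne_zero _ hf) (pow_ne_zero _ ht0)) hrr
  refine ⟨f ^ 2 * t, f ^ 3 * t, f * X, f ^ 2, ?_, ha, hb, hD, ?_, ?_, rfl⟩
  · have heq : (f ^ 2) ^ 2 = (f * X) ^ 3 + (f ^ 2 * t) * (f * X) + f ^ 3 * t := by
      have : (f * X) ^ 3 + (f ^ 2 * t) * (f * X) + f ^ 3 * t = f ^ 3 * ff t X := by
        unfold ff
        ring
      rw [this, ← hfd]
      ring
    rw [Affine.nonsingular_iff]
    refine ⟨sw_eqn.2 heq, Or.inr ?_⟩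
    simp only [sw]
    intro h0
    have h2 : (2 : K) * f ^ 2 = 0 := by linear_combination h0
    rcases mul_eq_zero.1 h2 with h3 | h3
    · norm_num at h3
    · exact hf (pow_eq_zero_iff two_ne_zero |>.1 h3)
  · unfold tt
    field_simp
  · field_simp

end Pts

end Pool.Agent.T9h57.LS
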