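import Mathlib
import Pool.Agent.T9h57.LS.Cv

/-!
# The three families, and the count of the exceptional invariants
-/

set_option autoImplicit false
set_option linter.unusedSectionVars false

namespace Pool.Agent.T9h57.LS

open NumberField IsDedekindDomain Finset Pool.Agent.H691R3 Pool.Agent.W223.AK Pool.Agent.Y733.UD
open Pool.Agent.TH942 Pool.Agent.TH910.LS Pool.Agent.Y733.LS WeierstrassCurve

section Fam

variable {K : Type} [Field K] [NumberField K] [DecidableEq K]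

theorem up_gen {a b : K} (ha : a ≠ 0) (hb : b ≠ 0) (hD : dl a b ≠ 0) {x y : K}
    (h : (sw a b).toAffine.Nonsingular x y) {R : ℝ} (hR : 0 ≤ R)
    (h1 : Sa (Lam (tt a b) (tt a b) (x * a / b)) - bt a b x / 4 +
      Module.finrank ℚ K * Real.log 12 ≤ R) :
    chat (Affine.Point.some x y h : SPt a b) ≤ R := by
  by_cases hP : ∀ k : ℕ, (2 ^ k : ℕ) • (Affine.Point.some x y h : SPt a b) ≠ 0
  · have h2 := chat_up ha hb hD h hP
    rw [Sa_Lam ha hb x] at h2
    exact h2.trans h1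
  · rw [chat_tors hD hP]
    exact hR

theorem up_zero {a b : K} (ha : a ≠ 0) (hb : b ≠ 0) (hD : dl a b ≠ 0) {y : K}
    (h : (sw a b).toAffine.Nonsingular 0 y) :
    chat (Affine.Point.some 0 y h : SPt a b) ≤
      1 / 6 * ht (jj a b) + Module.finrank ℚ K * C5 := by
  have ht0 := tt_ne ha hb
  obtain ⟨u1, u2, u3, u4, u5, u6, u7, u8, u9, u10, u11, e1, e2, e3, e4, e5, e6, e7, e8, e9, e10,
    e11, p1, p2, p3, p4, p5, p6, p7, p8, p9, p10, p11, hC⟩ := consts (K := K)
  have c2 : ht (tt a b) ≤ ht (jj a b) + Module.finrank ℚ K * Real.log 6916 := by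
    obtain ⟨k1, k2⟩ := tt_j ha hb hD
    rw [k1]
    exact ht_t_le k2
  have d1 : Sa (Lam (tt a b) (tt a b) (0 * a / b)) = Sa (Lam (tt a b) (tt a b) 0) := by
    rw [zero_mul, zero_div]
  have d2 := Sa_Lam_zero (K := K) ht0
  have d3 := bt_nonneg a b 0
  have c12 := ht_nonneg (jj a b)
  rw [← e2] at c2
  rw [hC]
  apply up_gen ha hb hD h (by linarith)
  rw [d1, ← e5]
  linarith

theorem up_two {a b : K} (ha : a ≠ 0) (hb : b ≠ 0) (hD : dl a b ≠ 0) {η : ℝ} (hη : 0 ≤ η)
    (hs3 : (1 - η) * ht (jj a b) ≤ sp (jj a b)) {x y : K}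
    (h : (sw a b).toAffine.Nonsingular x y) (hX : x * a / b = -(3 / 2)) :
    chat (Affine.Point.some x y h : SPt a b) ≤
      (1 / 4 + 1 / 4 * η) * ht (jj a b) + Module.finrank ℚ K * C5 := by
  have ht0 := tt_ne ha hb
  obtain ⟨u1, u2, u3, u4, u5, u6, u7, u8, u9, u10, u11, e1, e2, e3, e4, e5, e6, e7, e8, e9, e10,
    e11, p1, p2, p3, p4, p5, p6, p7, p8, p9, p10, p11, hC⟩ := consts (K := K)
  have c2 : ht (tt a b) ≤ ht (jj a b) + Module.finrank ℚ K * Real.log 6916 := by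
    obtain ⟨k1, k2⟩ := tt_j ha hb hD
    rw [k1]
    exact ht_t_le k2
  have d2 := Sa_Lam_two (K := K) ht0
  have d3 := bt_all (a := a) (x := x) hb (fun v _ => by rw [hX]; norm_num)
  have c12 := ht_nonneg (jj a b)
  have c13 : 0 ≤ η * ht (jj a b) := mul_nonneg hη c12
  rw [← e2] at c2
  rw [mul_add, ← e7, ← e10] at d2
  rw [hC]
  apply up_gen ha hb hD h
  · linarith
  · rw [hX, ← e5, d3]
    linarith

theorem up_three {a b : K} (ha : a ≠ 0) (hb : b ≠ 0) (hD : dl a b ≠ 0) {η : ℝ} (hη : 0 ≤ η)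
    (hs3 : (1 - η) * ht (jj a b) ≤ sp (jj a b)) {x y : K}
    (h : (sw a b).toAffine.Nonsingular x y) (hX : x * a / b = 2 / 9 * tt a b) :
    chat (Affine.Point.some x y h : SPt a b) ≤
      (5 / 12 + 1 / 4 * η) * ht (jj a b) + Module.finrank ℚ K * C5 := by
  have ht0 := tt_ne ha hb
  obtain ⟨u1, u2, u3, u4, u5, u6, u7, u8, u9, u10, u11, e1, e2, e3, e4, e5, e6, e7, e8, e9, e10,
    e11, p1, p2, p3, p4, p5, p6, p7, p8, p9, p10, p11, hC⟩ := consts (K := K)
  have c2 : ht (tt a b) ≤ ht (jj a b) + Module.finrank ℚ K * Real.log 6916 := by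
    obtain ⟨k1, k2⟩ := tt_j ha hb hD
    rw [k1]
    exact ht_t_le k2
  have d2 := Sa_Lam_three (K := K) ht0
  rw [ht_inv ht0] at d2
  have d3 := bt_all (a := a) (x := x) hb (fun v hv => by
    rw [hX]
    have e : 2 * (2 / 9 * tt a b) + 3 = (4 * tt a b + 27) / 9 := by
      field_simp
      ring
    have h9 : fv v (9 : K) = 1 := by
      have : (9 : K) = 3 ^ 2 := by norm_num
      rw [this, map_pow, hv.2.1]
      norm_num
    obtain ⟨f1, f2⟩ := sp_facts hD hv
    rw [e, map_div₀, h9, div_one, rr_eq hb, map_div₀, map_pow, f2, mul_div_cancel_right₀ _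
        (pow_pos ((fv v).pos hb) 2).ne']
    exact inv_lt_one_of_one_lt₀ (Nv_one_lt v))
  have c12 := ht_nonneg (jj a b)
  have c13 : 0 ≤ η * ht (jj a b) := mul_nonneg hη c12
  rw [← e2] at c2
  rw [mul_add, ← e10, ← e11] at d2
  rw [hC]
  apply up_gen ha hb hD h
  · linarith
  · rw [hX, ← e5, d3]
    linarith

end Fam

section Cnt

/-- the parameter `t` in terms of `j` -/
noncomputable def tj {K : Type} [Field K] (j : K) : K := 27 * j / (4 * (1728 - j))

/-- the invariants for which the theorem holds -/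
def Nice {K : Type} [Field K] [NumberField K] (η : ℝ) (j : K) : Prop :=
  ¬ Two j ∧ (1 - η) * ht j ≤ sp j ∧ (1 - η) * ht (tj j) ≤ sp (tj j) ∧
    (1 - η) * ht (tj j)⁻¹ ≤ sp (tj j)⁻¹

theorem tj_inj {K : Type} [Field K] [CharZero K] {j j' : K} (h : j ≠ 1728) (h' : j' ≠ 1728)
    (he : tj j = tj j') : j = j' := by
  have h1 : 1728 - j ≠ 0 := fun h0 => h (by linear_combination -h0)
  have h2 : 1728 - j' ≠ 0 := fun h0 => h' (by linear_combination -h0)
  unfold tj at he
  rw [div_eq_div_iff (mul_ne_zero (by norm_num) h1) (mul_ne_zero (by norm_num) h2)] at he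
  have h3 : (186624 : K) * (j - j') = 0 := by linear_combination he
  rcases mul_eq_zero.1 h3 with h4 | h4
  · norm_num at h4
  · linear_combination h4

theorem tj_ne {K : Type} [Field K] [CharZero K] {j : K} (h0 : j ≠ 0) (h : j ≠ 1728) :
    tj j ≠ 0 := by
  have h1 : 1728 - j ≠ 0 := fun h0 => h (by linear_combination -h0)
  exact div_ne_zero (mul_ne_zero (by norm_num) h0) (mul_ne_zero (by norm_num) h1)

theorem nice_count {η ε : ℝ} (hη0 : 0 < η) (hη : η < 1 / 2) (hε : 0 < ε) : ∃ A : ℝ, 0 ≤ A ∧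
    ∀ (K : Type) [Field K] [NumberField K] (X : ℝ) (E : Finset K), 0 ≤ X →
      (∀ j ∈ E, j ≠ 0 ∧ j ≠ 1728 ∧ ht j ≤ X ∧ ¬ Nice η j) →
        (E.card : ℝ) ≤ Real.exp (Module.finrank ℚ K * A + (2 - η / 2 + ε) * X) := by
  classical
  obtain ⟨A2, hA2, hspc⟩ := sp_count hε
  obtain ⟨A3, hA3, htwo⟩ := two_count hε
  have hl6 : 0 ≤ Real.log 6 := Real.log_nonneg (by norm_num)
  have hl : 0 ≤ Real.log 6916 := Real.log_nonneg (by norm_num)
  set A4 : ℝ := A2 + (2 - η / 2 + ε) * Real.log 6916 with hA4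
  have h2e : 0 ≤ 2 - η / 2 + ε := by linarith
  have hA40 : 0 ≤ A4 := by positivity
  refine ⟨Real.log 6 + A4 + A3, by positivity, ?_⟩
  intro K _ _ X E hX hE
  set n := Module.finrank ℚ K with hn
  have hn1 : (1 : ℝ) ≤ n := by exact_mod_cast Module.finrank_pos (R := ℚ) (M := K)
  have hn0 : (0 : ℝ) ≤ n := by linarith
  set E1 := E.filter fun j => j ≠ -1 ∧ sp j ≤ (1 - η) * ht j with hE1
  set E2 := E.filter fun j => tj j ≠ -1 ∧ sp (tj j) ≤ (1 - η) * ht (tj j) with hE2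
  set E3 := E.filter fun j => tj j ≠ -1 ∧ sp (tj j)⁻¹ ≤ (1 - η) * ht (tj j)⁻¹ with hE3
  set E4 := E.filter fun j => Two j with hE4
  set E5 := E.filter fun j => tj j = -1 with hE5
  have hsub : E ⊆ ((E1 ∪ E2) ∪ (E3 ∪ E4)) ∪ (E5 ∪ {-1}) := by
    intro j hj
    simp only [Finset.mem_union, Finset.mem_singleton]
    by_cases h1 : j = -1
    · exact Or.inr (Or.inr h1)
    by_cases h1' : tj j = -1
    · exact Or.inr (Or.inl (Finset.mem_filter.2 ⟨hj, h1'⟩))
    left
    obtain ⟨h2, h3, h4, h5⟩ := hE j hj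
    by_contra hcon
    push Not at hcon
    obtain ⟨⟨c1, c2⟩, c3, c4⟩ := hcon
    rw [hE1, Finset.mem_filter] at c1
    rw [hE2, Finset.mem_filter] at c2
    rw [hE3, Finset.mem_filter] at c3
    rw [hE4, Finset.mem_filter] at c4
    push Not at c1 c2 c3 c4
    exact h5 ⟨c4 hj, (c1 hj h1).le, (c2 hj h1').le, (c3 hj h1').le⟩
  have b1 : (E1.card : ℝ) ≤ Real.exp (n * A2 + (2 - η / 2 + ε) * X) := by
    refine hspc K η X E1 (by linarith) ?_
    intro j hj
    rw [hE1, Finset.mem_filter] at hj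
    refine ⟨⟨(hE j hj.1).1, fun h2 => hj.2.1 ?_⟩, (hE j hj.1).2.2.1, hj.2.2⟩
    linear_combination h2
  have hbd : ∀ j ∈ E, ht (tj j) ≤ X + n * Real.log 6916 := by
    intro j hj
    obtain ⟨h2, h3, h4, h5⟩ := hE j hj
    have h1 : 1728 - j ≠ 0 := fun h0 => h3 (by linear_combination -h0)
    have h6 := ht_t_le h1
    unfold tj
    linarith
  have hX' : 0 ≤ X + n * Real.log 6916 := by positivity
  have b2 : (E2.card : ℝ) ≤ Real.exp (n * A2 + (2 - η / 2 + ε) * (X + n * Real.log 6916)) := by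
    have hinj : Set.InjOn (tj (K := K)) (E2 : Set K) := by
      intro j hj j' hj' he
      rw [hE2, Finset.mem_coe, Finset.mem_filter] at hj hj'
      exact tj_inj (hE j hj.1).2.1 (hE j' hj'.1).2.1 he
    rw [← Finset.card_image_of_injOn hinj]
    refine hspc K η (X + n * Real.log 6916) (E2.image tj) (by linarith) ?_
    intro t htt
    obtain ⟨j, hj, rfl⟩ := Finset.mem_image.1 htt
    rw [hE2, Finset.mem_filter] at hj
    refine ⟨⟨tj_ne (hE j hj.1).1 (hE j hj.1).2.1, fun h2 => hj.2.1 ?_⟩, hbd j hj.1, hj.2.2⟩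
    linear_combination h2
  have b3 : (E3.card : ℝ) ≤ Real.exp (n * A2 + (2 - η / 2 + ε) * (X + n * Real.log 6916)) := by
    have hinj : Set.InjOn (fun j : K => (tj j)⁻¹) (E3 : Set K) := by
      intro j hj j' hj' he
      rw [hE3, Finset.mem_coe, Finset.mem_filter] at hj hj'
      exact tj_inj (hE j hj.1).2.1 (hE j' hj'.1).2.1 (inv_injective he)
    rw [← Finset.card_image_of_injOn hinj]
    refine hspc K η (X + n * Real.log 6916) (E3.image fun j : K => (tj j)⁻¹) (by linarith) ?_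
    intro t htt
    obtain ⟨j, hj, rfl⟩ := Finset.mem_image.1 htt
    rw [hE3, Finset.mem_filter] at hj
    have h0 := tj_ne (hE j hj.1).1 (hE j hj.1).2.1
    refine ⟨⟨inv_ne_zero h0, fun h2 => hj.2.1 ?_⟩, ?_, hj.2.2⟩
    · have h3 : (tj j)⁻¹ = -1 := by linear_combination h2
      rw [← inv_inv (tj j), h3]
      norm_num
    · show ht (tj j)⁻¹ ≤ _
      rw [ht_inv h0]
      exact hbd j hj.1
  have b4 : (E4.card : ℝ) ≤ Real.exp (n * A3 + (2 + ε) / 3 * X) := by
    refine htwo K X E4 ?_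
    intro j hj
    rw [hE4, Finset.mem_filter] at hj
    obtain ⟨α, h1, h2, h3, h4⟩ := hj.2
    exact ⟨(hE j hj.1).2.2.1, α, ⟨h1, h2⟩, h3, h4⟩
  have b5 : E5.card ≤ 1 := by
    rw [Finset.card_le_one]
    intro j hj j' hj'
    rw [hE5, Finset.mem_filter] at hj hj'
    exact tj_inj (hE j hj.1).2.1 (hE j' hj'.1).2.1 (by rw [hj.2, hj'.2])
  have hcard : (E.card : ℝ) ≤ E1.card + E2.card + E3.card + E4.card + 2 := by
    have h1 := Finset.card_le_card hsub
    have h2 := Finset.card_union_le ((E1 ∪ E2) ∪ (E3 ∪ E4)) (E5 ∪ ({-1} : Finset K))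
    have h3 := Finset.card_union_le (E1 ∪ E2) (E3 ∪ E4)
    have h4 := Finset.card_union_le E1 E2
    have h5 := Finset.card_union_le E3 E4
    have h6 := Finset.card_union_le E5 ({-1} : Finset K)
    rw [Finset.card_singleton] at h6
    exact_mod_cast (by omega : E.card ≤ E1.card + E2.card + E3.card + E4.card + 2)
  set M0 : ℝ := n * (A4 + A3) + (2 - η / 2 + ε) * X with hM0
  have hXe : 0 ≤ (2 - η / 2 + ε) * X := mul_nonneg h2e hX
  have hc6 : 0 ≤ (2 - η / 2 + ε) * Real.log 6916 := by positivity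
  have m1 : Real.exp (n * A2 + (2 - η / 2 + ε) * X) ≤ Real.exp M0 := by
    apply Real.exp_le_exp.2
    have h2 : 0 ≤ n * (((2 - η / 2 + ε) * Real.log 6916) + A3) := by positivity
    rw [hM0, hA4]
    nlinarith
  have m2 : Real.exp (n * A2 + (2 - η / 2 + ε) * (X + n * Real.log 6916)) ≤ Real.exp M0 := by
    apply Real.exp_le_exp.2
    have h2 : 0 ≤ n * A3 := by positivity
    rw [hM0, hA4]
    nlinarith
  have m4 : Real.exp (n * A3 + (2 + ε) / 3 * X) ≤ Real.exp M0 := by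
    apply Real.exp_le_exp.2
    have h2 : 0 ≤ n * A4 := by positivity
    have h3 : (2 + ε) / 3 * X ≤ (2 - η / 2 + ε) * X :=
      mul_le_mul_of_nonneg_right (by linarith) hX
    rw [hM0]
    nlinarith
  have m5 : 1 ≤ Real.exp M0 := by
    apply Real.one_le_exp
    positivity
  have hfin : (E.card : ℝ) ≤ 6 * Real.exp M0 := by linarith
  refine hfin.trans ?_
  have h4 : (6 : ℝ) ≤ Real.exp (n * Real.log 6) := by
    calc (6 : ℝ) = Real.exp (Real.log 6) := (Real.exp_log (by norm_num)).symm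
      _ ≤ Real.exp (n * Real.log 6) := Real.exp_le_exp.2 (by nlinarith)
  calc 6 * Real.exp M0 ≤ Real.exp (n * Real.log 6) * Real.exp M0 :=
        mul_le_mul_of_nonneg_right h4 (Real.exp_pos _).le
    _ = _ := by
        rw [← Real.exp_add, hM0]
        congr 1
        ring

end Cnt

section Pw

variable {K : Type} [Field K] [NumberField K] [DecidableEq K]

theorem chatM_tors {a b : K} (hD : dl a b ≠ 0) {g : ℕ} (M : Matrix (Fin g) (Fin g) ℤ)
    {P : Fin g → SPt a b} (hP : IsOfFinAddOrder P) : chatM M P = 0 := by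
  have hi : ∀ i, IsOfFinAddOrder (P i) := by
    intro i
    rw [isOfFinAddOrder_iff_nsmul_eq_zero] at hP ⊢
    obtain ⟨m, hm, hm'⟩ := hP
    exact ⟨m, hm, by simpa using congrFun hm' i⟩
  unfold chatM
  refine Finset.sum_eq_zero fun i _ => Finset.sum_eq_zero fun j _ => ?_
  rw [tors_zero hD (hi i), tors_zero hD (hi j), tors_zero hD ((hi i).add (hi j))]
  ring

/-- the lower bound for the powers, also for negative bounds -/
theorem all_powers' {a b : K} (hD : dl a b ≠ 0) {μ : ℝ}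
    (h : ∀ P : SPt a b, P ≠ 0 → μ ≤ chat P) {g : ℕ} (M : Matrix (Fin g) (Fin g) ℤ)
    (hM : (M.map (Int.cast : ℤ → ℝ)).PosDef) {P : Fin g → SPt a b} (hP : P ≠ 0) :
    μ ≤ chatM M P := by
  rcases le_or_gt μ 0 with hμ | hμ
  · refine hμ.trans ?_
    by_cases hP' : IsOfFinAddOrder P
    · rw [chatM_tors hD M hP']
    · obtain ⟨Q, _, _, hQ'⟩ := reduction (a := a) (b := b) hD M hM P hP'
      exact ((chat_spec hD).2.1 Q).trans hQ'
  · exact all_powers hD hμ h M hM hP

end Pw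

end Pool.Agent.T9h57.LS
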