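import Mathlib
import Pool.Agent.Helper259.HtExt
import Pool.Agent.T9h57.LS.Ct

/-!
# Extensions of number fields: the places above the simple poles of `j`
-/

set_option autoImplicit false
set_option linter.unusedSectionVars false

namespace Pool.Agent.T9h57.LS

open NumberField IsDedekindDomain Finset Pool.Agent.H691R3 Pool.Agent.W223.AK Pool.Agent.Y733.UD
open Pool.Agent.TH942 Pool.Agent.TH910.LS Pool.Agent.Y733.LS

section Val

variable {K : Type} [Field K] [NumberField K]

theorem fv_val (v : Pr K) {x : K} {k : ℤ} (h : v.valuation K x = WithZero.exp k) :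
    fv v x = (Nv v) ^ k := by
  have h1 : fv v x = _ := NumberField.FinitePlace.norm_embedding' (v := v) (x := x)
  have hx : v.valuation K x ≠ 0 := by
    rw [h]
    exact WithZero.coe_ne_zero
  rw [WithZeroMulInt.toNNReal_neg_apply _ hx] at h1
  have h2 : Multiplicative.toAdd (WithZero.unzero hx) = k := by
    have h3 : WithZero.unzero hx = Multiplicative.ofAdd k := by
      apply WithZero.coe_injective
      rw [WithZero.coe_unzero, h]
      rfl
    rw [h3]
    rfl
  rw [h1, h2]
  push_cast
  rfl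

theorem val_fv (v : Pr K) {x : K} {k : ℤ} (h : fv v x = (Nv v) ^ k) :
    v.valuation K x = WithZero.exp k := by
  have hx : x ≠ 0 := by
    rintro rfl
    rw [map_zero] at h
    exact (zpow_pos (Nv_pos v) k).ne h
  have hx' : v.valuation K x ≠ 0 := (Valuation.ne_zero_iff _).mpr hx
  obtain ⟨m, hm⟩ : ∃ m : ℤ, v.valuation K x = WithZero.exp m := by
    refine ⟨Multiplicative.toAdd (WithZero.unzero hx'), ?_⟩
    conv_lhs => rw [← WithZero.coe_unzero hx']
    rfl
  have h1 := fv_val v hm
  rw [h] at h1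
  have h2 := Nv_inj v h1
  rw [hm, h2]

end Val

section Ext

variable {K L : Type} [Field K] [NumberField K] [Field L] [NumberField L] [Algebra K L]

/-- the extension of a prime ideal -/
noncomputable def up (L : Type) [Field L] [NumberField L] [Algebra K L] (v : Pr K) : Ideal (𝓞 L) :=
  v.asIdeal.map (algebraMap (𝓞 K) (𝓞 L))

theorem up_ne (v : Pr K) : up L v ≠ ⊥ := by
  unfold up
  rw [Ne, Ideal.map_eq_bot_iff_of_injective (FaithfulSMul.algebraMap_injective (𝓞 K) (𝓞 L))]
  exact v.ne_bot

theorem absNorm_up (v : Pr K) :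
    Real.log (Ideal.absNorm (up L v)) = Module.finrank K L * Real.log (Nv v) := by
  unfold up
  rw [Ideal.absNorm_algebraMap, Pool.Agent.Helper259.HtExt.finrank_int (K := K) (L := L)]
  push_cast
  rw [Real.log_pow]
  rfl

/-- the primes above `v` -/
noncomputable def above (L : Type) [Field L] [NumberField L] [Algebra K L] (v : Pr K) :
    Finset (Pr L) :=
  (Ideal.finite_factors (up_ne (L := L) v)).toFinset

theorem mem_above {v : Pr K} {w : Pr L} : w ∈ above L v ↔ w.asIdeal ∣ up L v := by
  unfold above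
  rw [Set.Finite.mem_toFinset]
  rfl

/-- the primes above `v` have total norm at most that of `v` -/
theorem above_le (v : Pr K) :
    ∑ w ∈ above L v, Real.log (Nv w) ≤ Module.finrank K L * Real.log (Nv v) := by
  classical
  rw [← absNorm_up]
  have hdvd : ∏ w ∈ above L v, w.asIdeal ∣ up L v := by
    have hinj : Set.InjOn (fun w : Pr L => w.asIdeal) (above L v : Set (Pr L)) := by
      intro w _ w' _ h
      exact HeightOneSpectrum.ext h
    rw [← Finset.prod_image (f := fun I : Ideal (𝓞 L) => I) hinj]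
    apply Finset.prod_primes_dvd
    · intro I hI
      obtain ⟨w, hw, rfl⟩ := Finset.mem_image.1 hI
      exact w.prime
    · intro I hI
      obtain ⟨w, hw, rfl⟩ := Finset.mem_image.1 hI
      exact mem_above.1 hw
  have hle : (∏ w ∈ above L v, Ideal.absNorm w.asIdeal) ∣ Ideal.absNorm (up L v) := by
    rw [← map_prod]
    exact map_dvd _ hdvd
  have hpos : 0 < Ideal.absNorm (up L v) := by
    rw [Nat.pos_iff_ne_zero, Ne, Ideal.absNorm_eq_zero_iff]
    exact up_ne v
  have h1 := Nat.le_of_dvd hpos hle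
  have h2 : ∑ w ∈ above L v, Real.log (Nv w) =
      Real.log ((∏ w ∈ above L v, Ideal.absNorm w.asIdeal : ℕ) : ℝ) := by
    rw [Nat.cast_prod, Real.log_prod]
    · rfl
    · intro w _
      exact (Nv_pos w).ne'
  rw [h2]
  apply Real.log_le_log
  · have h3 : 0 < ∏ w ∈ above L v, Ideal.absNorm w.asIdeal := by
      apply Finset.prod_pos
      intro w _
      have := Nv_pos w
      unfold Nv at this
      exact_mod_cast this
    exact_mod_cast h3
  · exact_mod_cast h1

/-- equality if `v` is unramified -/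
theorem le_above {v : Pr K} (hs : Squarefree (up L v)) :
    Module.finrank K L * Real.log (Nv v) ≤ ∑ w ∈ above L v, Real.log (Nv w) := by
  classical
  rw [← absNorm_up]
  have hne := up_ne (L := L) v
  set I := up L v with hI
  have hnd : (UniqueFactorizationMonoid.normalizedFactors I).Nodup :=
    (UniqueFactorizationMonoid.squarefree_iff_nodup_normalizedFactors hne).1 hs
  have hprod : (UniqueFactorizationMonoid.normalizedFactors I).prod = I := by
    have := UniqueFactorizationMonoid.prod_normalizedFactors hne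
    rwa [associated_iff_eq] at this
  have hfs : ∏ P ∈ (UniqueFactorizationMonoid.normalizedFactors I).toFinset, P = I := by
    rw [Finset.prod_eq_multiset_prod, Multiset.toFinset_val, Multiset.dedup_eq_self.2 hnd,
      Multiset.map_id']
    exact hprod
  have hsub : (UniqueFactorizationMonoid.normalizedFactors I).toFinset ⊆
      (above L v).image (fun w : Pr L => w.asIdeal) := by
    intro P hP
    rw [Multiset.mem_toFinset] at hP
    have hP1 := UniqueFactorizationMonoid.prime_of_normalized_factor P hP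
    have hP2 := UniqueFactorizationMonoid.dvd_of_mem_normalizedFactors hP
    refine Finset.mem_image.2 ⟨⟨P, Ideal.isPrime_of_prime hP1, hP1.ne_zero⟩, ?_, rfl⟩
    exact mem_above.2 hP2
  have hinj : Set.InjOn (fun w : Pr L => w.asIdeal) (above L v : Set (Pr L)) := by
    intro w _ w' _ h
    exact HeightOneSpectrum.ext h
  have h1 : Real.log (Ideal.absNorm I : ℝ) =
      ∑ P ∈ (UniqueFactorizationMonoid.normalizedFactors I).toFinset,
        Real.log (Ideal.absNorm P : ℝ) := by
    conv_lhs => rw [← hfs]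
    rw [map_prod, Nat.cast_prod, Real.log_prod]
    intro P hP
    rw [Multiset.mem_toFinset] at hP
    have hP1 := UniqueFactorizationMonoid.prime_of_normalized_factor P hP
    have : Ideal.absNorm P ≠ 0 := by
      rw [Ne, Ideal.absNorm_eq_zero_iff]
      exact hP1.ne_zero
    exact_mod_cast this
  rw [h1]
  have h2 : ∑ w ∈ above L v, Real.log (Nv w) =
      ∑ P ∈ (above L v).image (fun w : Pr L => w.asIdeal), Real.log (Ideal.absNorm P : ℝ) := by
    rw [Finset.sum_image hinj]
    rfl
  rw [h2]
  refine Finset.sum_le_sum_of_subset_of_nonneg hsub fun P _ _ => Real.log_natCast_nonneg _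

theorem lies {v : Pr K} {w : Pr L} (h : w.asIdeal ∣ up L v) : w.asIdeal.LiesOver v.asIdeal := by
  have h1 : up L v ≤ w.asIdeal := Ideal.dvd_iff_le.1 h
  have h2 : v.asIdeal ≤ w.asIdeal.comap (algebraMap (𝓞 K) (𝓞 L)) := Ideal.map_le_iff_le_comap.1 h1
  have h3 : v.asIdeal = w.asIdeal.comap (algebraMap (𝓞 K) (𝓞 L)) := by
    apply v.isMaximal.eq_of_le _ h2
    exact Ideal.comap_ne_top _ w.isPrime.ne_top
  exact ⟨h3⟩

/-- the prime below -/
theorem exists_below (w : Pr L) : ∃ v : Pr K, w.asIdeal.LiesOver v.asIdeal ∧ w ∈ above L v := by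
  have hp : (w.asIdeal.comap (algebraMap (𝓞 K) (𝓞 L))).IsPrime := Ideal.comap_isPrime _ _
  have hne : w.asIdeal.comap (algebraMap (𝓞 K) (𝓞 L)) ≠ ⊥ :=
    fun h => w.ne_bot (Ideal.eq_bot_of_comap_eq_bot (R := 𝓞 K) h)
  refine ⟨⟨_, hp, hne⟩, ⟨rfl⟩, ?_⟩
  rw [mem_above, Ideal.dvd_iff_le]
  exact Ideal.map_comap_le

theorem ram_one {v : Pr K} {w : Pr L} (h : w.asIdeal ∣ up L v) (hs : Squarefree (up L v)) :
    v.asIdeal.ramificationIdx' w.asIdeal = 1 := by
  apply Ideal.ramificationIdx'_spec
  · rw [pow_one]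
    exact Ideal.dvd_iff_le.1 h
  · intro h2
    have h3 : w.asIdeal * w.asIdeal ∣ up L v := by
      rw [Ideal.dvd_iff_le, ← pow_two]
      exact h2
    exact w.prime.not_unit (hs _ h3)

theorem exp_pow (k : ℤ) (e : ℕ) : (WithZero.exp k) ^ e = WithZero.exp ((e : ℤ) * k) := by
  rw [← WithZero.exp_nsmul]
  congr 1

theorem sp_up {j : K} {v : Pr K} {w : Pr L} (hw : w ∈ above L v) (hs : Squarefree (up L v))
    (hv : Sp j v) : Sp (algebraMap K L j) w := by
  rw [mem_above] at hw
  have := lies hw
  have hr := ram_one hw hs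
  have key : ∀ x : K, ∀ k : ℤ, fv v x = (Nv v) ^ k → fv w (algebraMap K L x) = (Nv w) ^ k := by
    intro x k hx
    apply fv_val
    rw [← HeightOneSpectrum.valuation_liesOver L v w x, hr, pow_one]
    exact val_fv v hx
  obtain ⟨h2, h3, hj⟩ := hv
  refine ⟨?_, ?_, ?_⟩
  · have := key 2 0 (by rw [h2, zpow_zero])
    rwa [map_ofNat, zpow_zero] at this
  · have := key 3 0 (by rw [h3, zpow_zero])
    rwa [map_ofNat, zpow_zero] at this
  · have := key j 1 (by rw [hj, zpow_one])
    rwa [zpow_one] at this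

theorem sp_down {j : K} (w : Pr L) (hw : Sp (algebraMap K L j) w) :
    ∃ v : Pr K, w ∈ above L v ∧ Sp j v := by
  obtain ⟨v, hl, hwv⟩ := exists_below (K := K) w
  refine ⟨v, hwv, ?_⟩
  set e := v.asIdeal.ramificationIdx' w.asIdeal with he
  have hval : ∀ x : K, x ≠ 0 → ∀ k : ℤ, fv w (algebraMap K L x) = (Nv w) ^ k →
      ∃ m : ℤ, (e : ℤ) * m = k ∧ fv v x = (Nv v) ^ m := by
    intro x hx k hk
    obtain ⟨m, hm⟩ := fv_zpow v hx
    refine ⟨m, ?_, hm⟩
    have h1 := HeightOneSpectrum.valuation_liesOver L v w x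
    rw [val_fv v hm, val_fv w hk, ← he, exp_pow] at h1
    exact WithZero.exp_injective h1
  obtain ⟨h2, h3, hj⟩ := hw
  have hj0 : j ≠ 0 := by
    rintro rfl
    rw [map_zero, map_zero] at hj
    exact (Nv_pos w).ne hj
  obtain ⟨m, hm, hm'⟩ := hval j hj0 1 (by rw [hj, zpow_one])
  have he1 : e ≠ 0 := by
    intro h0
    rw [h0] at hm
    simp at hm
  have h0 : ∀ x : K, x ≠ 0 → fv w (algebraMap K L x) = 1 → fv v x = 1 := by
    intro x hx h1
    obtain ⟨m', hm1, hm2⟩ := hval x hx 0 (by rw [h1, zpow_zero])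
    have : m' = 0 := by
      rcases mul_eq_zero.1 hm1 with h | h
      · exact absurd (by exact_mod_cast h) he1
      · exact h
    rw [hm2, this, zpow_zero]
  refine ⟨?_, ?_, ?_⟩
  · exact h0 2 (by norm_num) (by rw [map_ofNat]; exact h2)
  · exact h0 3 (by norm_num) (by rw [map_ofNat]; exact h3)
  · have h5 : (e : ℤ) = 1 ∧ m = 1 := by
      have h6 : (0 : ℤ) ≤ e := Int.natCast_nonneg e
      rcases Int.mul_eq_one_iff_eq_one_or_neg_one.1 hm with h | h
      · exact h
      · omega
    rw [hm', h5.2, zpow_one]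

/-- **the simple poles in the extension** -/
theorem sp_ext (j : K) (R : Finset (Pr K))
    (hR : ∀ v, Sp j v → v ∉ R → Squarefree (up L v)) :
    Module.finrank K L * (sp j - ∑ v ∈ R, Real.log (Nv v)) ≤ sp (algebraMap K L j) := by
  classical
  set S : Finset (Pr K) := (Fs_spf j).toFinset with hS
  have hmemS : ∀ v, v ∈ S ↔ Sp j v := by
    intro v
    rw [hS, Set.Finite.mem_toFinset, Function.mem_support]
    unfold spf
    constructor
    · intro h
      by_contra h2
      exact h (if_neg h2)
    · intro h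
      rw [if_pos h]
      exact (log_Nv_pos v).ne'
  have h1 : sp j = ∑ v ∈ S, Real.log (Nv v) := by
    rw [sp_eq j S (fun v hv => (hmemS v).2 hv)]
    refine Finset.sum_congr rfl fun v hv => if_pos ((hmemS v).1 hv)
  set T := S.filter (fun v => v ∉ R) with hT
  have h2 : ∑ v ∈ S, Real.log (Nv v) ≤ ∑ v ∈ T, Real.log (Nv v) + ∑ v ∈ R, Real.log (Nv v) := by
    rw [← Finset.sum_filter_add_sum_filter_not S (fun v => v ∉ R)]
    apply add_le_add le_rfl
    apply Finset.sum_le_sum_of_subset_of_nonneg
    · intro v hv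
      rw [Finset.mem_filter] at hv
      exact not_not.1 hv.2
    · intro v _ _
      exact (log_Nv_pos v).le
  have hn : (0 : ℝ) ≤ Module.finrank K L := Nat.cast_nonneg _
  have h3 : Module.finrank K L * (sp j - ∑ v ∈ R, Real.log (Nv v)) ≤
      ∑ v ∈ T, Module.finrank K L * Real.log (Nv v) := by
    rw [← Finset.mul_sum]
    apply mul_le_mul_of_nonneg_left _ hn
    linarith
  refine h3.trans ?_
  have h4 : ∑ v ∈ T, Module.finrank K L * Real.log (Nv v) ≤
      ∑ v ∈ T, ∑ w ∈ above L v, Real.log (Nv w) := by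
    refine Finset.sum_le_sum fun v hv => ?_
    rw [hT, Finset.mem_filter] at hv
    exact le_above (hR v ((hmemS v).1 hv.1) hv.2)
  refine h4.trans ?_
  have hdisj : ∀ v ∈ T, ∀ v' ∈ T, v ≠ v' → Disjoint (above L v) (above L v') := by
    intro v _ v' _ hne
    rw [Finset.disjoint_left]
    intro w hw hw'
    rw [mem_above] at hw hw'
    have l1 := lies hw
    have l2 := lies hw'
    apply hne
    apply HeightOneSpectrum.ext
    rw [l1.over, l2.over]
  rw [← Finset.sum_biUnion hdisj]
  have h5 : ∑ w ∈ T.biUnion (above L), Real.log (Nv w) =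
      ∑ w ∈ T.biUnion (above L), spf (algebraMap K L j) w := by
    refine Finset.sum_congr rfl fun w hw => ?_
    obtain ⟨v, hv, hwv⟩ := Finset.mem_biUnion.1 hw
    rw [hT, Finset.mem_filter] at hv
    have := sp_up hwv (hR v ((hmemS v).1 hv.1) hv.2) ((hmemS v).1 hv.1)
    unfold spf
    rw [if_pos this]
  rw [h5]
  exact sum_le_fin _ (Fs_spf _) (spf_nonneg _)

/-- the height in the extension -/
theorem ht_ext (j : K) : ht (algebraMap K L j) = Module.finrank K L * ht j := by
  have h := Pool.Agent.Helper259.HtExt.logHeight_ext (L := L) (K := K) (ι := Fin 2) ![j, 1]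
  have e1 : (fun i => algebraMap K L ((![j, 1] : Fin 2 → K) i)) = ![algebraMap K L j, 1] := by
    funext i
    fin_cases i
    · rfl
    · exact map_one _
  rw [e1, ← Height.logHeight₁_eq_logHeight, ← Height.logHeight₁_eq_logHeight, logHeight_eq,
    logHeight_eq, ← ht_eq_Sa, ← ht_eq_Sa] at h
  exact h

end Ext

end Pool.Agent.T9h57.LS
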