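import Mathlib
import Pool.Agent.T9h57.LS.Ex

/-!
# Semistable curves: all points are good at the simple poles of `j`
-/

set_option autoImplicit false
set_option linter.unusedSectionVars false

namespace Pool.Agent.T9h57.LS

open NumberField IsDedekindDomain Finset Pool.Agent.H691R3 Pool.Agent.W223.AK Pool.Agent.Y733.UD
open Pool.Agent.TH942 Pool.Agent.TH910.LS Pool.Agent.Y733.LS WeierstrassCurve

section One

variable {K : Type} [Field K] [NumberField K]

/-- a model with unit coefficients -/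
def Semi (a b : K) (v : Pr K) : Prop := ∃ u : K, fv v (u ^ 4 * a) = 1 ∧ fv v (u ^ 6 * b) = 1

/-- parity -/
theorem good_semi {a b x y : K} (ha : a ≠ 0) (hb : b ≠ 0) (hD : dl a b ≠ 0) {v : Pr K}
    (hv : Sp (jj a b) v) (hs : Semi a b v) (he : y ^ 2 = x ^ 3 + a * x + b) :
    Good (fv v) a b x := by
  by_contra hbad
  rw [good_iff hb, not_le] at hbad
  have hn := fv_Na v
  have hN := Nv_one_lt v
  have hN0 := Nv_pos v
  obtain ⟨f1, f2⟩ := sp_facts hD hv
  obtain ⟨f4, _, _⟩ := fv_two_three v hv.1 hv.2.1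
  set t := tt a b with htd
  set X := x * a / b with hX
  have hr : fv v (4 * t + 27) = (Nv v)⁻¹ := by
    rw [rr_eq hb, map_div₀, map_pow, f2, mul_div_cancel_right₀ _ (pow_pos ((fv v).pos hb) 2).ne']
  have hY : fv v (2 * X + 3) ≤ (Nv v)⁻¹ := disc_le v hbad
  have hX1 : fv v X ≤ 1 := by
    by_contra hcon
    push Not at hcon
    rw [lin_big hn hv.1 hcon] at hbad
    linarith
  have hX3 : fv v (X - 3) ≤ 1 := hn.le_sub hX1 (hn.ofNat 3)
  have hXp : fv v (X + 1) = 1 := by
    have e : fv v (-(2 * (X + 1))) = fv v (1 + -(2 * X + 3)) := by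
      congr 1
      ring
    rw [map_neg_eq_map, map_mul, hv.1, one_mul] at e
    rw [e, hn.eq, map_one]
    rw [map_one, map_neg_eq_map]
    exact hbad
  have h4f : fv v (4 * ff t X) = (Nv v)⁻¹ := by
    have e : 4 * ff t X = (4 * t + 27) * (X + 1) + (2 * X + 3) * ((2 * X + 3) * (X - 3)) := by
      unfold ff
      ring
    have e1 : fv v ((4 * t + 27) * (X + 1)) = (Nv v)⁻¹ := by
      rw [map_mul, hr, hXp, mul_one]
    rw [e, hn.eq, e1]
    rw [e1, map_mul, map_mul]
    have h1 : 0 < (Nv v)⁻¹ := inv_pos.2 hN0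
    have h2 : (Nv v)⁻¹ < 1 := inv_lt_one_of_one_lt₀ hN
    have h3 := (fv v).nonneg (2 * X + 3)
    have h4 := (fv v).nonneg (X - 3)
    calc fv v (2 * X + 3) * (fv v (2 * X + 3) * fv v (X - 3))
        ≤ (Nv v)⁻¹ * ((Nv v)⁻¹ * 1) := by gcongr
      _ < (Nv v)⁻¹ := by nlinarith
  have hf : fv v (ff t X) = (Nv v)⁻¹ := by
    rwa [map_mul, f4, one_mul] at h4f
  have hf0 : ff t X ≠ 0 := by
    intro h0
    rw [h0, map_zero] at hf
    exact (inv_pos.2 hN0).ne hf
  have hy2 : y ^ 2 = (b / a) ^ 3 * ff t X := by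
    rw [he, htd, hX]
    unfold ff tt
    field_simp
  have hy : y ≠ 0 := by
    rintro rfl
    have : (b / a) ^ 3 * ff t X = 0 := by rw [← hy2]; norm_num
    rcases mul_eq_zero.1 this with h | h
    · exact div_ne_zero hb ha (pow_eq_zero_iff (three_ne_zero) |>.1 h)
    · exact hf0 h
  obtain ⟨u, hu1, hu2⟩ := hs
  have hu : u ≠ 0 := by
    rintro rfl
    rw [show (0 : K) ^ 4 * a = 0 by ring, map_zero] at hu1
    exact zero_ne_one hu1
  obtain ⟨k, hk⟩ := fv_zpow v hu
  obtain ⟨m, hm⟩ := fv_zpow v hy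
  obtain ⟨α, hα⟩ := fv_zpow v ha
  obtain ⟨β, hβ⟩ := fv_zpow v hb
  rw [map_mul, map_pow, hk, hα, ← zpow_natCast, ← zpow_mul, ← zpow_add₀ hN0.ne',
    ← zpow_zero (Nv v)] at hu1
  rw [map_mul, map_pow, hk, hβ, ← zpow_natCast, ← zpow_mul, ← zpow_add₀ hN0.ne',
    ← zpow_zero (Nv v)] at hu2
  have i1 := Nv_inj v hu1
  have i2 := Nv_inj v hu2
  have h5 : fv v (y ^ 2) = fv v ((b / a) ^ 3 * ff t X) := by rw [hy2]
  rw [map_pow, hm, map_mul, map_pow, map_div₀, hα, hβ, hf, ← zpow_sub₀ hN0.ne', ← zpow_natCast,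
    ← zpow_mul, ← zpow_natCast, ← zpow_mul, ← zpow_neg_one, ← zpow_add₀ hN0.ne'] at h5
  have i3 := Nv_inj v h5
  push_cast at i1 i2 i3
  omega

/-- points of order two -/
theorem two_ineq {a b x : K} (ha : a ≠ 0) (hb : b ≠ 0) (hD : dl a b ≠ 0) (hG : pG a b x = 0) :
    4 * Sa (Lam a b x) - Sm (lossi a b) (lossf a b) - bt a b x ≤ 0 := by
  have h4D : (4 : K) * dl a b ≠ 0 := mul_ne_zero (by norm_num) hD
  have hF : pF a b x ≠ 0 := by
    intro h0
    have := res1 a b x
    rw [h0, hG, mul_zero, mul_zero, sub_zero] at this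
    exact h4D this.symm
  have hs2 : (Function.support fun v : Pr K => Real.log (fv v (pF a b x))).Finite := Fs_log hF
  have hs3 : (Function.support fun v : Pr K => Lam a b x (fv v)).Finite := Fs_Lam ha hb x
  have hs4 := Fs_loss ha hb hD
  have hs5 := Fs_bt a b x
  have e3 : 4 * Sa (Lam a b x) - Sm (lossi a b) (lossf a b) - bt a b x =
      Sm (fun w => 4 * Lam a b x w.1 - lossi a b w - 0)
        (fun v => 4 * Lam a b x (fv v) - lossf a b v - btf a b x v) := by
    rw [Sm_sub (supp_sub (supp_mul 4 hs3) hs4) hs5, Sm_sub (supp_mul 4 hs3) hs4, Sm_mul, Sm_bt]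
    rfl
  rw [e3]
  refine le_trans ?_ (Sa_log hF).le
  have hM : ∀ w : AbsoluteValue K ℝ, 0 < max (w x) (sz w a b) := fun w =>
    lt_max_of_lt_right (sz_pos ha)
  have hR : ∀ w : AbsoluteValue K ℝ, max (w (pF a b x)) (sz w a b * w (pG a b x)) =
      w (pF a b x) := by
    intro w
    rw [hG, map_zero, mul_zero, max_eq_left (w.nonneg _)]
  unfold Sa
  apply Sm_mono (supp_sub (supp_sub (supp_mul 4 hs3) hs4) hs5) hs2
  · intro w
    show 4 * Real.log (max (w.1 x) (sz w.1 a b)) - lossi a b w - 0 ≤ Real.log (w.1 (pF a b x))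
    have h1 := res_arch (w := w.1) (fun n => (inf_nat w n).le) (x := x) (sz_pos (b := b) ha)
      (le_sz_sq w.1 a b) (le_sz_cube w.1 a b)
    rw [hR] at h1
    have h2 : 0 < w.1 (4 * dl a b) := w.1.pos h4D
    have h3 : 0 < sz w.1 a b := sz_pos ha
    have h5 : 0 < w.1 (pF a b x) := w.1.pos hF
    have h4 := Real.log_le_log (by have := hM w.1; positivity) h1
    rw [Real.log_mul h2.ne' (pow_pos (hM w.1) 4).ne', Real.log_pow,
      Real.log_mul (by positivity) h5.ne'] at h4
    unfold lossi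
    rw [Real.log_div (by positivity) h2.ne']
    push_cast at h4
    linarith
  · intro v
    show 4 * Real.log (max (fv v x) (sz (fv v) a b)) - lossf a b v - btf a b x v ≤
      Real.log (fv v (pF a b x))
    have h2 : 0 < fv v (4 * dl a b) := (fv v).pos h4D
    have h3 : 0 < sz (fv v) a b := sz_pos ha
    have h5 : 0 < fv v (pF a b x) := (fv v).pos hF
    have hres : Real.log (fv v (4 * dl a b)) + 4 * Real.log (max (fv v x) (sz (fv v) a b)) ≤
        6 * Real.log (sz (fv v) a b) + Real.log (fv v (pF a b x)) := by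
      have h1 := res_na (w := fv v) (fv_Na v) (x := x) (sz_pos (b := b) ha)
        (le_sz_sq (fv v) a b) (le_sz_cube (fv v) a b)
      rw [hR] at h1
      have h4 := Real.log_le_log (by have := hM (fv v); positivity) h1
      rw [Real.log_mul h2.ne' (pow_pos (hM (fv v)) 4).ne', Real.log_pow,
        Real.log_mul (by positivity) h5.ne', Real.log_pow] at h4
      push_cast at h4
      linarith
    have hb0 := btf_nonneg a b x v
    unfold lossf
    split_ifs with hsp
    · obtain ⟨f1, f2⟩ := sp_facts hD hsp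
      by_cases hgood : Good (fv v) a b x
      · have hlt : fv v (dl a b) < fv v b ^ 2 := by
          rw [f2]
          have h5 : 0 < fv v b ^ 2 := pow_pos ((fv v).pos hb) 2
          have h6 : (Nv v)⁻¹ < 1 := inv_lt_one_of_one_lt₀ (Nv_one_lt v)
          nlinarith
        have h1 := (good_step (fv_Na v) hsp.1 ha hb f1 hlt hgood).1
        rw [hR] at h1
        have h4 := Real.log_le_log (by have := hM (fv v); positivity) h1
        rw [Real.log_pow] at h4
        push_cast at h4
        linarith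
      · have e5 : btf a b x v = Real.log (Nv v) := by
          unfold btf
          exact if_pos ⟨hsp, hgood⟩
        rw [e5]
        have h4 : fv v (4 : K) = 1 := by
          have : (4 : K) = 2 ^ 2 := by norm_num
          rw [this, map_pow, hsp.1]
          norm_num
        have hNp := Nv_pos v
        have e6 : Real.log (fv v (4 * dl a b)) = -Real.log (Nv v) +
            6 * Real.log (sz (fv v) a b) := by
          rw [map_mul, h4, one_mul, f2, Real.log_mul (inv_pos.2 hNp).ne'
            (pow_pos ((fv v).pos hb) 2).ne', Real.log_inv]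
          congr 1
          have e7 := sz_six (fv v) a b
          rw [f1, max_self] at e7
          rw [← e7, Real.log_pow]
          push_cast
          ring
        rw [e6] at hres
        linarith
    · rw [Real.log_div (by positivity) h2.ne', Real.log_pow]
      push_cast
      linarith

end One

section Two

variable {K : Type} [Field K] [NumberField K] [DecidableEq K]

/-- points which are killed by a power of two -/
theorem exists_two {a b : K} {P : SPt a b} (hP : P ≠ 0) (h : ¬ ∀ k : ℕ, (2 ^ k : ℕ) • P ≠ 0) :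
    ∃ x : K, pG a b x = 0 := by
  classical
  push Not at h
  set k := Nat.find h with hk
  have hk1 : (2 ^ k : ℕ) • P = 0 := Nat.find_spec h
  have hk0 : k ≠ 0 := by
    intro h0
    rw [h0, pow_zero, one_smul] at hk1
    exact hP hk1
  obtain ⟨m, hm⟩ : ∃ m, k = m + 1 := ⟨k - 1, by omega⟩
  have hQ : (2 ^ m : ℕ) • P ≠ 0 := Nat.find_min h (by omega)
  obtain ⟨x, y, hxy, he⟩ := exists_coord _ hQ
  rw [hm, pow_succ, mul_comm, mul_smul, he] at hk1
  refine ⟨x, ?_⟩
  have hy : y = 0 := by
    by_contra hy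
    obtain ⟨_, y', h', e⟩ := dup_some hxy hy
    rw [e] at hk1
    exact absurd hk1 (by intro h9; cases h9)
  have h2 : y ^ 2 = x ^ 3 + a * x + b := sw_eqn.1 hxy.1
  unfold pG
  rw [← h2, hy]
  ring

end Two

section Ext

variable {K L : Type} [Field K] [NumberField K] [Field L] [NumberField L] [Algebra K L]

/-- the bad points in the extension -/
theorem bt_ext {a b x : L} (ha : a ≠ 0) (hb : b ≠ 0) (hD : dl a b ≠ 0) {y : L}
    (he : y ^ 2 = x ^ 3 + a * x + b) {j : K} (hj : jj a b = algebraMap K L j)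
    (R : Finset (Pr K))
    (hR : ∀ v, Sp j v → v ∉ R → ∀ w ∈ above L v, Semi a b w) :
    bt a b x ≤ Module.finrank K L * ∑ v ∈ R, Real.log (Nv v) := by
  classical
  set S : Finset (Pr L) := (Fs_bt a b x).toFinset with hS
  have h1 : bt a b x = ∑ w ∈ S, btf a b x w := by
    unfold bt
    rw [finsum_eq_sum_of_support_subset]
    rw [hS, Set.Finite.coe_toFinset]
  have h2 : S ⊆ R.biUnion (above L) := by
    intro w hw
    rw [hS, Set.Finite.mem_toFinset, Function.mem_support] at hw
    have h3 : Sp (jj a b) w ∧ ¬ Good (fv w) a b x := by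
      by_contra hcon
      apply hw
      unfold btf
      exact if_neg hcon
    obtain ⟨h4, h5⟩ := h3
    have h4' := h4
    rw [hj] at h4'
    obtain ⟨v, hwv, hv⟩ := sp_down w h4'
    rw [Finset.mem_biUnion]
    refine ⟨v, ?_, hwv⟩
    by_contra hvR
    exact h5 (good_semi ha hb hD h4 (hR v hv hvR w hwv) he)
  have hle : ∀ w, btf a b x w ≤ Real.log (Nv w) := by
    intro w
    unfold btf
    have := (log_Nv_pos w).le
    split_ifs
    · exact le_rfl
    · exact this
  rw [h1]
  calc ∑ w ∈ S, btf a b x w ≤ ∑ w ∈ R.biUnion (above L), btf a b x w :=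
        Finset.sum_le_sum_of_subset_of_nonneg h2 fun w _ _ => btf_nonneg a b x w
    _ ≤ ∑ w ∈ R.biUnion (above L), Real.log (Nv w) := Finset.sum_le_sum fun w _ => hle w
    _ ≤ ∑ v ∈ R, ∑ w ∈ above L v, Real.log (Nv w) := by
        have hdisj : Set.PairwiseDisjoint (R : Set (Pr K)) (above L) := by
          intro v _ v' _ hne
          show Disjoint (above L v) (above L v')
          rw [Finset.disjoint_left]
          intro w hw hw'
          rw [mem_above] at hw hw'
          have l1 := lies hw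
          have l2 := lies hw'
          apply hne
          apply HeightOneSpectrum.ext
          rw [l1.over, l2.over]
        rw [Finset.sum_biUnion hdisj]
    _ ≤ ∑ v ∈ R, Module.finrank K L * Real.log (Nv v) :=
        Finset.sum_le_sum fun v _ => above_le v
    _ = _ := by rw [Finset.mul_sum]

end Ext

section Main

variable {K L : Type} [Field K] [NumberField K] [Field L] [NumberField L] [Algebra K L]
  [DecidableEq L]

/-- **the lower bound in all extensions** -/
theorem chat_ext {a b : L} (ha : a ≠ 0) (hb : b ≠ 0) (hD : dl a b ≠ 0) {j : K}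
    (hj : jj a b = algebraMap K L j) {η : ℝ} (hη : 0 ≤ η) (hη1 : η ≤ 1 / 2)
    (hsp : (1 - η) * ht j ≤ sp j) (R : Finset (Pr K))
    (hR1 : ∀ v, Sp j v → v ∉ R → Squarefree (up L v))
    (hR2 : ∀ v, Sp j v → v ∉ R → ∀ w ∈ above L v, Semi a b w) {P : SPt a b} (hP : P ≠ 0) :
    Module.finrank K L * ((1 / 6 - η) * ht j - 7 / 12 * ∑ v ∈ R, Real.log (Nv v)) -
      Module.finrank ℚ L * C5 ≤ chat P := by
  obtain ⟨u1, u2, u3, u4, u5, u6, u7, u8, u9, u10, u11, e1, e2, e3, e4, e5, e6, e7, e8, e9, e10,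
    e11, p1, p2, p3, p4, p5, p6, p7, p8, p9, p10, p11, hC⟩ := consts (K := L)
  have c3 := loss_sum ha hb hD
  have c4 := sz_sum ha hb hD
  have c5 := sp_ext (L := L) j R hR1
  have c6 := ht_ext (L := L) j
  rw [hj, c6, ← e3] at c3
  rw [hj, c6, ← e1] at c4
  have hn : (0 : ℝ) ≤ Module.finrank K L := Nat.cast_nonneg _
  have hH := ht_nonneg j
  have hρ : 0 ≤ ∑ v ∈ R, Real.log (Nv v) := Finset.sum_nonneg fun v _ => (log_Nv_pos v).le
  set n := (Module.finrank K L : ℝ) with hnd
  set ρ := ∑ v ∈ R, Real.log (Nv v) with hρd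
  have m1 : n * ((1 - η) * ht j) ≤ n * sp j := mul_le_mul_of_nonneg_left hsp hn
  have m2 : 0 ≤ n * ht j := mul_nonneg hn hH
  have m3 : 0 ≤ n * ρ := mul_nonneg hn hρ
  have m4 : 0 ≤ η * (n * ht j) := mul_nonneg hη m2
  have m5 : η * (n * ht j) ≤ 1 / 2 * (n * ht j) := mul_le_mul_of_nonneg_right hη1 m2
  have hloss : Sm (lossi a b) (lossf a b) ≤ η * (n * ht j) + n * ρ + u3 := by
    have : n * sp j = n * (sp j - ρ) + n * ρ := by ring
    nlinarith
  have hsz : ∀ x : L, n * ht j - u1 ≤ 6 * Sa (Lam a b x) := by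
    intro x
    refine c4.trans ?_
    have : Sa (fun w : AbsoluteValue L ℝ => Real.log (sz w a b)) ≤ Sa (Lam a b x) := by
      unfold Sa
      apply Sm_mono (Fs_sz ha hb) (Fs_Lam ha hb x)
      · intro w
        exact Real.log_le_log (sz_pos ha) (le_max_right _ _)
      · intro v
        exact Real.log_le_log (sz_pos ha) (le_max_right _ _)
    linarith
  rw [hC]
  have e20 : n * ((1 / 6 - η) * ht j - 7 / 12 * ρ) =
      1 / 6 * (n * ht j) - η * (n * ht j) - 7 / 12 * (n * ρ) := by ring
  rw [e20]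
  by_cases h2 : ∀ k : ℕ, (2 ^ k : ℕ) • P ≠ 0
  · obtain ⟨x, y, h, rfl⟩ := exists_coord P hP
    have he : y ^ 2 = x ^ 3 + a * x + b := sw_eqn.1 h.1
    have c7 := chat_low ha hb hD h h2
    have c8 := bt_ext ha hb hD he hj R hR2
    have c9 := hsz x
    linarith
  · rw [chat_tors hD h2]
    obtain ⟨x, hx⟩ := exists_two hP h2
    have he : (0 : L) ^ 2 = x ^ 3 + a * x + b := by
      unfold pG at hx
      rcases mul_eq_zero.1 hx with h | h
      · norm_num at h
      · rw [h]
        norm_num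
    have c7 := two_ineq ha hb hD hx
    have c8 := bt_ext ha hb hD he hj R hR2
    have c9 := hsz x
    nlinarith

end Main

end Pool.Agent.T9h57.LS
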